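import Mathlib

/-!
# MP_7aea73_co, paths with few colours, uniformly in the number of colours: definitions

`V` is the vertex set, `C` the set of colours, `χ : V → V → C` a symmetric colouring
(the values `χ v v` play no role).  No `DecidableEq` instances: `open scoped Classical` everywhere.
-/

namespace PFU
open Finset
open scoped Classical

/-- every two elements of `D` are joined by a chain of `E`-related elements -/
def Lkd {V : Type} (E : V → V → Prop) (D : Finset V) : Prop :=
  ∀ u ∈ D, ∀ v ∈ D, Relation.ReflTransGen E u v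

/-- `w` is a double cover of the pairs related by `E` -/
def Cov {V : Type} (E : V → V → Prop) (w : V → ℕ) : Prop :=
  ∀ u v, E u v → 2 ≤ w u + w v

/-- the graph formed by the colours of `S` -/
def EE {V C : Type} (χ : V → V → C) (S : Finset C) (u v : V) : Prop :=
  u ≠ v ∧ χ u v ∈ S

/-- a system of arcs inside `D`, along `E`: at most one arc leaves each vertex, at most one
arc enters each vertex (a partial injection) -/
structure ArcsR {V : Type} (E : V → V → Prop) (D : Finset V) (F : Finset (V × V)) : Prop where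
  fst : ∀ e ∈ F, e.1 ∈ D
  snd : ∀ e ∈ F, e.2 ∈ D
  rel : ∀ e ∈ F, E e.1 e.2
  inj1 : ∀ e ∈ F, ∀ f ∈ F, e.1 = f.1 → e = f
  inj2 : ∀ e ∈ F, ∀ f ∈ F, e.2 = f.2 → e = f

/-- the vertices touched by a system of arcs -/
noncomputable def tch {V : Type} (F : Finset (V × V)) : Finset V :=
  F.image Prod.fst ∪ F.image Prod.snd

/-- hypothesis (H): every union of at most `s` colours has a double cover whose total weight on
each linked set is at most `X` -/
def HH {V C : Type} (χ : V → V → C) (s : ℕ) (X : ℝ) : Prop :=
  ∀ S : Finset C, S.card ≤ s → ∃ w : V → ℕ, Cov (EE χ S) w ∧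
    ∀ D : Finset V, Lkd (EE χ S) D → (∑ u ∈ D, (w u : ℝ)) ≤ X

/-- no linked set of one colour inside `V1` contains `κ` arcs of this colour -/
def SmallMono {V C : Type} (χ : V → V → C) (V1 : Finset V) (κ : ℝ) : Prop :=
  ∀ (c : C) (D : Finset V), D ⊆ V1 → Lkd (EE χ {c}) D →
    ∀ F : Finset (V × V), ArcsR (EE χ {c}) D F → (F.card : ℝ) < κ

/-- degree of `u` into `V1` in colour `c` -/
noncomputable def dgc {V C : Type} (χ : V → V → C) (V1 : Finset V) (c : C) (u : V) : ℕ :=
  (V1.filter (fun v => v ≠ u ∧ χ u v = c)).card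

/-- the colour of `vu` is light at `v` -/
def Lt {V C : Type} (χ : V → V → C) (V1 : Finset V) (h : ℝ) (v u : V) : Prop :=
  (dgc χ V1 (χ v u) v : ℝ) < h

/-- the reduced graph of a partition -/
def RR {V : Type} [Fintype V] (G : SimpleGraph V) (P : Finpartition (univ : Finset V)) (ε d : ℝ)
    (A B : Finset V) : Prop :=
  A ∈ P.parts ∧ B ∈ P.parts ∧ A ≠ B ∧ G.IsUniform ε A B ∧ d ≤ (G.edgeDensity A B : ℝ)

end PFU
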