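import Pool.Agent.LibPFU75.T28

namespace PFU
open Finset
open scoped Classical

/-- the lower bound, uniformly in `t` -/
theorem lower_uniform (ε : ℝ) (hε : 0 < ε) : ∃ N : ℕ, ∀ s t ℓ R : ℕ, N ≤ s → s < t →
    N * s ≤ ℓ → PF61.Forces t s ℓ R → (1 - ε) * max 1 ((t : ℝ) / (2 * s)) * ℓ ≤ (R : ℝ) := by
  set ε1 : ℝ := min ε 1 with hε1
  have h10 : 0 < ε1 := lt_min hε one_pos
  have h11 : ε1 ≤ 1 := min_le_right _ _
  have h1ε : ε1 ≤ ε := min_le_left _ _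
  obtain ⟨N1, hN1⟩ := exists_nat_ge (4 / ε1)
  refine ⟨N1 + 1, ?_⟩
  intro s t ℓ R hs hst hNs hF
  have hsR : (1 : ℝ) ≤ s := by
    have : 1 ≤ s := by omega
    exact_mod_cast this
  have htR : (0 : ℝ) < t := by
    have : 0 < t := by omega
    exact_mod_cast this
  have hN1' : 4 ≤ ε1 * N1 := by
    rw [div_le_iff₀ h10] at hN1
    linarith
  have hN1R : (0 : ℝ) ≤ N1 := by positivity
  set mx : ℝ := max 1 ((t : ℝ) / (2 * s)) with hmx
  have hmx1 : 1 ≤ mx := le_max_left _ _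
  have hℓ0 : (0 : ℝ) ≤ ℓ := by positivity
  obtain ⟨h1, h2⟩ := PF61.forces_lower t s ℓ R (by omega) (by omega) hF
  have h2R : (ℓ : ℝ) ≤ (R : ℝ) := by exact_mod_cast h2
  have hN1s : (N1 : ℝ) * s ≤ ℓ := by
    have : N1 * s ≤ ℓ := le_trans (Nat.mul_le_mul_right s (by omega)) hNs
    exact_mod_cast this
  have h3 : (1 - ε) * mx * ℓ ≤ (1 - ε1) * mx * ℓ := by gcongr
  refine h3.trans ?_
  rw [hmx]
  rcases le_total ((t : ℝ) / (2 * s)) 1 with h | h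
  · rw [max_eq_left h]
    nlinarith
  · rw [max_eq_right h]
    have h4 : 2 * (s : ℝ) + 1 ≤ ε1 * ℓ := by nlinarith
    have h5 : (t : ℝ) * ((1 - ε1) * ℓ) ≤ t * ((ℓ : ℝ) - 1 - 2 * s) := by
      have : (1 - ε1) * ℓ ≤ (ℓ : ℝ) - 1 - 2 * s := by linarith
      gcongr
    have h6 : (1 - ε1) * ((t : ℝ) / (2 * s)) * ℓ = (t * ((1 - ε1) * ℓ)) / (2 * s) := by ring
    rw [h6, div_le_iff₀ (by positivity)]
    linarith

theorem final (ε : ℝ) (hε : 0 < ε) :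
    ∃ N : ℕ, ∀ K : ℝ, ∃ L : ℕ, ∀ s t : ℕ, N ≤ s → s < t → (t : ℝ) ≤ K * s → ∀ ℓ : ℕ, L ≤ ℓ →
      ∃ R : ℕ, IsLeast {n : ℕ | PF61.Forces t s ℓ n} R ∧
        (R : ℝ) ≤ (1 + ε) * max 1 ((t : ℝ) / (2 * s)) * ℓ ∧
        (N * s ≤ ℓ → (1 - ε) * max 1 ((t : ℝ) / (2 * s)) * ℓ ≤ (R : ℝ)) := by
  obtain ⟨N1, hN1⟩ := main_uniform ε hε
  obtain ⟨N2, hN2⟩ := lower_uniform ε hε
  refine ⟨N1 + N2, fun K => ?_⟩
  obtain ⟨N3, hN3⟩ := PF61.main_theorem ε K hε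
  have hL : ∀ p : ℕ × ℕ, ∃ L : ℕ, N1 ≤ p.1 → p.1 < p.2 → ∀ ℓ : ℕ, L ≤ ℓ →
      ∃ R : ℕ, IsLeast {n : ℕ | PF61.Forces p.2 p.1 ℓ n} R ∧
        (R : ℝ) ≤ (1 + ε) * max 1 ((p.2 : ℝ) / (2 * p.1)) * ℓ := by
    intro p
    by_cases h : N1 ≤ p.1 ∧ p.1 < p.2
    · obtain ⟨L, hL⟩ := hN1 p.1 p.2 h.1 h.2
      refine ⟨L, fun _ _ ℓ hℓ => ?_⟩
      obtain ⟨R, hR1, -, hR3⟩ := hL ℓ hℓ
      exact ⟨R, hR1, hR3⟩
    · exact ⟨0, fun h1 h2 => absurd ⟨h1, h2⟩ h⟩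
  choose f hf using hL
  obtain ⟨M, hM⟩ := exists_nat_ge (K * N3)
  refine ⟨N3 + ((Finset.range (N3 + 1)) ×ˢ (Finset.range (M + 1))).sup f, ?_⟩
  intro s t hs hst htK ℓ hℓ
  have hR : ∃ R : ℕ, IsLeast {n : ℕ | PF61.Forces t s ℓ n} R ∧
        (R : ℝ) ≤ (1 + ε) * max 1 ((t : ℝ) / (2 * s)) * ℓ := by
    by_cases h3 : N3 ≤ s
    · obtain ⟨R, hR1, hR2, -⟩ := hN3 s t h3 hst htK ℓ (by omega)
      exact ⟨R, hR1, hR2⟩
    · have hs0 : (0 : ℝ) < s ∨ s = 0 := by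
        rcases Nat.eq_zero_or_pos s with h | h
        · exact Or.inr h
        · exact Or.inl (by exact_mod_cast h)
      have hK0 : 0 ≤ K ∨ K < 0 := le_or_gt 0 K
      have htM : t ≤ M := by
        have hsN : (s : ℝ) ≤ N3 := by exact_mod_cast (by omega : s ≤ N3)
        have h1 : (t : ℝ) ≤ M := by
          rcases hK0 with hK | hK
          · calc (t : ℝ) ≤ K * s := htK
              _ ≤ K * N3 := by gcongr
              _ ≤ M := hM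
          · have h2 : K * (s : ℝ) ≤ 0 := by
              have : (0 : ℝ) ≤ s := by positivity
              nlinarith
            have h3 : (0 : ℝ) ≤ M := by positivity
            linarith
        exact_mod_cast h1
      have hmem : (s, t) ∈ (Finset.range (N3 + 1)) ×ˢ (Finset.range (M + 1)) := by
        rw [Finset.mem_product, Finset.mem_range, Finset.mem_range]
        constructor
        · show s < N3 + 1
          omega
        · show t < M + 1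
          omega
      have hle : f (s, t) ≤ ((Finset.range (N3 + 1)) ×ˢ (Finset.range (M + 1))).sup f :=
        Finset.le_sup hmem
      exact hf (s, t) (by show N1 ≤ s; omega) hst ℓ (by omega)
  obtain ⟨R, hR1, hR2⟩ := hR
  refine ⟨R, hR1, hR2, fun hNs => ?_⟩
  exact hN2 s t ℓ R (by omega) hst (le_trans (Nat.mul_le_mul_right s (by omega)) hNs) hR1.1

end PFU
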