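import Pool.Agent.LibPFU75.Defs

/-! Basic lemmas on arcs and covers (all short).
* `arcs_le_cover`: `2|F| ≤ ∑_{e∈F} (w e.1 + w e.2) ≤ 2 ∑_{u∈D} w u` by the two injectivities.
-/
namespace PFU
open Finset
open scoped Classical

theorem arcs_le_cover {V : Type} (E : V → V → Prop) (D : Finset V) (F : Finset (V × V))
    (hF : ArcsR E D F) (w : V → ℕ) (hw : ∀ u ∈ D, ∀ v ∈ D, E u v → 2 ≤ w u + w v) :
    F.card ≤ ∑ u ∈ D, w u := by
  have h1 : ∑ e ∈ F, w e.1 ≤ ∑ u ∈ D, w u := by
    have h2 : ∑ e ∈ F, w e.1 = ∑ u ∈ F.image Prod.fst, w u := by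
      rw [Finset.sum_image (fun e he f hf h => hF.inj1 e he f hf h)]
    rw [h2]
    apply Finset.sum_le_sum_of_subset
    intro u hu
    obtain ⟨e, he, rfl⟩ := Finset.mem_image.1 hu
    exact hF.fst e he
  have h3 : ∑ e ∈ F, w e.2 ≤ ∑ u ∈ D, w u := by
    have h2 : ∑ e ∈ F, w e.2 = ∑ u ∈ F.image Prod.snd, w u := by
      rw [Finset.sum_image (fun e he f hf h => hF.inj2 e he f hf h)]
    rw [h2]
    apply Finset.sum_le_sum_of_subset
    intro u hu
    obtain ⟨e, he, rfl⟩ := Finset.mem_image.1 hu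
    exact hF.snd e he
  have h4 : ∑ e ∈ F, 2 ≤ ∑ e ∈ F, (w e.1 + w e.2) :=
    Finset.sum_le_sum (fun e he => hw e.1 (hF.fst e he) e.2 (hF.snd e he) (hF.rel e he))
  rw [Finset.sum_add_distrib, Finset.sum_const, smul_eq_mul] at h4
  omega

theorem HH_arcs {V C : Type} (χ : V → V → C) (s : ℕ) (X : ℝ) (h : HH χ s X) (S : Finset C)
    (hS : S.card ≤ s) (D : Finset V) (hD : Lkd (EE χ S) D) (F : Finset (V × V))
    (hF : ArcsR (EE χ S) D F) : (F.card : ℝ) ≤ X := by
  obtain ⟨w, hw, hX⟩ := h S hS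
  have h1 := arcs_le_cover (EE χ S) D F hF w (fun u _ v _ huv => hw u v huv)
  have h2 : (F.card : ℝ) ≤ ((∑ u ∈ D, w u : ℕ) : ℝ) := by exact_mod_cast h1
  have h3 := hX D hD
  push_cast at h2
  exact le_trans h2 h3

theorem arcs_mono {V : Type} {E E' : V → V → Prop} (h : ∀ u v, E u v → E' u v)
    {D D' : Finset V} (hD : D ⊆ D') {F : Finset (V × V)} (hF : ArcsR E D F) : ArcsR E' D' F :=
  ⟨fun e he => hD (hF.fst e he), fun e he => hD (hF.snd e he), fun e he => h _ _ (hF.rel e he),
    hF.inj1, hF.inj2⟩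

/-- union of two systems with different tails and different heads -/
theorem arcs_union {V : Type} {E E' : V → V → Prop} {D D' : Finset V} {F F' : Finset (V × V)}
    (hF : ArcsR E D F) (hF' : ArcsR E' D' F')
    (hd1 : ∀ e ∈ F, ∀ f ∈ F', e.1 ≠ f.1) (hd2 : ∀ e ∈ F, ∀ f ∈ F', e.2 ≠ f.2) :
    ArcsR (fun u v => E u v ∨ E' u v) (D ∪ D') (F ∪ F') ∧ (F ∪ F').card = F.card + F'.card := by
  refine ⟨⟨?_, ?_, ?_, ?_, ?_⟩, ?_⟩
  · intro e he
    rcases Finset.mem_union.1 he with he | he
    · exact Finset.mem_union_left _ (hF.fst e he)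
    · exact Finset.mem_union_right _ (hF'.fst e he)
  · intro e he
    rcases Finset.mem_union.1 he with he | he
    · exact Finset.mem_union_left _ (hF.snd e he)
    · exact Finset.mem_union_right _ (hF'.snd e he)
  · intro e he
    rcases Finset.mem_union.1 he with he | he
    · exact Or.inl (hF.rel e he)
    · exact Or.inr (hF'.rel e he)
  · intro e he f hf hef
    rcases Finset.mem_union.1 he with he | he <;> rcases Finset.mem_union.1 hf with hf | hf
    · exact hF.inj1 e he f hf hef
    · exact absurd hef (hd1 e he f hf)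
    · exact absurd hef.symm (hd1 f hf e he)
    · exact hF'.inj1 e he f hf hef
  · intro e he f hf hef
    rcases Finset.mem_union.1 he with he | he <;> rcases Finset.mem_union.1 hf with hf | hf
    · exact hF.inj2 e he f hf hef
    · exact absurd hef (hd2 e he f hf)
    · exact absurd hef.symm (hd2 f hf e he)
    · exact hF'.inj2 e he f hf hef
  · apply Finset.card_union_of_disjoint
    rw [Finset.disjoint_left]
    intro e he he'
    exact hd1 e he e he' rfl

theorem tch_card {V : Type} (F : Finset (V × V)) : (tch F).card ≤ 2 * F.card := by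
  unfold tch
  have h1 := Finset.card_union_le (F.image Prod.fst) (F.image Prod.snd)
  have h2 : (F.image Prod.fst).card ≤ F.card := Finset.card_image_le
  have h3 : (F.image Prod.snd).card ≤ F.card := Finset.card_image_le
  omega

theorem fst_mem_tch {V : Type} {F : Finset (V × V)} {e : V × V} (he : e ∈ F) : e.1 ∈ tch F :=
  Finset.mem_union_left _ (Finset.mem_image_of_mem _ he)

theorem snd_mem_tch {V : Type} {F : Finset (V × V)} {e : V × V} (he : e ∈ F) : e.2 ∈ tch F :=
  Finset.mem_union_right _ (Finset.mem_image_of_mem _ he)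

theorem EE_mono {V C : Type} (χ : V → V → C) {S S' : Finset C} (h : S ⊆ S') (u v : V)
    (huv : EE χ S u v) : EE χ S' u v :=
  ⟨huv.1, h huv.2⟩

theorem lkd_mono {V : Type} {E E' : V → V → Prop} (h : ∀ u v, E u v → E' u v)
    {D D' : Finset V} (hD : D ⊆ D') (hL : Lkd E D') : Lkd E' D :=
  fun u hu v hv => Relation.ReflTransGen.mono h _ _ (hL u (hD hu) v (hD hv))

theorem rtg_symm {V : Type} {E : V → V → Prop} (hE : ∀ u v, E u v → E v u) {u v : V}
    (h : Relation.ReflTransGen E u v) : Relation.ReflTransGen E v u := by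
  induction h with
  | refl => exact Relation.ReflTransGen.refl
  | tail _ h2 ih => exact Relation.ReflTransGen.head (hE _ _ h2) ih

theorem EE_symm {V C : Type} (χ : V → V → C) (hχ : ∀ u v, χ u v = χ v u) (S : Finset C) (u v : V)
    (h : EE χ S u v) : EE χ S v u :=
  ⟨h.1.symm, by rw [hχ v u]; exact h.2⟩

end PFU
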