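import Pool.Agent.LibPFU75.T01

/-! Koenig's theorem for the bipartite double cover.
Bipartite graph: left copies `u'` and right copies `u''` (`u ∈ D`), `u' v''` an edge iff `E u v`.
A maximum matching is a system of arcs `F`, a minimum vertex cover is a pair `P, Q` of subsets of
`D` (left, right) with `|P| + |Q| = |F|`; `w u = [u ∈ P] + [u ∈ Q]`.  For `E u v`: `u ∈ P` or
`v ∈ Q`, and (symmetry) `v ∈ P` or `u ∈ Q`, hence `w u + w v ≥ 2`.
A proof of Koenig from Hall (`Finset.all_card_le_biUnion_card_iff_exists_injective`): take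
`A ⊆ D` with the maximal deficiency `δ = |A| - |N(A)|`; add `δ` new right vertices adjacent to all
left vertices; Hall gives a matching saturating `D`, of which at least `|D| - δ` edges are old;
`P = D \ A`, `Q = N(A)` is a cover of size `|D| - δ`.  (Or search Mathlib for Koenig.)
-/
namespace PFU
open Finset
open scoped Classical

/-- the neighbours in `D` of the set `A` -/
noncomputable def t02_N {V : Type} (E : V → V → Prop) (D A : Finset V) : Finset V :=
  D.filter (fun v => ∃ u ∈ A, E u v)

/-- Hall with deficiency -/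
theorem t02_hall {V : Type} (E : V → V → Prop) (D : Finset V) (δ : ℕ)
    (h : ∀ A ⊆ D, A.card ≤ (t02_N E D A).card + δ) :
    ∃ f : D → V ⊕ Fin δ, Function.Injective f ∧
      ∀ u : D, ∀ v, f u = Sum.inl v → v ∈ D ∧ E u v := by
  let t : D → Finset (V ⊕ Fin δ) := fun u => (D.filter (fun v => E u v)).disjSum univ
  have hall : ∀ s : Finset D, s.card ≤ (s.biUnion t).card := by
    intro s
    rcases s.eq_empty_or_nonempty with rfl | ⟨x, hx⟩
    · simp
    · have h1 := h (s.map (Function.Embedding.subtype _)) (by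
        intro v hv
        rw [Finset.mem_map] at hv
        obtain ⟨u, _, rfl⟩ := hv
        exact u.2)
      rw [Finset.card_map] at h1
      have h2 : (t02_N E D (s.map (Function.Embedding.subtype _))).disjSum (univ : Finset (Fin δ))
          ⊆ s.biUnion t := by
        intro y hy
        rw [Finset.mem_biUnion]
        rw [Finset.mem_disjSum] at hy
        rcases hy with ⟨v, hv, rfl⟩ | ⟨i, _, rfl⟩
        · unfold t02_N at hv
          rw [Finset.mem_filter] at hv
          obtain ⟨hv1, u, hu, huv⟩ := hv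
          rw [Finset.mem_map] at hu
          obtain ⟨u', hu', rfl⟩ := hu
          refine ⟨u', hu', ?_⟩
          rw [Finset.inl_mem_disjSum, Finset.mem_filter]
          exact ⟨hv1, huv⟩
        · refine ⟨x, hx, ?_⟩
          rw [Finset.inr_mem_disjSum]
          exact Finset.mem_univ _
      have h3 := Finset.card_le_card h2
      rw [Finset.card_disjSum, Finset.card_univ, Fintype.card_fin] at h3
      omega
  obtain ⟨f, hf, hft⟩ := (Finset.all_card_le_biUnion_card_iff_exists_injective t).1 hall
  refine ⟨f, hf, fun u v huv => ?_⟩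
  have := hft u
  rw [huv, Finset.inl_mem_disjSum, Finset.mem_filter] at this
  exact this

theorem t02_arcs {V : Type} (E : V → V → Prop) (D : Finset V) (δ : ℕ)
    (f : D → V ⊕ Fin δ) (hf : Function.Injective f)
    (hfE : ∀ u : D, ∀ v, f u = Sum.inl v → v ∈ D ∧ E u v) :
    ∃ F : Finset (V × V), ArcsR E D F ∧ D.card ≤ F.card + δ := by
  let F : Finset (V × V) := (D ×ˢ D).filter (fun e => ∃ h : e.1 ∈ D, f ⟨e.1, h⟩ = Sum.inl e.2)
  have hmem : ∀ e : V × V, e ∈ F ↔ ∃ h : e.1 ∈ D, f ⟨e.1, h⟩ = Sum.inl e.2 := by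
    intro e
    constructor
    · intro he
      exact (Finset.mem_filter.1 he).2
    · rintro ⟨h, h2⟩
      exact Finset.mem_filter.2 ⟨Finset.mem_product.2 ⟨h, (hfE _ _ h2).1⟩, h, h2⟩
  refine ⟨F, ⟨?_, ?_, ?_, ?_, ?_⟩, ?_⟩
  · intro e he
    exact ((hmem e).1 he).1
  · intro e he
    obtain ⟨h, h2⟩ := (hmem e).1 he
    exact (hfE _ _ h2).1
  · intro e he
    obtain ⟨h, h2⟩ := (hmem e).1 he
    exact (hfE _ _ h2).2
  · rintro ⟨a, b⟩ he ⟨a', b'⟩ he' hab
    obtain ⟨h, h2⟩ := (hmem _).1 he
    obtain ⟨h', h2'⟩ := (hmem _).1 he'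
    simp only at hab h h2 h' h2'
    subst hab
    rw [h2] at h2'
    simpa using h2'
  · rintro ⟨a, b⟩ he ⟨a', b'⟩ he' hab
    obtain ⟨h, h2⟩ := (hmem _).1 he
    obtain ⟨h', h2'⟩ := (hmem _).1 he'
    simp only at hab h h2 h' h2'
    subst hab
    rw [← h2'] at h2
    have := hf h2
    simpa using this
  · -- the map u ↦ (u, v) or i is injective from D to F ⊕ Fin δ
    have key : ∃ g : D → V × V ⊕ Fin δ, Function.Injective g ∧
        ∀ u, g u ∈ F.disjSum (univ : Finset (Fin δ)) := by
      refine ⟨fun u => Sum.map (fun v => ((u : V), v)) id (f u), ?_, ?_⟩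
      · intro u u' huu
        simp only at huu
        apply hf
        rcases h1 : f u with v | i <;> rcases h2 : f u' with v' | i' <;> rw [h1, h2] at huu <;>
          simp at huu
        · rw [huu.2]
        · rw [huu]
      · intro u
        simp only
        rcases h1 : f u with v | i
        · simp only [Sum.map_inl]
          rw [Finset.inl_mem_disjSum, hmem]
          exact ⟨u.2, h1⟩
        · simp only [Sum.map_inr]
          rw [Finset.inr_mem_disjSum]
          exact Finset.mem_univ _
    obtain ⟨g, hg, hgF⟩ := key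
    have h1 : (univ : Finset D).card ≤ (F.disjSum (univ : Finset (Fin δ))).card :=
      Finset.card_le_card_of_injOn g (fun u _ => hgF u) (fun u _ u' _ h => hg h)
    rw [Finset.card_disjSum, Finset.card_univ, Finset.card_univ, Fintype.card_fin,
      Fintype.card_coe] at h1
    exact h1

theorem koenig {V : Type} (E : V → V → Prop) (hE : ∀ u v, E u v → E v u) (D : Finset V) :
    ∃ (F : Finset (V × V)) (w : V → ℕ), ArcsR E D F ∧
      (∀ u ∈ D, ∀ v ∈ D, E u v → 2 ≤ w u + w v) ∧ (∀ u, w u ≤ 2) ∧ ∑ u ∈ D, w u = F.card := by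
  obtain ⟨A, hA, hmin⟩ := Finset.exists_min_image D.powerset
    (fun A => (D \ A).card + (t02_N E D A).card) ⟨∅, Finset.empty_mem_powerset D⟩
  rw [Finset.mem_powerset] at hA
  set m := (D \ A).card + (t02_N E D A).card with hm
  have hmD : m ≤ D.card := by
    have := hmin ∅ (Finset.empty_mem_powerset D)
    simpa [t02_N] using this
  have hdef : ∀ A' ⊆ D, A'.card ≤ (t02_N E D A').card + (D.card - m) := by
    intro A' hA'
    have h1 := hmin A' (Finset.mem_powerset.2 hA')
    have h2 := Finset.card_sdiff_add_card_eq_card hA'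
    omega
  obtain ⟨f, hf, hfE⟩ := t02_hall E D (D.card - m) hdef
  obtain ⟨F0, hF0, hc⟩ := t02_arcs E D (D.card - m) f hf hfE
  obtain ⟨F, hFF, hFc⟩ := Finset.exists_subset_card_eq (show m ≤ F0.card by omega)
  refine ⟨F, fun u => (if u ∈ D \ A then 1 else 0) + (if u ∈ t02_N E D A then 1 else 0),
    ⟨fun e he => hF0.fst e (hFF he), fun e he => hF0.snd e (hFF he),
      fun e he => hF0.rel e (hFF he), fun e he f hf => hF0.inj1 e (hFF he) f (hFF hf),
      fun e he f hf => hF0.inj2 e (hFF he) f (hFF hf)⟩, ?_, ?_, ?_⟩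
  · have hcov : ∀ u ∈ D, ∀ v ∈ D, E u v → u ∈ D \ A ∨ v ∈ t02_N E D A := by
      intro u hu v hv huv
      by_cases huA : u ∈ A
      · right
        exact Finset.mem_filter.2 ⟨hv, u, huA, huv⟩
      · left
        exact Finset.mem_sdiff.2 ⟨hu, huA⟩
    intro u hu v hv huv
    have h1 := hcov u hu v hv huv
    have h2 := hcov v hv u hu (hE u v huv)
    simp only
    rcases h1 with h1 | h1 <;> rcases h2 with h2 | h2 <;> simp only [h1, h2, if_true] <;> omega
  · intro u
    simp only
    split_ifs <;> omega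
  · rw [hFc, Finset.sum_add_distrib, ← Finset.card_filter, ← Finset.card_filter, hm]
    congr 2
    · ext u
      simp only [Finset.mem_filter, Finset.mem_sdiff]
      tauto
    · ext u
      simp only [Finset.mem_filter, t02_N]
      tauto

end PFU
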