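import Pool.Agent.LibPFU75.T01

/-! Joining two linked sets by one further colour: take `u0 ∈ D`, `v0 ∈ D'`, `c = χ u0 v0`
(if `u0 = v0` or one of the sets is empty nothing is needed). -/
namespace PFU
open Finset
open scoped Classical

theorem link_union {V C : Type} (χ : V → V → C) (hχ : ∀ u v, χ u v = χ v u) (S S' : Finset C)
    (D D' : Finset V) (hD : Lkd (EE χ S) D) (hD' : Lkd (EE χ S') D') (c0 : C) :
    ∃ c : C, Lkd (EE χ (S ∪ S' ∪ {c})) (D ∪ D') := by
  have key : ∀ (c : C) (u0 : V), (∀ x ∈ D ∪ D',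
      Relation.ReflTransGen (EE χ (S ∪ S' ∪ {c})) u0 x) →
      Lkd (EE χ (S ∪ S' ∪ {c})) (D ∪ D') := by
    intro c u0 h u hu v hv
    exact (rtg_symm (EE_symm χ hχ _) (h u hu)).trans (h v hv)
  have m1 : ∀ (c : C) {u v : V}, Relation.ReflTransGen (EE χ S) u v →
      Relation.ReflTransGen (EE χ (S ∪ S' ∪ {c})) u v := by
    intro c u v h
    refine Relation.ReflTransGen.mono (fun a b hab => EE_mono χ ?_ a b hab) _ _ h
    intro x hx
    simp [hx]
  have m2 : ∀ (c : C) {u v : V}, Relation.ReflTransGen (EE χ S') u v →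
      Relation.ReflTransGen (EE χ (S ∪ S' ∪ {c})) u v := by
    intro c u v h
    refine Relation.ReflTransGen.mono (fun a b hab => EE_mono χ ?_ a b hab) _ _ h
    intro x hx
    simp [hx]
  rcases D.eq_empty_or_nonempty with h | ⟨u0, hu0⟩
  · subst h
    refine ⟨c0, fun u hu v hv => ?_⟩
    rw [Finset.empty_union] at hu hv
    exact m2 c0 (hD' u hu v hv)
  · rcases D'.eq_empty_or_nonempty with h' | ⟨v0, hv0⟩
    · subst h'
      refine ⟨c0, fun u hu v hv => ?_⟩
      rw [Finset.union_empty] at hu hv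
      exact m1 c0 (hD u hu v hv)
    · refine ⟨χ u0 v0, key _ u0 ?_⟩
      intro x hx
      rcases Finset.mem_union.1 hx with hx | hx
      · exact m1 _ (hD u0 hu0 x hx)
      · have h1 : Relation.ReflTransGen (EE χ (S ∪ S' ∪ {χ u0 v0})) u0 v0 := by
          by_cases huv : u0 = v0
          · subst huv; exact Relation.ReflTransGen.refl
          · exact Relation.ReflTransGen.single ⟨huv, by simp⟩
        exact h1.trans (m2 _ (hD' v0 hv0 x hx))

end PFU
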