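import Pool.Agent.LibPFU75.T01

/-! * `clique_le`: take `w` from `HH` for `S = {c}`; `Z` is linked; if `|Z| ≥ 2`: if `w ≥ 1` on `Z`
  then `∑ ≥ |Z|`; if `w u0 = 0` then `w ≥ 2` on `Z \ {u0}` and `∑ ≥ 2(|Z|-1) ≥ |Z|`.
* `cover_sum`: let `W u = ∑_c w c u`.  For `u ≠ v` in `U`, with `c = χ u v`:
  `W u + W v ≥ w c u + w c v ≥ 2`.  So at most one vertex has `W = 0`.  Let `Z = {u ∈ U : W u = 1}`.
  For `u ≠ v` in `Z`, `c = χ u v`: `w c u = w c v = 1`, so `c` is the only colour with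
  `w c u > 0`; hence all the edges inside `Z` have the same colour and `|Z| ≤ z` (if `|Z| ≤ 1` use
  `1 ≤ z`).  `∑ W ≥ 2(|U| - 1 - |Z|) + |Z| ≥ 2|U| - 2 - z`. -/
namespace PFU
open Finset
open scoped Classical

theorem clique_le {V C : Type} (χ : V → V → C) (s : ℕ) (hs : 1 ≤ s) (X : ℝ) (h : HH χ s X) (c : C)
    (Z : Finset V) (hZ : ∀ u ∈ Z, ∀ v ∈ Z, u ≠ v → χ u v = c) : (Z.card : ℝ) ≤ max 1 X := by
  obtain ⟨w, hw, hX⟩ := h {c} (by rw [Finset.card_singleton]; exact hs)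
  by_cases hcard : Z.card ≤ 1
  · refine le_trans ?_ (le_max_left _ _)
    exact_mod_cast hcard
  refine le_trans ?_ (le_max_right _ _)
  have hL : Lkd (EE χ {c}) Z := by
    intro u hu v hv
    by_cases huv : u = v
    · rw [huv]
    · exact Relation.ReflTransGen.single ⟨huv, by rw [Finset.mem_singleton]; exact hZ u hu v hv huv⟩
  refine le_trans ?_ (hX Z hL)
  have key : Z.card ≤ ∑ u ∈ Z, w u := by
    by_cases h1 : ∀ u ∈ Z, 1 ≤ w u
    · rw [Finset.card_eq_sum_ones]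
      exact Finset.sum_le_sum h1
    · push Not at h1
      obtain ⟨u0, hu0, hw0⟩ := h1
      have h2 : ∀ u ∈ Z.erase u0, 2 ≤ w u := by
        intro u hu
        obtain ⟨hne, huZ⟩ := Finset.mem_erase.1 hu
        have h3 := hw u u0 ⟨hne, by rw [Finset.mem_singleton]; exact hZ u huZ u0 hu0 hne⟩
        omega
      have h3 : (Z.erase u0).card * 2 ≤ ∑ u ∈ Z.erase u0, w u := by
        rw [← smul_eq_mul, ← Finset.sum_const]
        exact Finset.sum_le_sum h2
      have h4 : ∑ u ∈ Z.erase u0, w u ≤ ∑ u ∈ Z, w u :=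
        Finset.sum_le_sum_of_subset (Finset.erase_subset _ _)
      rw [Finset.card_erase_of_mem hu0] at h3
      omega
  exact_mod_cast key

theorem cover_sum {V C : Type} [Fintype C] (χ : V → V → C) (hχ : ∀ u v, χ u v = χ v u)
    (U : Finset V) (w : C → V → ℕ)
    (hw : ∀ c, ∀ u ∈ U, ∀ v ∈ U, EE χ {c} u v → 2 ≤ w c u + w c v) (z : ℝ) (hz0 : 1 ≤ z)
    (hz : ∀ (c : C) (Z : Finset V), Z ⊆ U → (∀ u ∈ Z, ∀ v ∈ Z, u ≠ v → χ u v = c) →
      (Z.card : ℝ) ≤ z) :
    2 * (U.card : ℝ) - 2 - z ≤ ∑ u ∈ U, ∑ c, (w c u : ℝ) := by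
  have hle : ∀ c u, w c u ≤ ∑ c', w c' u := fun c u =>
    Finset.single_le_sum (f := fun c' => w c' u) (fun _ _ => Nat.zero_le _) (Finset.mem_univ c)
  have huniq : ∀ u, ∑ c', w c' u = 1 → ∀ c c', 1 ≤ w c u → 1 ≤ w c' u → c = c' := by
    intro u hu c c' h1 h2
    by_contra hne
    have h3 : w c u + w c' u ≤ ∑ c', w c' u :=
      Finset.add_le_sum (f := fun c' => w c' u) (fun _ _ => Nat.zero_le _) (Finset.mem_univ c)
        (Finset.mem_univ c') hne
    omega
  have hpair : ∀ u ∈ U, ∀ v ∈ U, u ≠ v → 2 ≤ w (χ u v) u + w (χ u v) v := fun u hu v hv huv =>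
    hw (χ u v) u hu v hv ⟨huv, Finset.mem_singleton_self _⟩
  have hZ0 : (U.filter fun u => ∑ c, w c u = 0).card ≤ 1 := by
    rw [Finset.card_le_one]
    intro u hu v hv
    rw [Finset.mem_filter] at hu hv
    by_contra hne
    have h1 := hpair u hu.1 v hv.1 hne
    have h2 := hle (χ u v) u
    have h3 := hle (χ u v) v
    omega
  have hZ1 : ((U.filter fun u => ∑ c, w c u = 1).card : ℝ) ≤ z := by
    by_cases hcard : (U.filter fun u => ∑ c, w c u = 1).card ≤ 1
    · refine le_trans ?_ hz0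
      exact_mod_cast hcard
    · push Not at hcard
      obtain ⟨u1, hu1, v1, hv1, hne1⟩ := Finset.one_lt_card.1 hcard
      have hcol : ∀ u ∈ U.filter (fun u => ∑ c, w c u = 1),
          ∀ v ∈ U.filter (fun u => ∑ c, w c u = 1), u ≠ v →
          1 ≤ w (χ u v) u ∧ 1 ≤ w (χ u v) v := by
        intro u hu v hv huv
        rw [Finset.mem_filter] at hu hv
        have h1 := hpair u hu.1 v hv.1 huv
        have h2 := hle (χ u v) u
        have h3 := hle (χ u v) v
        omega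
      refine hz (χ u1 v1) _ (Finset.filter_subset _ _) fun u hu v hv huv => ?_
      obtain ⟨ha, hb⟩ := hcol u hu v hv huv
      obtain ⟨hc, hd⟩ := hcol u1 hu1 v1 hv1 hne1
      have hsu := (Finset.mem_filter.1 hu).2
      have hsu1 := (Finset.mem_filter.1 hu1).2
      by_cases hu1' : u = u1
      · subst hu1'
        exact huniq u hsu _ _ ha hc
      · obtain ⟨he, hf⟩ := hcol u hu u1 hu1 hu1'
        have h1 : χ u v = χ u u1 := huniq u hsu _ _ ha he
        have h2 : χ u u1 = χ u1 v1 := huniq u1 hsu1 _ _ hf hc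
        exact h1.trans h2
  have hsum : 2 * U.card ≤ ∑ u ∈ U, ∑ c, w c u +
      2 * (U.filter fun u => ∑ c, w c u = 0).card +
      (U.filter fun u => ∑ c, w c u = 1).card := by
    rw [Finset.card_filter, Finset.card_filter, Finset.mul_sum, ← Finset.sum_add_distrib,
      ← Finset.sum_add_distrib, mul_comm, ← smul_eq_mul, ← Finset.sum_const]
    refine Finset.sum_le_sum fun u _ => ?_
    split_ifs <;> omega
  have hsum' : 2 * (U.card : ℝ) ≤ ∑ u ∈ U, ∑ c, (w c u : ℝ) +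
      2 * ((U.filter fun u => ∑ c, w c u = 0).card : ℝ) +
      ((U.filter fun u => ∑ c, w c u = 1).card : ℝ) := by
    exact_mod_cast hsum
  have hZ0' : ((U.filter fun u => ∑ c, w c u = 0).card : ℝ) ≤ 1 := by exact_mod_cast hZ0
  linarith

end PFU
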