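import Pool.Agent.LibPFU75.T02
import Pool.Agent.LibPFU75.T04

/-! For each colour `c` take `F c`, `w c` from `koenig` (relation `EE χ {c}`, set `U`).  By
`cover_sum` with `z = max 1 X ≤ 1 + X` (`clique_le`), `2|U| - 3 - X ≤ ∑_c ∑_{u∈U} w c u = ∑_c |F c|`;
choose `c` with `|F c|` maximal. -/
namespace PFU
open Finset
open scoped Classical

theorem greedy_step {V C : Type} [Fintype C] (χ : V → V → C) (hχ : ∀ u v, χ u v = χ v u)
    (s : ℕ) (hs : 1 ≤ s) (X : ℝ) (hX : 0 ≤ X) (h : HH χ s X) (hC : 0 < Fintype.card C)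
    (U : Finset V) :
    ∃ (c : C) (F : Finset (V × V)), ArcsR (EE χ {c}) U F ∧
      2 * (U.card : ℝ) - 3 - X ≤ (Fintype.card C : ℝ) * (F.card : ℝ) := by
  choose F w hF hw _hw2 hsum using fun c : C =>
    koenig (EE χ {c}) (fun u v h => EE_symm χ hχ {c} u v h) U
  have h1 := cover_sum χ hχ U w hw (max 1 X) (le_max_left _ _)
    (fun c Z _ hZ => clique_le χ s hs X h c Z hZ)
  rw [Finset.sum_comm] at h1
  have h2 : ∀ c : C, ∑ u ∈ U, (w c u : ℝ) = ((F c).card : ℝ) := by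
    intro c
    rw [← hsum c]
    push_cast
    rfl
  simp only [h2] at h1
  have h3 : max 1 X ≤ 1 + X := max_le (by linarith) (by linarith)
  obtain ⟨c₀⟩ : Nonempty C := Fintype.card_pos_iff.1 hC
  obtain ⟨c, -, hc⟩ := Finset.exists_max_image (Finset.univ : Finset C) (fun c => (F c).card)
    ⟨c₀, Finset.mem_univ _⟩
  refine ⟨c, F c, hF c, ?_⟩
  have h4 : ∑ d : C, ((F d).card : ℝ) ≤ (Fintype.card C : ℝ) * ((F c).card : ℝ) := by
    have h5 : ∑ d : C, ((F d).card : ℝ) ≤ ∑ _d : C, ((F c).card : ℝ) :=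
      Finset.sum_le_sum fun d _ => by exact_mod_cast hc d (Finset.mem_univ _)
    rw [Finset.sum_const, Finset.card_univ, nsmul_eq_mul] at h5
    exact h5
  linarith

end PFU
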