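import Pool.Agent.LibPFU75.T05

/-! Induction on `k`.  If `|F| ≥ Y` keep `S, F`.  Otherwise apply `greedy_step` to
`U' = U \ tch F`, `|U'| ≥ |U| - 2|F| ≥ |U| - 2Y`, and take `S ∪ {c}`, `F ∪ F'` (`arcs_union`):
`|F'| ≥ (2|U'| - 3 - X)/t ≥ (2|U| - 4Y - 3 - X)/t =: g` and `|F| ≥ min Y (k g)` (as `|F| < Y`,
`|F| ≥ k g`). -/
namespace PFU
open Finset
open scoped Classical

theorem greedy {V C : Type} [Fintype C] (χ : V → V → C) (hχ : ∀ u v, χ u v = χ v u)
    (s : ℕ) (hs : 1 ≤ s) (X : ℝ) (hX : 0 ≤ X) (h : HH χ s X) (hC : 0 < Fintype.card C)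
    (U : Finset V) (Y : ℝ) (hY : 0 ≤ Y) (k : ℕ) :
    ∃ (S : Finset C) (F : Finset (V × V)), S.card ≤ k ∧ ArcsR (EE χ S) U F ∧
      min Y (k * ((2 * (U.card : ℝ) - 4 * Y - 3 - X) / Fintype.card C)) ≤ (F.card : ℝ) := by
  have ht : (0 : ℝ) < Fintype.card C := by exact_mod_cast hC
  induction k with
  | zero =>
    refine ⟨∅, ∅, by simp, ⟨?_, ?_, ?_, ?_, ?_⟩, ?_⟩
    · simp
    · simp
    · simp
    · simp
    · simp
    · simp
  | succ k ih =>
    obtain ⟨S, F, hS, hF, hb⟩ := ih
    by_cases hY' : Y ≤ (F.card : ℝ)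
    · exact ⟨S, F, by omega, hF, le_trans (min_le_left _ _) hY'⟩
    · push Not at hY'
      have hkg : k * ((2 * (U.card : ℝ) - 4 * Y - 3 - X) / Fintype.card C) ≤ (F.card : ℝ) := by
        rcases min_le_iff.mp hb with h1 | h1
        · linarith
        · exact h1
      obtain ⟨c, F', hF', hc⟩ := greedy_step χ hχ s hs X hX h hC (U \ tch F)
      have hd1 : ∀ e ∈ F, ∀ f ∈ F', e.1 ≠ f.1 := by
        intro e he f hf h1
        have h2 := hF'.fst f hf
        rw [← h1, Finset.mem_sdiff] at h2
        exact h2.2 (fst_mem_tch he)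
      have hd2 : ∀ e ∈ F, ∀ f ∈ F', e.2 ≠ f.2 := by
        intro e he f hf h1
        have h2 := hF'.snd f hf
        rw [← h1, Finset.mem_sdiff] at h2
        exact h2.2 (snd_mem_tch he)
      obtain ⟨hu, hcard⟩ := arcs_union hF hF' hd1 hd2
      refine ⟨S ∪ {c}, F ∪ F', ?_, ?_, ?_⟩
      · calc (S ∪ {c}).card ≤ S.card + ({c} : Finset C).card := Finset.card_union_le _ _
          _ ≤ k + 1 := by simp only [Finset.card_singleton]; omega
      · refine arcs_mono ?_ ?_ hu
        · intro u v huv
          rcases huv with h1 | h1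
          · exact EE_mono χ Finset.subset_union_left u v h1
          · exact EE_mono χ Finset.subset_union_right u v h1
        · exact Finset.union_subset (Finset.Subset.refl _) Finset.sdiff_subset
      · refine le_trans (min_le_right _ _) ?_
        rw [hcard]
        have h1 : U.card ≤ (U \ tch F).card + (tch F).card := by
          have := Finset.le_card_sdiff (tch F) U
          omega
        have h2 := tch_card F
        have h3 : (U.card : ℝ) ≤ ((U \ tch F).card : ℝ) + 2 * (F.card : ℝ) := by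
          have : U.card ≤ (U \ tch F).card + 2 * F.card := by omega
          exact_mod_cast this
        have h4 : (2 * (U.card : ℝ) - 4 * Y - 3 - X) / Fintype.card C ≤ (F'.card : ℝ) := by
          rw [div_le_iff₀ ht]
          nlinarith
        push_cast
        rw [add_mul, one_mul]
        linarith

end PFU
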