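import Pool.Agent.LibPFU75.T03

/-! Let `P j` be: there are `S D F` with `|S| ≤ 2 j`, `Lkd (EE χ S) D`, `ArcsR (EE χ S) D F`,
`j κ ≤ |F|`.  `P 0` holds (empty).  `P r` fails by `HH_arcs` (`|F| ≤ X < r κ`, `2 r ≤ s`).  So there
is `j < r` with `P j` and not `P (j+1)`.  Let `V1 = univ \ tch F`; `|tch F| ≤ 2|F| ≤ 2 X`
(`HH_arcs`).  If a colour `c`, a linked set `D' ⊆ V1` and arcs `F'` of colour `c` in `D'`
with `κ ≤ |F'|` existed, then `link_union` gives a colour `c'` such that `S ∪ {c} ∪ {c'}`
(at most `2j+2` colours) links `D ∪ D'`, and `F ∪ F'` (`arcs_union`; the arcs of `F'` do not touch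
`tch F`) has at least `(j+1) κ` arcs: `P (j+1)`. -/
namespace PFU
open Finset
open scoped Classical

theorem removal {V C : Type} [Fintype V] (χ : V → V → C) (hχ : ∀ u v, χ u v = χ v u)
    (s : ℕ) (X κ : ℝ) (hX : 0 ≤ X) (hκ : 0 < κ) (h : HH χ s X) (r : ℕ) (hr : X < r * κ)
    (hrs : 2 * r ≤ s) :
    ∃ V1 : Finset V, (Fintype.card V : ℝ) - 2 * X ≤ (V1.card : ℝ) ∧ SmallMono χ V1 κ := by
  by_contra hcon
  push Not at hcon
  have hP : ∀ j : ℕ, j ≤ r → ∃ (S : Finset C) (D : Finset V) (F : Finset (V × V)),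
      S.card ≤ 2 * j ∧ Lkd (EE χ S) D ∧ ArcsR (EE χ S) D F ∧ (j : ℝ) * κ ≤ (F.card : ℝ) := by
    intro j
    induction j with
    | zero =>
      intro _
      refine ⟨∅, ∅, ∅, by simp, ?_, ⟨?_, ?_, ?_, ?_, ?_⟩, by simp⟩ <;> intro e he <;> simp at he
    | succ j ih =>
      intro hj
      obtain ⟨S, D, F, hS, hD, hF, hFc⟩ := ih (by omega)
      have hFX : (F.card : ℝ) ≤ X := HH_arcs χ s X h S (by omega) D hD F hF
      have htch := tch_card F
      have hV1 : (Fintype.card V : ℝ) - 2 * X ≤ ((univ \ tch F).card : ℝ) := by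
        have h1 := Finset.card_sdiff_add_card_eq_card (Finset.subset_univ (tch F))
        rw [Finset.card_univ] at h1
        have h2 : ((univ \ tch F).card : ℝ) + ((tch F).card : ℝ) = (Fintype.card V : ℝ) := by
          exact_mod_cast h1
        have h3 : ((tch F).card : ℝ) ≤ 2 * (F.card : ℝ) := by exact_mod_cast htch
        linarith
      have hno := hcon _ hV1
      unfold SmallMono at hno
      push Not at hno
      obtain ⟨c, D', hD'V, hD', F', hF', hF'c⟩ := hno
      obtain ⟨c', hlk⟩ := link_union χ hχ S {c} D D' hD hD' c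
      have hout : ∀ x ∈ D', x ∉ tch F := fun x hx => (Finset.mem_sdiff.1 (hD'V hx)).2
      obtain ⟨hU, hUc⟩ := arcs_union hF hF'
        (fun e he f hf hef => hout f.1 (hF'.fst f hf) (hef ▸ fst_mem_tch he))
        (fun e he f hf hef => hout f.2 (hF'.snd f hf) (hef ▸ snd_mem_tch he))
      refine ⟨S ∪ {c} ∪ {c'}, D ∪ D', F ∪ F', ?_, hlk, ?_, ?_⟩
      · have h1 := Finset.card_union_le (S ∪ {c}) {c'}
        have h2 := Finset.card_union_le S {c}
        rw [Finset.card_singleton] at h1 h2
        omega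
      · refine arcs_mono ?_ (Finset.Subset.refl _) hU
        intro u v huv
        rcases huv with huv | huv
        · refine EE_mono χ ?_ u v huv
          exact Finset.subset_union_left.trans Finset.subset_union_left
        · refine EE_mono χ ?_ u v huv
          exact Finset.subset_union_right.trans Finset.subset_union_left
      · rw [hUc]
        push_cast
        linarith
  obtain ⟨S, D, F, hS, hD, hF, hFc⟩ := hP r le_rfl
  have hFX : (F.card : ℝ) ≤ X := HH_arcs χ s X h S (by omega) D hD F hF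
  linarith

end PFU
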