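import Pool.Agent.LibPFU75.T02

/-! Let `D = {v ∈ V1 : ReflTransGen (EE χ {c}) u v}`; it is linked (symmetry), so by `koenig`
(relation `EE χ {c}` on `D`) and `SmallMono` there is `w` with `∑_{D} w = |F| < κ`, covering the
pairs of `D` of colour `c`.  If `χ u v = c`, `v ≠ u`, `v ∈ V1` then `v ∈ D`, and all the neighbours
of `v` in `V1` in colour `c` are in `D`.  If `h ≤ dgc χ V1 c v` then `w v ≥ 1`: otherwise all these
neighbours have `w ≥ 2` and `∑ w ≥ 2 h ≥ κ`.  So the number of such `v` is `≤ ∑ w ≤ κ`. -/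
namespace PFU
open Finset
open scoped Classical

theorem heavy_count {V C : Type} (χ : V → V → C) (hχ : ∀ u v, χ u v = χ v u) (V1 : Finset V)
    (κ h : ℝ) (hV1 : SmallMono χ V1 κ) (hκ : κ ≤ 2 * h) (u : V) (hu : u ∈ V1) (c : C) :
    ((V1.filter (fun v => v ≠ u ∧ χ u v = c ∧ h ≤ (dgc χ V1 c v : ℝ))).card : ℝ) ≤ κ := by
  set D : Finset V := V1.filter (fun v => Relation.ReflTransGen (EE χ {c}) u v) with hD
  have hE : ∀ a b, EE χ {c} a b → EE χ {c} b a := fun a b => EE_symm χ hχ {c} a b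
  have hDV : D ⊆ V1 := filter_subset _ _
  have hL : Lkd (EE χ {c}) D := by
    intro a ha b hb
    exact (rtg_symm hE (mem_filter.1 ha).2).trans (mem_filter.1 hb).2
  obtain ⟨F, w, hF, hw, -, hs⟩ := koenig (EE χ {c}) hE D
  have hFκ : (F.card : ℝ) < κ := hV1 c D hDV hL F hF
  have hsub : (V1.filter (fun v => v ≠ u ∧ χ u v = c ∧ h ≤ (dgc χ V1 c v : ℝ))) ⊆ D := by
    intro v hv
    rw [mem_filter] at hv
    obtain ⟨hv1, hvu, hc, -⟩ := hv
    exact mem_filter.2 ⟨hv1, Relation.ReflTransGen.single ⟨hvu.symm, by simp [hc]⟩⟩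
  have hone : ∀ v ∈ V1.filter (fun v => v ≠ u ∧ χ u v = c ∧ h ≤ (dgc χ V1 c v : ℝ)),
      1 ≤ w v := by
    intro v hv
    have hvD : v ∈ D := hsub hv
    rw [mem_filter] at hv
    obtain ⟨hv1, hvu, hc, hdeg⟩ := hv
    by_contra hw0
    have hw0 : w v = 0 := by omega
    have hN : (V1.filter (fun z => z ≠ v ∧ χ v z = c)) ⊆ D := by
      intro z hz
      rw [mem_filter] at hz
      obtain ⟨hz1, hzv, hzc⟩ := hz
      exact mem_filter.2 ⟨hz1, (mem_filter.1 hvD).2.tail ⟨hzv.symm, by simp [hzc]⟩⟩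
    have h2 : ∀ z ∈ V1.filter (fun z => z ≠ v ∧ χ v z = c), 2 ≤ w z := by
      intro z hz
      have hzD := hN hz
      rw [mem_filter] at hz
      obtain ⟨hz1, hzv, hzc⟩ := hz
      have := hw v hvD z hzD ⟨hzv.symm, by simp [hzc]⟩
      omega
    have h3 : (V1.filter (fun z => z ≠ v ∧ χ v z = c)).card • 2 ≤
        ∑ z ∈ V1.filter (fun z => z ≠ v ∧ χ v z = c), w z :=
      card_nsmul_le_sum _ _ _ h2
    have h4 : ∑ z ∈ V1.filter (fun z => z ≠ v ∧ χ v z = c), w z ≤ ∑ z ∈ D, w z :=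
      sum_le_sum_of_subset hN
    have h5 : dgc χ V1 c v * 2 ≤ F.card := by
      rw [← hs]
      exact le_trans h3 h4
    have h6 : ((dgc χ V1 c v : ℕ) : ℝ) * 2 ≤ (F.card : ℝ) := by exact_mod_cast h5
    linarith
  have h7 : (V1.filter (fun v => v ≠ u ∧ χ u v = c ∧ h ≤ (dgc χ V1 c v : ℝ))).card • 1 ≤
      ∑ v ∈ V1.filter (fun v => v ≠ u ∧ χ u v = c ∧ h ≤ (dgc χ V1 c v : ℝ)), w v :=
    card_nsmul_le_sum _ _ _ hone
  have h8 : (V1.filter (fun v => v ≠ u ∧ χ u v = c ∧ h ≤ (dgc χ V1 c v : ℝ))).card ≤ F.card := by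
    rw [← hs]
    refine le_trans ?_ (sum_le_sum_of_subset hsub)
    simpa using h7
  have h9 : ((V1.filter (fun v => v ≠ u ∧ χ u v = c ∧ h ≤ (dgc χ V1 c v : ℝ))).card : ℝ) ≤
      (F.card : ℝ) := by exact_mod_cast h8
  linarith

end PFU
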