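import Pool.Agent.LibPFU75.T08

/-! For fixed `u ∈ V1` let `n_u` be the number of colours `c` with `h ≤ dgc χ V1 c u`;
`n_u h ≤ ∑_c dgc χ V1 c u ≤ |V1|`.  By `heavy_count` the number of `v` with `(u,v)` in the set is at
most `n_u κ` (and `0 < κ` from `hV1` with `D = F = ∅`, if there is a colour).  So
`(number of pairs) h ≤ ∑_u n_u h κ ≤ κ |V1|^2`. -/
namespace PFU
open Finset
open scoped Classical

theorem t09_one {V C : Type} [Fintype C] (χ : V → V → C) (hχ : ∀ u v, χ u v = χ v u)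
    (V1 : Finset V) (κ h : ℝ) (hh : 0 < h) (hκ0 : 0 ≤ κ) (hV1 : SmallMono χ V1 κ)
    (hκ : κ ≤ 2 * h) (u : V) (hu : u ∈ V1) :
    ((V1.filter (fun v => u ≠ v ∧ ¬ Lt χ V1 h u v ∧ ¬ Lt χ V1 h v u)).card : ℝ) * h ≤
      κ * V1.card := by
  set Nu : Finset C := univ.filter (fun c => h ≤ (dgc χ V1 c u : ℝ)) with hNu
  have h1 : V1.filter (fun v => u ≠ v ∧ ¬ Lt χ V1 h u v ∧ ¬ Lt χ V1 h v u) ⊆
      Nu.biUnion (fun c => V1.filter (fun v => v ≠ u ∧ χ u v = c ∧ h ≤ (dgc χ V1 c v : ℝ))) := by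
    intro v hv
    obtain ⟨hv1, hv2, hv3, hv4⟩ := Finset.mem_filter.1 hv
    rw [Lt, not_lt] at hv3 hv4
    rw [Finset.mem_biUnion]
    refine ⟨χ u v, ?_, ?_⟩
    · rw [hNu, Finset.mem_filter]
      exact ⟨Finset.mem_univ _, hv3⟩
    · rw [Finset.mem_filter]
      refine ⟨hv1, fun h => hv2 h.symm, rfl, ?_⟩
      rw [hχ u v]
      exact hv4
  have h2 : ((V1.filter (fun v => u ≠ v ∧ ¬ Lt χ V1 h u v ∧ ¬ Lt χ V1 h v u)).card : ℝ) ≤
      Nu.card * κ := by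
    calc ((V1.filter (fun v => u ≠ v ∧ ¬ Lt χ V1 h u v ∧ ¬ Lt χ V1 h v u)).card : ℝ)
        ≤ ((Nu.biUnion (fun c => V1.filter
            (fun v => v ≠ u ∧ χ u v = c ∧ h ≤ (dgc χ V1 c v : ℝ)))).card : ℝ) := by
          exact_mod_cast Finset.card_le_card h1
      _ ≤ ((∑ c ∈ Nu, (V1.filter
            (fun v => v ≠ u ∧ χ u v = c ∧ h ≤ (dgc χ V1 c v : ℝ))).card : ℕ) : ℝ) := by
          exact_mod_cast Finset.card_biUnion_le
      _ = ∑ c ∈ Nu, ((V1.filter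
            (fun v => v ≠ u ∧ χ u v = c ∧ h ≤ (dgc χ V1 c v : ℝ))).card : ℝ) := by
          rw [Nat.cast_sum]
      _ ≤ ∑ c ∈ Nu, κ := Finset.sum_le_sum (fun c _ => heavy_count χ hχ V1 κ h hV1 hκ u hu c)
      _ = Nu.card * κ := by rw [Finset.sum_const, nsmul_eq_mul]
  have h3 : (Nu.card : ℝ) * h ≤ V1.card := by
    have h4 : ∑ c : C, dgc χ V1 c u ≤ V1.card := by
      have h5 : ∑ c : C, dgc χ V1 c u = ∑ c : C, ((V1.filter (fun v => v ≠ u)).filter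
          (fun v => χ u v = c)).card := by
        refine Finset.sum_congr rfl fun c _ => ?_
        rw [dgc, Finset.filter_filter]
      rw [h5, ← Finset.card_eq_sum_card_fiberwise (f := fun v => χ u v)
        (fun v _ => Finset.mem_univ _)]
      exact Finset.card_filter_le _ _
    calc (Nu.card : ℝ) * h = ∑ c ∈ Nu, h := by rw [Finset.sum_const, nsmul_eq_mul]
      _ ≤ ∑ c ∈ Nu, (dgc χ V1 c u : ℝ) := Finset.sum_le_sum (fun c hc => by
          rw [hNu, Finset.mem_filter] at hc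
          exact hc.2)
      _ ≤ ∑ c : C, (dgc χ V1 c u : ℝ) := Finset.sum_le_sum_of_subset_of_nonneg
          (Finset.subset_univ _) (fun _ _ _ => Nat.cast_nonneg _)
      _ = ((∑ c : C, dgc χ V1 c u : ℕ) : ℝ) := by rw [Nat.cast_sum]
      _ ≤ V1.card := by exact_mod_cast h4
  calc ((V1.filter (fun v => u ≠ v ∧ ¬ Lt χ V1 h u v ∧ ¬ Lt χ V1 h v u)).card : ℝ) * h
      ≤ (Nu.card * κ) * h := by gcongr
    _ = κ * (Nu.card * h) := by ring
    _ ≤ κ * V1.card := by gcongr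

theorem clumped_total {V C : Type} [Fintype C] (χ : V → V → C) (hχ : ∀ u v, χ u v = χ v u)
    (V1 : Finset V) (κ h : ℝ) (hh : 0 < h) (hκ0 : 0 ≤ κ) (hV1 : SmallMono χ V1 κ)
    (hκ : κ ≤ 2 * h) :
    (((V1 ×ˢ V1).filter (fun p : V × V => p.1 ≠ p.2 ∧ ¬ Lt χ V1 h p.1 p.2 ∧
      ¬ Lt χ V1 h p.2 p.1)).card : ℝ) * h ≤ κ * (V1.card : ℝ) ^ 2 := by
  have h1 : ((V1 ×ˢ V1).filter (fun p : V × V => p.1 ≠ p.2 ∧ ¬ Lt χ V1 h p.1 p.2 ∧
      ¬ Lt χ V1 h p.2 p.1)).card =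
      ∑ u ∈ V1, (V1.filter (fun v => u ≠ v ∧ ¬ Lt χ V1 h u v ∧ ¬ Lt χ V1 h v u)).card := by
    rw [Finset.card_filter, Finset.sum_product]
    refine Finset.sum_congr rfl fun u _ => ?_
    rw [Finset.card_filter]
  rw [h1, Nat.cast_sum, Finset.sum_mul]
  calc ∑ u ∈ V1, ((V1.filter (fun v => u ≠ v ∧ ¬ Lt χ V1 h u v ∧
        ¬ Lt χ V1 h v u)).card : ℝ) * h
      ≤ ∑ u ∈ V1, κ * (V1.card : ℝ) :=
        Finset.sum_le_sum fun u hu => t09_one χ hχ V1 κ h hh hκ0 hV1 hκ u hu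
    _ = κ * (V1.card : ℝ) ^ 2 := by
        rw [Finset.sum_const, nsmul_eq_mul]
        ring

end PFU
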