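import Pool.Agent.LibPFU75.Defs

/-! Let `H` be the set on the left.  The ordered pairs `(v,u)` of distinct elements of `H`,
`|H| (|H| - 1)` many, are of three kinds: `L v u` (at most `a N |H|`), `L u v` (at most `a N |H|`),
neither (at most `lam N^2`).  If `|H| > 4 a N` then
`|H| (|H| - 1 - 2 a N) > 4 a N (2 a N - 1) ≥ 4 a^2 N^2 ≥ lam N^2`, using `1 ≤ a N`. -/
namespace PFU
open Finset
open scoped Classical

theorem t10_aux {V : Type} (V1 H : Finset V) (L : V → V → Prop) (y : ℝ) (hH : H ⊆ V1)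
    (hv : ∀ v ∈ H, ((V1.filter (fun u => u ≠ v ∧ L v u)).card : ℝ) ≤ y) :
    ((H.offDiag.filter (fun p => L p.1 p.2)).card : ℝ) ≤ H.card * y := by
  have h1 := Finset.card_eq_sum_card_fiberwise (f := Prod.fst)
    (s := H.offDiag.filter (fun p => L p.1 p.2)) (t := H) (by
      intro p hp
      have hp' := Finset.mem_coe.1 hp
      rw [Finset.mem_filter, Finset.mem_offDiag] at hp'
      exact Finset.mem_coe.2 hp'.1.1)
  rw [h1]
  push_cast
  have h2 : ∀ v ∈ H, (((H.offDiag.filter (fun p => L p.1 p.2)).filter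
      (fun p => p.1 = v)).card : ℝ) ≤ y := by
    intro v hvH
    refine le_trans ?_ (hv v hvH)
    have h3 : ((H.offDiag.filter (fun p => L p.1 p.2)).filter (fun p => p.1 = v)).card ≤
        (V1.filter (fun u => u ≠ v ∧ L v u)).card := by
      apply Finset.card_le_card_of_injOn Prod.snd
      · intro p hp
        have hp' := Finset.mem_coe.1 hp
        rw [Finset.mem_filter, Finset.mem_filter, Finset.mem_offDiag] at hp'
        obtain ⟨⟨⟨ha, hb, hc⟩, hd⟩, he⟩ := hp'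
        apply Finset.mem_coe.2
        rw [Finset.mem_filter]
        subst he
        exact ⟨hH hb, fun h => hc h.symm, hd⟩
      · intro p hp q hq hpq
        have hp' := Finset.mem_coe.1 hp
        have hq' := Finset.mem_coe.1 hq
        rw [Finset.mem_filter] at hp' hq'
        exact Prod.ext (hp'.2.trans hq'.2.symm) hpq
    exact_mod_cast h3
  calc (∑ v ∈ H, (((H.offDiag.filter (fun p => L p.1 p.2)).filter
      (fun p => p.1 = v)).card : ℝ)) ≤ ∑ _v ∈ H, y := Finset.sum_le_sum h2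
    _ = H.card * y := by rw [Finset.sum_const, nsmul_eq_mul]

theorem t10_swap {V : Type} (H : Finset V) (L : V → V → Prop) :
    (H.offDiag.filter (fun p => L p.2 p.1)).card ≤
      (H.offDiag.filter (fun p => L p.1 p.2)).card := by
  apply Finset.card_le_card_of_injOn Prod.swap
  · intro p hp
    have hp' := Finset.mem_coe.1 hp
    rw [Finset.mem_filter, Finset.mem_offDiag] at hp'
    obtain ⟨⟨ha, hb, hc⟩, hd⟩ := hp'
    apply Finset.mem_coe.2
    rw [Finset.mem_filter, Finset.mem_offDiag]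
    exact ⟨⟨hb, ha, fun h => hc h.symm⟩, hd⟩
  · intro p _ q _ hpq
    exact Prod.swap_injective hpq

theorem few_clumpy {V : Type} (V1 : Finset V) (L : V → V → Prop) (N a lam : ℝ) (ha : 0 < a)
    (haN : 1 ≤ a * N) (hlam : lam ≤ 4 * a ^ 2)
    (hcl : (((V1 ×ˢ V1).filter (fun p : V × V => p.1 ≠ p.2 ∧ ¬ L p.1 p.2 ∧
      ¬ L p.2 p.1)).card : ℝ) ≤ lam * N ^ 2) :
    ((V1.filter (fun v => ((V1.filter (fun u => u ≠ v ∧ L v u)).card : ℝ) < a * N)).card : ℝ)
      ≤ 4 * a * N := by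
  obtain ⟨H, hHdef⟩ : ∃ H, H = V1.filter (fun v =>
    ((V1.filter (fun u => u ≠ v ∧ L v u)).card : ℝ) < a * N) := ⟨_, rfl⟩
  rw [← hHdef]
  by_contra hcon
  rw [not_le] at hcon
  have hsub : H ⊆ V1 := by rw [hHdef]; exact Finset.filter_subset _ _
  have hv : ∀ v ∈ H, ((V1.filter (fun u => u ≠ v ∧ L v u)).card : ℝ) ≤ a * N := by
    intro v hv
    rw [hHdef, Finset.mem_filter] at hv
    exact hv.2.le
  have h1 := t10_aux V1 H L (a * N) hsub hv
  have h2 : ((H.offDiag.filter (fun p => L p.2 p.1)).card : ℝ) ≤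
      ((H.offDiag.filter (fun p => L p.1 p.2)).card : ℝ) := by exact_mod_cast t10_swap H L
  have h3 : ((H.offDiag.filter (fun p => ¬ L p.1 p.2 ∧ ¬ L p.2 p.1)).card : ℝ) ≤ lam * N ^ 2 := by
    refine le_trans ?_ hcl
    have : (H.offDiag.filter (fun p => ¬ L p.1 p.2 ∧ ¬ L p.2 p.1)) ⊆
        ((V1 ×ˢ V1).filter (fun p : V × V => p.1 ≠ p.2 ∧ ¬ L p.1 p.2 ∧ ¬ L p.2 p.1)) := by
      intro p hp
      rw [Finset.mem_filter, Finset.mem_offDiag] at hp
      rw [Finset.mem_filter, Finset.mem_product]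
      exact ⟨⟨hsub hp.1.1, hsub hp.1.2.1⟩, hp.1.2.2, hp.2.1, hp.2.2⟩
    exact_mod_cast Finset.card_le_card this
  have h4 : H.offDiag ⊆ (H.offDiag.filter (fun p => L p.1 p.2)) ∪
      ((H.offDiag.filter (fun p => L p.2 p.1)) ∪
        (H.offDiag.filter (fun p => ¬ L p.1 p.2 ∧ ¬ L p.2 p.1))) := by
    intro p hp
    rw [Finset.mem_union, Finset.mem_union, Finset.mem_filter, Finset.mem_filter, Finset.mem_filter]
    by_cases hA : L p.1 p.2
    · exact Or.inl ⟨hp, hA⟩
    · by_cases hB : L p.2 p.1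
      · exact Or.inr (Or.inl ⟨hp, hB⟩)
      · exact Or.inr (Or.inr ⟨hp, hA, hB⟩)
  have h5 : (H.offDiag.card : ℝ) ≤ ((H.offDiag.filter (fun p => L p.1 p.2)).card : ℝ) +
      (((H.offDiag.filter (fun p => L p.2 p.1)).card : ℝ) +
        ((H.offDiag.filter (fun p => ¬ L p.1 p.2 ∧ ¬ L p.2 p.1)).card : ℝ)) := by
    have h6 := Finset.card_le_card h4
    have h7 := Finset.card_union_le (H.offDiag.filter (fun p => L p.1 p.2))
      ((H.offDiag.filter (fun p => L p.2 p.1)) ∪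
        (H.offDiag.filter (fun p => ¬ L p.1 p.2 ∧ ¬ L p.2 p.1)))
    have h8 := Finset.card_union_le (H.offDiag.filter (fun p => L p.2 p.1))
        (H.offDiag.filter (fun p => ¬ L p.1 p.2 ∧ ¬ L p.2 p.1))
    have h9 := h6.trans (h7.trans (Nat.add_le_add_left h8 _))
    exact_mod_cast h9
  have h10 : (H.offDiag.card : ℝ) = (H.card : ℝ) * H.card - H.card := by
    rw [Finset.offDiag_card, Nat.cast_sub (Nat.le_mul_self _), Nat.cast_mul]
  have h11 : lam * N ^ 2 ≤ 4 * (a * N) ^ 2 := by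
    have := mul_le_mul_of_nonneg_right hlam (sq_nonneg N)
    calc lam * N ^ 2 ≤ 4 * a ^ 2 * N ^ 2 := this
      _ = 4 * (a * N) ^ 2 := by ring
  obtain ⟨k, hk⟩ : ∃ k : ℝ, k = (H.card : ℝ) := ⟨_, rfl⟩
  obtain ⟨y, hy⟩ : ∃ y : ℝ, y = a * N := ⟨_, rfl⟩
  rw [← hk] at h10 h1 hcon
  rw [← hy] at h1 h11 haN
  have hcon' : 4 * y < k := by rw [hy]; linarith
  have h12 : k * k - k ≤ 2 * (k * y) + 4 * y ^ 2 := by linarith
  have h13 : 0 ≤ y * (y - 1) := mul_nonneg (by linarith) (by linarith)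
  have h14 : 0 < (k - 4 * y) * (6 * y - 1) := mul_pos (by linarith) (by linarith)
  have h15 : 0 < (k - 4 * y) * (k - 4 * y) := mul_pos (by linarith) (by linarith)
  have h16 : k * k - k - 2 * (k * y) - 4 * y ^ 2 =
      4 * (y * (y - 1)) + (k - 4 * y) * (6 * y - 1) + (k - 4 * y) * (k - 4 * y) := by ring
  linarith

end PFU
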