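import Pool.Agent.LibPFU75.Defs

/-! Second moment for a uniformly random labelling `ω : C → Fin M`, `X ω = ∑_{c : ω c = 0} g c`:
the mean is `μ = (∑ g)/M`, `∑_ω (X ω - μ)^2 = M^|C| ∑_c g c^2 (1/M - 1/M^2) ≤ M^|C| (∑_c g c^2)/M`.
(Possibly useful: `PF61.cheb_low`, `PF61.var_bound` in `Pool/Agent/LibPF61/T01.lean, T02.lean`.) -/
namespace PFU
open Finset
open scoped Classical

theorem t11_split {C : Type} [Fintype C] (M : ℕ) (c : C) (F : Fin M → ℝ)
    (G : ({j : C // j ≠ c} → Fin M) → ℝ) :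
    ∑ ω : C → Fin M, F (ω c) * G (fun j => ω j) = (∑ x, F x) * ∑ ρ, G ρ := by
  rw [Finset.sum_mul_sum, ← Fintype.sum_prod_type']
  exact Fintype.sum_equiv (Equiv.funSplitAt c (Fin M)) _ (fun p => F p.1 * G p.2)
    (fun ω => rfl)

theorem t11_sum1 (M : ℕ) (hM : 0 < M) :
    ∑ x : Fin M, ((if (x : ℕ) = 0 then (1 : ℝ) else 0) - 1 / M) = 0 := by
  rw [Finset.sum_sub_distrib]
  have hM' : (M : ℝ) ≠ 0 := by exact_mod_cast hM.ne'
  have h1 : ∑ x : Fin M, (if (x : ℕ) = 0 then (1 : ℝ) else 0) = 1 := by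
    rw [Finset.sum_eq_single (⟨0, hM⟩ : Fin M)]
    · simp
    · intro b _ hb
      rw [if_neg]
      intro h
      exact hb (Fin.ext h)
    · intro h
      exact absurd (Finset.mem_univ _) h
  rw [h1, Finset.sum_const, Finset.card_univ, Fintype.card_fin, nsmul_eq_mul]
  field_simp
  ring

theorem t11_sum2 (M : ℕ) (hM : 0 < M) :
    ∑ x : Fin M, ((if (x : ℕ) = 0 then (1 : ℝ) else 0) - 1 / M) ^ 2 ≤ 1 := by
  have hM' : (M : ℝ) ≠ 0 := by exact_mod_cast hM.ne'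
  have hM0 : (0 : ℝ) < (M : ℝ) := by exact_mod_cast hM
  have h0 := t11_sum1 M hM
  have h1 : ∑ x : Fin M, (if (x : ℕ) = 0 then (1 : ℝ) else 0) = 1 := by
    rw [Finset.sum_eq_single (⟨0, hM⟩ : Fin M)]
    · simp
    · intro b _ hb
      rw [if_neg]
      intro h
      exact hb (Fin.ext h)
    · intro h
      exact absurd (Finset.mem_univ _) h
  have h2 : ∀ x : Fin M, ((if (x : ℕ) = 0 then (1 : ℝ) else 0) - 1 / M) ^ 2 =
      (if (x : ℕ) = 0 then (1 : ℝ) else 0)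
        - (1 / M) * (if (x : ℕ) = 0 then (1 : ℝ) else 0)
        - (1 / M) * ((if (x : ℕ) = 0 then (1 : ℝ) else 0) - 1 / M) := by
    intro x
    split_ifs <;> ring
  rw [Finset.sum_congr rfl (fun x _ => h2 x), Finset.sum_sub_distrib, Finset.sum_sub_distrib,
    ← Finset.mul_sum, ← Finset.mul_sum, h0, h1]
  have : 0 < 1 / (M : ℝ) := by positivity
  linarith

theorem var_label {C : Type} [Fintype C] (g : C → ℝ) (M : ℕ) (hM : 0 < M) :
    ∑ ω : C → Fin M, ((∑ c ∈ univ.filter (fun c => (ω c : ℕ) = 0), g c) - (∑ c, g c) / M) ^ 2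
      ≤ (M : ℝ) ^ Fintype.card C * ((∑ c, g c ^ 2) / M) := by
  obtain ⟨ξ, hξ⟩ : ∃ ξ : Fin M → ℝ, ξ = fun x : Fin M =>
    (if (x : ℕ) = 0 then (1 : ℝ) else 0) - 1 / M := ⟨_, rfl⟩
  have hM' : (M : ℝ) ≠ 0 := by exact_mod_cast hM.ne'
  have hM0 : (0 : ℝ) < (M : ℝ) := by exact_mod_cast hM
  have hs1 : ∑ x, ξ x = 0 := by rw [hξ]; exact t11_sum1 M hM
  have hs2 : ∑ x, ξ x ^ 2 ≤ 1 := by rw [hξ]; exact t11_sum2 M hM
  have h1 : ∀ ω : C → Fin M, ((∑ c ∈ univ.filter (fun c => (ω c : ℕ) = 0), g c) - (∑ c, g c) / M) ^ 2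
      = ∑ c, ∑ d, (g c * g d) * (ξ (ω c) * ξ (ω d)) := by
    intro ω
    have h2 : (∑ c ∈ univ.filter (fun c => (ω c : ℕ) = 0), g c) - (∑ c, g c) / M =
        ∑ c, g c * ξ (ω c) := by
      rw [Finset.sum_filter, Finset.sum_div, ← Finset.sum_sub_distrib]
      apply Finset.sum_congr rfl
      intro c _
      rw [hξ]
      simp only
      split_ifs <;> ring
    rw [h2, sq, Finset.sum_mul_sum]
    apply Finset.sum_congr rfl
    intro c _
    apply Finset.sum_congr rfl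
    intro d _
    ring
  rw [Finset.sum_congr rfl (fun ω _ => h1 ω), Finset.sum_comm]
  have h3 : ∀ c : C, ∑ ω : C → Fin M, ∑ d, (g c * g d) * (ξ (ω c) * ξ (ω d)) ≤
      g c ^ 2 * ((M : ℝ) ^ Fintype.card C / M) := by
    intro c
    rw [Finset.sum_comm, Finset.sum_eq_single c]
    · have h4 : ∑ ω : C → Fin M, (g c * g c) * (ξ (ω c) * ξ (ω c)) =
          g c ^ 2 * ((∑ x, ξ x ^ 2) * ∑ _ρ : ({j : C // j ≠ c} → Fin M), (1 : ℝ)) := by
        rw [← t11_split M c (fun x => ξ x ^ 2) (fun _ => 1), Finset.mul_sum]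
        apply Finset.sum_congr rfl
        intro ω _
        ring
      have h5 : (M : ℝ) ^ Fintype.card C =
          M * ∑ _ρ : ({j : C // j ≠ c} → Fin M), (1 : ℝ) := by
        have h6 := t11_split M c (fun _ => 1) (fun _ => 1)
        rw [Finset.sum_const, Finset.sum_const, Finset.card_univ, Finset.card_univ,
          Fintype.card_fun, Fintype.card_fin, nsmul_eq_mul, nsmul_eq_mul] at h6
        push_cast at h6
        linarith
      rw [h4, h5, mul_div_cancel_left₀ _ hM']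
      apply mul_le_mul_of_nonneg_left _ (sq_nonneg _)
      have h7 : (0 : ℝ) ≤ ∑ _ρ : ({j : C // j ≠ c} → Fin M), (1 : ℝ) :=
        Finset.sum_nonneg (fun _ _ => zero_le_one)
      calc (∑ x, ξ x ^ 2) * ∑ _ρ : ({j : C // j ≠ c} → Fin M), (1 : ℝ)
          ≤ 1 * ∑ _ρ : ({j : C // j ≠ c} → Fin M), (1 : ℝ) :=
            mul_le_mul_of_nonneg_right hs2 h7
        _ = _ := one_mul _
    · intro d _ hd
      have h8 : ∑ ω : C → Fin M, (g c * g d) * (ξ (ω c) * ξ (ω d)) =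
          (g c * g d) * ((∑ x, ξ x) * ∑ ρ : ({j : C // j ≠ c} → Fin M), ξ (ρ ⟨d, hd⟩)) := by
        rw [← t11_split M c ξ (fun ρ => ξ (ρ ⟨d, hd⟩)), Finset.mul_sum]
      rw [h8, hs1, zero_mul, mul_zero]
    · intro h
      exact absurd (Finset.mem_univ _) h
  calc ∑ c, ∑ ω : C → Fin M, ∑ d, (g c * g d) * (ξ (ω c) * ξ (ω d))
      ≤ ∑ c, g c ^ 2 * ((M : ℝ) ^ Fintype.card C / M) := Finset.sum_le_sum (fun c _ => h3 c)
    _ = (M : ℝ) ^ Fintype.card C * ((∑ c, g c ^ 2) / M) := by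
        rw [← Finset.sum_mul]
        ring

/-- Chebyshev -/
theorem cheb_label {C : Type} [Fintype C] (g : C → ℝ) (M : ℕ) (hM : 0 < M) (τ : ℝ) (hτ : 0 < τ) :
    (((univ : Finset (C → Fin M)).filter (fun ω =>
      τ ≤ |(∑ c ∈ univ.filter (fun c => (ω c : ℕ) = 0), g c) - (∑ c, g c) / M|)).card : ℝ) * τ ^ 2
      ≤ (M : ℝ) ^ Fintype.card C * ((∑ c, g c ^ 2) / M) := by
  refine le_trans ?_ (var_label g M hM)
  rw [← nsmul_eq_mul, ← Finset.sum_const]
  calc ∑ _ω ∈ (univ : Finset (C → Fin M)).filter (fun ω =>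
      τ ≤ |(∑ c ∈ univ.filter (fun c => (ω c : ℕ) = 0), g c) - (∑ c, g c) / M|), τ ^ 2
      ≤ ∑ ω ∈ (univ : Finset (C → Fin M)).filter (fun ω =>
      τ ≤ |(∑ c ∈ univ.filter (fun c => (ω c : ℕ) = 0), g c) - (∑ c, g c) / M|),
        ((∑ c ∈ univ.filter (fun c => (ω c : ℕ) = 0), g c) - (∑ c, g c) / M) ^ 2 := by
        apply Finset.sum_le_sum
        intro ω hω
        rw [Finset.mem_filter] at hω
        rw [← sq_abs ((∑ c ∈ univ.filter (fun c => (ω c : ℕ) = 0), g c) - (∑ c, g c) / M)]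
        exact pow_le_pow_left₀ hτ.le hω.2 2
    _ ≤ ∑ ω : C → Fin M,
        ((∑ c ∈ univ.filter (fun c => (ω c : ℕ) = 0), g c) - (∑ c, g c) / M) ^ 2 :=
        Finset.sum_le_sum_of_subset_of_nonneg (Finset.filter_subset _ _)
          (fun _ _ _ => sq_nonneg _)

end PFU
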