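import Pool.Agent.LibPFU75.T11

/-! Random `B = {c : ω c = 0}`, `ω : C → Fin M` uniform (`cheb_label`).  For `v ∈ T`, with
`μ = (∑_c g v c)/M ≥ A/M`: `∑_c (g v c)^2 / M ≤ h μ`, so `P(∑_{c∈B} g v c < A/(2M)) ≤
P(|X - μ| ≥ μ/2) ≤ 4 h/μ ≤ 4 h M/A`.  The expected number of bad `v` is at most `(4hM/A)|T|`, by
Markov it is `> (8hM/A)|T|` with probability at most `1/2`.  `|B|` (use `g = 1`) has mean `|C|/M`,
`P(|B| > 2|C|/M) ≤ M/|C| < 1/2`.  So some `ω` has both properties. -/
namespace PFU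
open Finset
open scoped Classical

theorem batch {V C : Type} [Fintype C] (T : Finset V) (g : V → C → ℝ) (h A : ℝ) (M : ℕ)
    (hM : 0 < M) (hh : 0 < h) (hA : 0 < A) (hg0 : ∀ v ∈ T, ∀ c, 0 ≤ g v c)
    (hgh : ∀ v ∈ T, ∀ c, g v c ≤ h) (hgA : ∀ v ∈ T, A ≤ ∑ c, g v c)
    (ht : 2 * M < Fintype.card C) :
    ∃ B : Finset C, (B.card : ℝ) ≤ 2 * Fintype.card C / M ∧
      ((T.filter (fun v => ∑ c ∈ B, g v c < A / (2 * M))).card : ℝ) ≤
        8 * h * M / A * T.card := by
  obtain ⟨n, hn⟩ : ∃ n : ℝ, n = (Fintype.card C : ℝ) := ⟨_, rfl⟩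
  obtain ⟨Ω, hΩ⟩ : ∃ Ω : ℝ, Ω = (M : ℝ) ^ Fintype.card C := ⟨_, rfl⟩
  have hM0 : (0 : ℝ) < (M : ℝ) := by exact_mod_cast hM
  have hΩ0 : 0 < Ω := by rw [hΩ]; positivity
  have hn2 : 2 * (M : ℝ) < n := by rw [hn]; exact_mod_cast ht
  have hn0 : 0 < n := by linarith
  have hcard : ((univ : Finset (C → Fin M)).card : ℝ) = Ω := by
    rw [Finset.card_univ, Fintype.card_fun, Fintype.card_fin, hΩ]
    push_cast
    rfl
  -- the number of labellings with a large class
  have hbig : (((univ : Finset (C → Fin M)).filter (fun ω =>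
      2 * n / M < ((univ.filter (fun c => (ω c : ℕ) = 0)).card : ℝ))).card : ℝ) * n ≤ Ω * M := by
    have h1 := cheb_label (fun _ : C => (1 : ℝ)) M hM (n / M) (by positivity)
    have h2 : ∑ _c : C, (1 : ℝ) = n := by
      rw [Finset.sum_const, Finset.card_univ, nsmul_eq_mul, mul_one, hn]
    have h2' : ∑ _c : C, (1 : ℝ) ^ 2 = n := by
      rw [one_pow, h2]
    rw [h2, h2', ← hΩ] at h1
    have h3 : ((univ : Finset (C → Fin M)).filter (fun ω =>
        2 * n / M < ((univ.filter (fun c => (ω c : ℕ) = 0)).card : ℝ))) ⊆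
        ((univ : Finset (C → Fin M)).filter (fun ω =>
          n / M ≤ |(∑ _c ∈ univ.filter (fun c => (ω c : ℕ) = 0), (1 : ℝ)) - n / M|)) := by
      intro ω hω
      rw [Finset.mem_filter] at hω ⊢
      refine ⟨hω.1, le_trans ?_ (le_abs_self _)⟩
      rw [Finset.sum_const, nsmul_eq_mul, mul_one]
      have h4 := hω.2
      have h5 : 2 * n / M = n / M + n / M := by ring
      linarith
    have h6 : (((univ : Finset (C → Fin M)).filter (fun ω =>
        2 * n / M < ((univ.filter (fun c => (ω c : ℕ) = 0)).card : ℝ))).card : ℝ) ≤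
        (((univ : Finset (C → Fin M)).filter (fun ω =>
          n / M ≤ |(∑ _c ∈ univ.filter (fun c => (ω c : ℕ) = 0), (1 : ℝ)) - n / M|)).card : ℝ) := by
      exact_mod_cast Finset.card_le_card h3
    have h7 := (mul_le_mul_of_nonneg_right h6 (sq_nonneg (n / M))).trans h1
    have h8 : (n / M) ^ 2 = n * (n / M ^ 2) := by ring
    have h9 : Ω * (n / M) = (Ω * M) * (n / M ^ 2) := by field_simp
    rw [h8, h9, ← mul_assoc] at h7
    exact le_of_mul_le_mul_right h7 (by positivity)
  -- one vertex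
  have hone : ∀ v ∈ T, (((univ : Finset (C → Fin M)).filter (fun ω =>
      ∑ c ∈ univ.filter (fun c => (ω c : ℕ) = 0), g v c < A / (2 * M))).card : ℝ) ≤
        4 * h * M / A * Ω := by
    intro v hv
    obtain ⟨σ, hσ⟩ : ∃ σ : ℝ, σ = ∑ c, g v c := ⟨_, rfl⟩
    have hσA : A ≤ σ := by rw [hσ]; exact hgA v hv
    have hσ0 : 0 < σ := lt_of_lt_of_le hA hσA
    have h1 := cheb_label (g v) M hM (σ / (2 * M)) (by positivity)
    rw [← hσ, ← hΩ] at h1
    have h2 : ∑ c, g v c ^ 2 ≤ h * σ := by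
      rw [hσ, Finset.mul_sum]
      apply Finset.sum_le_sum
      intro c _
      rw [sq]
      exact mul_le_mul_of_nonneg_right (hgh v hv c) (hg0 v hv c)
    have h3 : ((univ : Finset (C → Fin M)).filter (fun ω =>
        ∑ c ∈ univ.filter (fun c => (ω c : ℕ) = 0), g v c < A / (2 * M))) ⊆
        ((univ : Finset (C → Fin M)).filter (fun ω =>
          σ / (2 * M) ≤ |(∑ c ∈ univ.filter (fun c => (ω c : ℕ) = 0), g v c) - σ / M|)) := by
      intro ω hω
      rw [Finset.mem_filter] at hω ⊢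
      refine ⟨hω.1, le_trans ?_ (neg_le_abs _)⟩
      have h4 : A / (2 * M) ≤ σ / (2 * M) := div_le_div_of_nonneg_right hσA (by positivity)
      have h5 : σ / M = σ / (2 * M) + σ / (2 * M) := by field_simp; ring
      linarith [hω.2]
    have h6 : (((univ : Finset (C → Fin M)).filter (fun ω =>
        ∑ c ∈ univ.filter (fun c => (ω c : ℕ) = 0), g v c < A / (2 * M))).card : ℝ) ≤
        (((univ : Finset (C → Fin M)).filter (fun ω =>
          σ / (2 * M) ≤ |(∑ c ∈ univ.filter (fun c => (ω c : ℕ) = 0), g v c) - σ / M|)).card : ℝ) := by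
      exact_mod_cast Finset.card_le_card h3
    have h7 := (mul_le_mul_of_nonneg_right h6 (sq_nonneg (σ / (2 * M)))).trans h1
    have h8 : Ω * ((∑ c, g v c ^ 2) / M) ≤ Ω * ((h * σ) / M) :=
      mul_le_mul_of_nonneg_left (div_le_div_of_nonneg_right h2 hM0.le) hΩ0.le
    have h9 : Ω * ((h * σ) / M) = (4 * h * M / σ * Ω) * (σ / (2 * M)) ^ 2 := by
      field_simp
      ring
    have h10 := h7.trans (h8.trans h9.le)
    have h11 := le_of_mul_le_mul_right h10 (by positivity)
    refine h11.trans (mul_le_mul_of_nonneg_right ?_ hΩ0.le)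
    exact div_le_div_of_nonneg_left (by positivity) hA hσA
  obtain ⟨q, hq⟩ : ∃ q : ℝ, q = 4 * h * M / A * T.card := ⟨_, rfl⟩
  have hq0 : 0 ≤ q := by rw [hq]; positivity
  -- Markov
  have hsum : ∑ ω : C → Fin M, ((T.filter (fun v =>
      ∑ c ∈ univ.filter (fun c => (ω c : ℕ) = 0), g v c < A / (2 * M))).card : ℝ) ≤ q * Ω := by
    have h1 : ∀ ω : C → Fin M, ((T.filter (fun v =>
      ∑ c ∈ univ.filter (fun c => (ω c : ℕ) = 0), g v c < A / (2 * M))).card : ℝ) =
        ∑ v ∈ T, (if ∑ c ∈ univ.filter (fun c => (ω c : ℕ) = 0), g v c < A / (2 * M)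
          then (1 : ℝ) else 0) := by
      intro ω
      rw [Finset.card_filter]
      push_cast
      rfl
    rw [Finset.sum_congr rfl (fun ω _ => h1 ω), Finset.sum_comm]
    calc ∑ v ∈ T, ∑ ω : C → Fin M, (if ∑ c ∈ univ.filter (fun c => (ω c : ℕ) = 0), g v c < A / (2 * M)
          then (1 : ℝ) else 0) ≤ ∑ _v ∈ T, 4 * h * M / A * Ω := by
          apply Finset.sum_le_sum
          intro v hv
          have h2 := hone v hv
          rw [Finset.card_filter] at h2
          push_cast at h2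
          exact h2
      _ = q * Ω := by
          rw [Finset.sum_const, nsmul_eq_mul, hq]
          ring
  have hbad : (((univ : Finset (C → Fin M)).filter (fun ω => 2 * q < ((T.filter (fun v =>
      ∑ c ∈ univ.filter (fun c => (ω c : ℕ) = 0), g v c < A / (2 * M))).card : ℝ))).card : ℝ)
        ≤ Ω / 2 := by
    by_contra hcon
    rw [not_le] at hcon
    have h1 : (∑ ω ∈ (univ : Finset (C → Fin M)).filter (fun ω => 2 * q < ((T.filter (fun v =>
      ∑ c ∈ univ.filter (fun c => (ω c : ℕ) = 0), g v c < A / (2 * M))).card : ℝ)),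
        ((T.filter (fun v =>
      ∑ c ∈ univ.filter (fun c => (ω c : ℕ) = 0), g v c < A / (2 * M))).card : ℝ)) ≤ q * Ω := by
      refine le_trans ?_ hsum
      exact Finset.sum_le_sum_of_subset_of_nonneg (Finset.filter_subset _ _)
        (fun _ _ _ => Nat.cast_nonneg _)
    obtain ⟨S, hS⟩ : ∃ S, S = (univ : Finset (C → Fin M)).filter (fun ω => 2 * q < ((T.filter
      (fun v => ∑ c ∈ univ.filter (fun c => (ω c : ℕ) = 0), g v c < A / (2 * M))).card : ℝ)) :=
      ⟨_, rfl⟩
    rw [← hS] at hcon h1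
    have hSne : S.Nonempty := by
      rw [Finset.nonempty_iff_ne_empty]
      intro h0
      rw [h0, Finset.card_empty, Nat.cast_zero] at hcon
      linarith
    have h2 : (∑ _ω ∈ S, 2 * q) < ∑ ω ∈ S, ((T.filter (fun v =>
      ∑ c ∈ univ.filter (fun c => (ω c : ℕ) = 0), g v c < A / (2 * M))).card : ℝ) := by
      apply Finset.sum_lt_sum_of_nonempty hSne
      intro ω hω
      rw [hS, Finset.mem_filter] at hω
      exact hω.2
    rw [Finset.sum_const, nsmul_eq_mul] at h2
    have h3 : Ω * q ≤ S.card * (2 * q) := by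
      have := mul_le_mul_of_nonneg_right hcon.le (by linarith : 0 ≤ 2 * q)
      linarith
    linarith
  have hbig' : (((univ : Finset (C → Fin M)).filter (fun ω =>
      2 * n / M < ((univ.filter (fun c => (ω c : ℕ) = 0)).card : ℝ))).card : ℝ) < Ω / 2 := by
    by_contra hcon
    rw [not_lt] at hcon
    have h1 := mul_le_mul_of_nonneg_right hcon hn0.le
    have h2 : Ω / 2 * n ≤ Ω * M := h1.trans hbig
    have h3 : Ω * (2 * M) < Ω * n := mul_lt_mul_of_pos_left hn2 hΩ0
    linarith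
  -- a good labelling
  obtain ⟨ω, hω1, hω2⟩ : ∃ ω : C → Fin M,
      ¬ (2 * q < ((T.filter (fun v =>
      ∑ c ∈ univ.filter (fun c => (ω c : ℕ) = 0), g v c < A / (2 * M))).card : ℝ)) ∧
      ¬ (2 * n / M < ((univ.filter (fun c => (ω c : ℕ) = 0)).card : ℝ)) := by
    by_contra hcon
    push Not at hcon
    have h1 : (univ : Finset (C → Fin M)) ⊆
        ((univ : Finset (C → Fin M)).filter (fun ω => 2 * q < ((T.filter (fun v =>
          ∑ c ∈ univ.filter (fun c => (ω c : ℕ) = 0), g v c < A / (2 * M))).card : ℝ))) ∪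
        ((univ : Finset (C → Fin M)).filter (fun ω =>
          2 * n / M < ((univ.filter (fun c => (ω c : ℕ) = 0)).card : ℝ))) := by
      intro ω _
      rw [Finset.mem_union, Finset.mem_filter, Finset.mem_filter]
      by_cases hc : 2 * q < ((T.filter (fun v =>
          ∑ c ∈ univ.filter (fun c => (ω c : ℕ) = 0), g v c < A / (2 * M))).card : ℝ)
      · exact Or.inl ⟨Finset.mem_univ _, hc⟩
      · exact Or.inr ⟨Finset.mem_univ _, hcon ω (not_lt.1 hc)⟩
    have h2 := (Finset.card_le_card h1).trans (Finset.card_union_le _ _)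
    have h3 : ((univ : Finset (C → Fin M)).card : ℝ) ≤
        (((univ : Finset (C → Fin M)).filter (fun ω => 2 * q < ((T.filter (fun v =>
          ∑ c ∈ univ.filter (fun c => (ω c : ℕ) = 0), g v c < A / (2 * M))).card : ℝ))).card : ℝ) +
        (((univ : Finset (C → Fin M)).filter (fun ω =>
          2 * n / M < ((univ.filter (fun c => (ω c : ℕ) = 0)).card : ℝ))).card : ℝ) := by
      exact_mod_cast h2
    rw [hcard] at h3
    linarith
  refine ⟨univ.filter (fun c => (ω c : ℕ) = 0), ?_, ?_⟩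
  · rw [← hn]
    exact not_lt.1 hω2
  · refine (not_lt.1 hω1).trans (le_of_eq ?_)
    rw [hq]
    ring

end PFU
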