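import Pool.Agent.LibPFU75.T01

/-! Let `D` be the set of the sum (the class of `v`).  The neighbours `u ∈ G2` of `v` in the
colours of `B` are in `D`.  If all of them have `w u ≥ 1` then `∑ ≥ y1`.  If `w u = 0` for one of
them then all the neighbours `z` of `u` in the colours of `B` have `w z ≥ 2` and are in `D`, so
`∑ ≥ 2 y2`. -/
namespace PFU
open Finset
open scoped Classical

theorem comp_cost {V C : Type} [Fintype V] (χ : V → V → C) (hχ : ∀ u v, χ u v = χ v u)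
    (B : Finset C) (v : V) (G2 : Finset V) (y y1 y2 : ℝ)
    (h1 : y1 ≤ ((G2.filter (fun u => u ≠ v ∧ χ v u ∈ B)).card : ℝ))
    (h2 : ∀ u ∈ G2, y2 ≤ ((univ.filter (fun z => z ≠ u ∧ χ u z ∈ B)).card : ℝ))
    (w : V → ℕ) (hw : Cov (EE χ B) w) (hy1 : y ≤ y1) (hy2 : y ≤ 2 * y2) :
    y ≤ ∑ u ∈ univ.filter (fun u => Relation.ReflTransGen (EE χ B) v u), (w u : ℝ) := by
  by_cases hall : ∀ u ∈ G2.filter (fun u => u ≠ v ∧ χ v u ∈ B), 1 ≤ w u
  · have hsub : G2.filter (fun u => u ≠ v ∧ χ v u ∈ B) ⊆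
        univ.filter (fun u => Relation.ReflTransGen (EE χ B) v u) := by
      intro u hu
      obtain ⟨-, hne, hB⟩ := Finset.mem_filter.1 hu
      rw [Finset.mem_filter]
      exact ⟨Finset.mem_univ _, Relation.ReflTransGen.single ⟨hne.symm, hB⟩⟩
    calc y ≤ y1 := hy1
      _ ≤ ((G2.filter (fun u => u ≠ v ∧ χ v u ∈ B)).card : ℝ) := h1
      _ = ∑ u ∈ G2.filter (fun u => u ≠ v ∧ χ v u ∈ B), (1 : ℝ) := by simp
      _ ≤ ∑ u ∈ G2.filter (fun u => u ≠ v ∧ χ v u ∈ B), (w u : ℝ) :=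
        Finset.sum_le_sum fun u hu => by exact_mod_cast hall u hu
      _ ≤ _ := Finset.sum_le_sum_of_subset_of_nonneg hsub fun _ _ _ => Nat.cast_nonneg _
  · push Not at hall
    obtain ⟨u, hu, hwu⟩ := hall
    obtain ⟨huG, hne, hB⟩ := Finset.mem_filter.1 hu
    have hw0 : w u = 0 := by omega
    have hsub : univ.filter (fun z => z ≠ u ∧ χ u z ∈ B) ⊆
        univ.filter (fun u => Relation.ReflTransGen (EE χ B) v u) := by
      intro z hz
      obtain ⟨-, hne', hB'⟩ := Finset.mem_filter.1 hz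
      rw [Finset.mem_filter]
      have hvu : EE χ B v u := ⟨hne.symm, hB⟩
      have huz : EE χ B u z := ⟨hne'.symm, hB'⟩
      exact ⟨Finset.mem_univ _, (Relation.ReflTransGen.single hvu).tail huz⟩
    have h2' : ∀ z ∈ univ.filter (fun z => z ≠ u ∧ χ u z ∈ B), (2 : ℝ) ≤ (w z : ℝ) := by
      intro z hz
      obtain ⟨-, hne', hB'⟩ := Finset.mem_filter.1 hz
      have huz : EE χ B u z := ⟨hne'.symm, hB'⟩
      have h3 := hw u z huz
      have h4 : 2 ≤ w z := by omega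
      exact_mod_cast h4
    calc y ≤ 2 * y2 := hy2
      _ ≤ 2 * ((univ.filter (fun z => z ≠ u ∧ χ u z ∈ B)).card : ℝ) := by
        have := h2 u huG
        linarith
      _ = ∑ z ∈ univ.filter (fun z => z ≠ u ∧ χ u z ∈ B), (2 : ℝ) := by
        rw [Finset.sum_const, nsmul_eq_mul, mul_comm]
      _ ≤ ∑ z ∈ univ.filter (fun z => z ≠ u ∧ χ u z ∈ B), (w z : ℝ) := Finset.sum_le_sum h2'
      _ ≤ _ := Finset.sum_le_sum_of_subset_of_nonneg hsub fun _ _ _ => Nat.cast_nonneg _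

end PFU
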