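import Pool.Agent.LibPFU75.T12
import Pool.Agent.LibPFU75.T13

/-! Two applications of `batch`.
Round 2: `T = V1 \ H_b`, `H_b = {v ∈ V1 : light number < b N}`;
`g v c = |{u ∈ V1 : u ≠ v, χ v u = c}|` if `dgc χ V1 c v < h` and `0` otherwise (so `0 ≤ g ≤ h`,
`∑_c g v c = ` light number of `v`, `≥ b N`); gives `B2`, at most `γ' N` bad vertices; `G2` = the
good ones, `|V1 \ G2| ≤ (4b + γ') N ≤ (a/2) N`, and every `u ∈ G2` has at least `b N/(2M)`
neighbours in the colours of `B2`.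
Round 1: `T = V1 \ H_a`, `g v c = |{u ∈ G2 : u ≠ v, χ v u = c}|` if `dgc χ V1 c v < h`, `0`
otherwise, `∑_c g v c ≥ a N - |V1 \ G2| ≥ (a/2) N`; gives `B1`, at most `γ N` bad vertices; `G` =
the good ones, each has at least `(a/2)N/(2M)` neighbours in `G2` in the colours of `B1`.
`B = B1 ∪ B2`; `comp_cost` with `y = bN/M`, `y1 = (a/2)N/(2M)`, `y2 = bN/(2M)` (`4b ≤ a/2`). -/
namespace PFU
open Finset
open scoped Classical

theorem t14_sum {V C : Type} (χ : V → V → C) (S : Finset V) (v : V) (B : Finset C)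
    (p : C → Prop) :
    ∑ c ∈ B, (if p c then ((S.filter (fun u => u ≠ v ∧ χ v u = c)).card : ℝ) else 0) =
      ((S.filter (fun u => u ≠ v ∧ χ v u ∈ B ∧ p (χ v u))).card : ℝ) := by
  have h1 : (S.filter (fun u => u ≠ v ∧ χ v u ∈ B ∧ p (χ v u))).card =
      ∑ c ∈ B, ((S.filter (fun u => u ≠ v ∧ χ v u ∈ B ∧ p (χ v u))).filter
        (fun u => χ v u = c)).card := by
    refine card_eq_sum_card_fiberwise ?_
    intro u hu
    have hu' := mem_filter.mp (mem_coe.mp hu)
    exact mem_coe.mpr hu'.2.2.1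
  rw [h1, Nat.cast_sum]
  refine sum_congr rfl fun c hc => ?_
  split_ifs with hp
  · congr 2
    ext u
    simp only [mem_filter]
    constructor
    · rintro ⟨h2, h3, h4⟩
      exact ⟨⟨h2, h3, by rw [h4]; exact hc, by rw [h4]; exact hp⟩, h4⟩
    · rintro ⟨⟨h2, h3, -, -⟩, h4⟩
      exact ⟨h2, h3, h4⟩
  · symm
    rw [Nat.cast_eq_zero, card_eq_zero, filter_eq_empty_iff]
    intro u hu h2
    rw [mem_filter] at hu
    apply hp
    rw [← h2]
    exact hu.2.2.2

/-- one round: `Tv` are the vertices with many light neighbours in `S`. -/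
theorem t14_round {V C : Type} [Fintype V] [Fintype C] (χ : V → V → C) (V1 S : Finset V)
    (h x x' γ : ℝ) (M : ℕ) (hM : 0 < M) (hh : 0 < h) (hx' : 0 < x')
    (ht : 2 * M < Fintype.card C) (hN : 0 < Fintype.card V) (hS : S ⊆ V1)
    (hH : ((V1.filter (fun v => ((V1.filter (fun u => u ≠ v ∧ Lt χ V1 h v u)).card : ℝ) <
      x * (Fintype.card V : ℝ))).card : ℝ) ≤ 4 * x * (Fintype.card V : ℝ))
    (hVS : (V1.card : ℝ) - S.card ≤ (x - x') * (Fintype.card V : ℝ))
    (hγ : 8 * h * M / (x' * (Fintype.card V : ℝ)) ≤ γ) :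
    ∃ (B : Finset C) (G : Finset V), (B.card : ℝ) ≤ 2 * Fintype.card C / M ∧ G ⊆ V1 ∧
      (V1.card : ℝ) - (4 * x + γ) * (Fintype.card V : ℝ) ≤ (G.card : ℝ) ∧
      ∀ v ∈ G, x' * (Fintype.card V : ℝ) / (2 * M) ≤
        ((S.filter (fun u => u ≠ v ∧ χ v u ∈ B)).card : ℝ) := by
  have hN' : (0 : ℝ) < (Fintype.card V : ℝ) := by exact_mod_cast hN
  set N : ℝ := (Fintype.card V : ℝ) with hNdef
  set T := V1.filter (fun v => ¬ ((V1.filter (fun u => u ≠ v ∧ Lt χ V1 h v u)).card : ℝ) < x * N)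
    with hT
  have hTV : T ⊆ V1 := filter_subset _ _
  obtain ⟨B, hB, hbad⟩ := batch T (fun v c => if (dgc χ V1 c v : ℝ) < h then
      ((S.filter (fun u => u ≠ v ∧ χ v u = c)).card : ℝ) else 0) h (x' * N) M hM hh (by positivity)
    (by
      intro v _ c
      show (0 : ℝ) ≤ if (dgc χ V1 c v : ℝ) < h then _ else _
      split_ifs
      · exact Nat.cast_nonneg _
      · exact le_refl _)
    (by
      intro v _ c
      show (if (dgc χ V1 c v : ℝ) < h then
        ((S.filter (fun u => u ≠ v ∧ χ v u = c)).card : ℝ) else 0) ≤ h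
      split_ifs with h1
      · have h2 : (S.filter (fun u => u ≠ v ∧ χ v u = c)).card ≤ dgc χ V1 c v := by
          unfold dgc
          exact card_le_card (filter_subset_filter _ hS)
        have h3 : ((S.filter (fun u => u ≠ v ∧ χ v u = c)).card : ℝ) ≤ (dgc χ V1 c v : ℝ) := by
          exact_mod_cast h2
        linarith
      · exact hh.le)
    (by
      intro v hv
      show x' * N ≤ ∑ c, (if (dgc χ V1 c v : ℝ) < h then
        ((S.filter (fun u => u ≠ v ∧ χ v u = c)).card : ℝ) else 0)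
      rw [t14_sum χ S v univ (fun c => (dgc χ V1 c v : ℝ) < h)]
      rw [hT, mem_filter, not_lt] at hv
      have h1 : (V1.filter (fun u => u ≠ v ∧ Lt χ V1 h v u)).card ≤
          (S.filter (fun u => u ≠ v ∧ χ v u ∈ (univ : Finset C) ∧
            (dgc χ V1 (χ v u) v : ℝ) < h)).card + (V1 \ S).card := by
        refine (card_le_card ?_).trans (card_union_le _ _)
        intro u hu
        rw [mem_filter] at hu
        rw [mem_union, mem_filter, mem_sdiff]
        by_cases hus : u ∈ S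
        · left
          exact ⟨hus, hu.2.1, mem_univ _, hu.2.2⟩
        · right
          exact ⟨hu.1, hus⟩
      have h2 : ((V1.filter (fun u => u ≠ v ∧ Lt χ V1 h v u)).card : ℝ) ≤
          ((S.filter (fun u => u ≠ v ∧ χ v u ∈ (univ : Finset C) ∧
            (dgc χ V1 (χ v u) v : ℝ) < h)).card : ℝ) + ((V1 \ S).card : ℝ) := by
        exact_mod_cast h1
      have h3 : ((V1 \ S).card : ℝ) = (V1.card : ℝ) - S.card := by
        rw [card_sdiff_of_subset hS, Nat.cast_sub (card_le_card hS)]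
      have h4 := hv.2
      rw [h3] at h2
      linarith) ht
  refine ⟨B, T.filter (fun v => ¬ (∑ c ∈ B, (if (dgc χ V1 c v : ℝ) < h then
      ((S.filter (fun u => u ≠ v ∧ χ v u = c)).card : ℝ) else 0)) < x' * N / (2 * M)), hB,
    (filter_subset _ _).trans hTV, ?_, ?_⟩
  · have h1 : ((V1.filter (fun v => ((V1.filter (fun u => u ≠ v ∧ Lt χ V1 h v u)).card : ℝ) <
        x * N)).card : ℝ) + (T.card : ℝ) = (V1.card : ℝ) := by
      exact_mod_cast card_filter_add_card_filter_not (s := V1)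
        (fun v => ((V1.filter (fun u => u ≠ v ∧ Lt χ V1 h v u)).card : ℝ) < x * N)
    have h2 : ((T.filter (fun v => (∑ c ∈ B, (if (dgc χ V1 c v : ℝ) < h then
        ((S.filter (fun u => u ≠ v ∧ χ v u = c)).card : ℝ) else 0)) < x' * N / (2 * M))).card : ℝ) +
        ((T.filter (fun v => ¬ (∑ c ∈ B, (if (dgc χ V1 c v : ℝ) < h then
        ((S.filter (fun u => u ≠ v ∧ χ v u = c)).card : ℝ) else 0)) < x' * N / (2 * M))).card : ℝ) =
        (T.card : ℝ) := by
      exact_mod_cast card_filter_add_card_filter_not (s := T) (fun v =>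
        (∑ c ∈ B, (if (dgc χ V1 c v : ℝ) < h then
        ((S.filter (fun u => u ≠ v ∧ χ v u = c)).card : ℝ) else 0)) < x' * N / (2 * M))
    have h3 : 8 * h * M / (x' * N) * (T.card : ℝ) ≤ γ * N := by
      have h4 : (T.card : ℝ) ≤ N := by
        rw [hNdef]
        exact_mod_cast card_le_univ T
      have h5 : (0 : ℝ) ≤ 8 * h * M / (x' * N) := by positivity
      calc 8 * h * M / (x' * N) * (T.card : ℝ) ≤ 8 * h * M / (x' * N) * N :=
            mul_le_mul_of_nonneg_left h4 h5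
        _ ≤ γ * N := mul_le_mul_of_nonneg_right hγ hN'.le
    linarith
  · intro v hv
    rw [mem_filter, not_lt] at hv
    refine hv.2.trans ?_
    rw [t14_sum χ S v B (fun c => (dgc χ V1 c v : ℝ) < h)]
    have h1 : (S.filter (fun u => u ≠ v ∧ χ v u ∈ B ∧ (dgc χ V1 (χ v u) v : ℝ) < h)).card ≤
        (S.filter (fun u => u ≠ v ∧ χ v u ∈ B)).card := by
      refine card_le_card ?_
      intro u hu
      rw [mem_filter] at hu ⊢
      exact ⟨hu.1, hu.2.1, hu.2.2.1⟩
    exact_mod_cast h1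

theorem two_rounds {V C : Type} [Fintype V] [Fintype C] (χ : V → V → C)
    (hχ : ∀ u v, χ u v = χ v u) (V1 : Finset V) (h a b γ γ' : ℝ) (M : ℕ) (hM : 0 < M)
    (hh : 0 < h) (ha : 0 < a) (hb : 0 < b) (hγ0 : 0 < γ) (hγ'0 : 0 < γ') (hab : 4 * b + γ' ≤ a / 2)
    (ht : 2 * M < Fintype.card C) (hN : 0 < Fintype.card V)
    (hHa : ((V1.filter (fun v => ((V1.filter (fun u => u ≠ v ∧ Lt χ V1 h v u)).card : ℝ) <
      a * (Fintype.card V : ℝ))).card : ℝ) ≤ 4 * a * (Fintype.card V : ℝ))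
    (hHb : ((V1.filter (fun v => ((V1.filter (fun u => u ≠ v ∧ Lt χ V1 h v u)).card : ℝ) <
      b * (Fintype.card V : ℝ))).card : ℝ) ≤ 4 * b * (Fintype.card V : ℝ))
    (hγ' : 8 * h * M / (b * (Fintype.card V : ℝ)) ≤ γ')
    (hγ : 8 * h * M / (a / 2 * (Fintype.card V : ℝ)) ≤ γ) :
    ∃ (B : Finset C) (G : Finset V), (B.card : ℝ) ≤ 4 * Fintype.card C / M ∧ G ⊆ V1 ∧
      (V1.card : ℝ) - (4 * a + γ) * (Fintype.card V : ℝ) ≤ (G.card : ℝ) ∧
      ∀ v ∈ G, ∀ w : V → ℕ, Cov (EE χ B) w →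
        b * (Fintype.card V : ℝ) / M ≤
          ∑ u ∈ univ.filter (fun u => Relation.ReflTransGen (EE χ B) v u), (w u : ℝ) := by
  have hN' : (0 : ℝ) < (Fintype.card V : ℝ) := by exact_mod_cast hN
  have hM' : (0 : ℝ) < (M : ℝ) := by exact_mod_cast hM
  obtain ⟨B2, G2, hB2, hG2V, hG2, h2⟩ := t14_round χ V1 V1 h b b γ' M hM hh hb ht hN
    (Subset.refl _) hHb (by rw [sub_self, sub_self, zero_mul]) hγ'
  obtain ⟨B1, G, hB1, hGV, hG, h1⟩ := t14_round χ V1 G2 h a (a / 2) γ M hM hh (by positivity) ht hN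
    hG2V hHa (by
      have h3 : (4 * b + γ') * (Fintype.card V : ℝ) ≤ a / 2 * (Fintype.card V : ℝ) :=
        mul_le_mul_of_nonneg_right hab hN'.le
      have h4 : (a - a / 2) * (Fintype.card V : ℝ) = a / 2 * (Fintype.card V : ℝ) := by ring
      rw [h4]
      linarith) hγ
  refine ⟨B1 ∪ B2, G, ?_, hGV, hG, ?_⟩
  · have h3 : ((B1 ∪ B2).card : ℝ) ≤ (B1.card : ℝ) + (B2.card : ℝ) := by
      exact_mod_cast card_union_le B1 B2
    have h4 : 4 * (Fintype.card C : ℝ) / M = 2 * Fintype.card C / M + 2 * Fintype.card C / M := by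
      ring
    rw [h4]
    linarith
  · intro v hv w hw
    refine comp_cost χ hχ (B1 ∪ B2) v G2 (b * (Fintype.card V : ℝ) / M)
      (a / 2 * (Fintype.card V : ℝ) / (2 * M)) (b * (Fintype.card V : ℝ) / (2 * M)) ?_ ?_ w hw ?_ ?_
    · refine (h1 v hv).trans ?_
      have h3 : (G2.filter (fun u => u ≠ v ∧ χ v u ∈ B1)).card ≤
          (G2.filter (fun u => u ≠ v ∧ χ v u ∈ B1 ∪ B2)).card := by
        refine card_le_card ?_
        intro u hu
        rw [mem_filter] at hu ⊢
        exact ⟨hu.1, hu.2.1, mem_union_left _ hu.2.2⟩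
      exact_mod_cast h3
    · intro u hu
      refine (h2 u hu).trans ?_
      have h3 : (V1.filter (fun z => z ≠ u ∧ χ u z ∈ B2)).card ≤
          (univ.filter (fun z => z ≠ u ∧ χ u z ∈ B1 ∪ B2)).card := by
        refine card_le_card ?_
        intro z hz
        rw [mem_filter] at hz ⊢
        exact ⟨mem_univ _, hz.2.1, mem_union_right _ hz.2.2⟩
      exact_mod_cast h3
    · rw [div_le_div_iff₀ hM' (by positivity)]
      have h3 : b ≤ a / 4 := by linarith
      have h4 : b * (Fintype.card V : ℝ) * (2 * M) ≤ a / 4 * (Fintype.card V : ℝ) * (2 * M) := by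
        gcongr
      linarith
    · have h3 : 2 * (b * (Fintype.card V : ℝ) / (2 * M)) = b * (Fintype.card V : ℝ) / M := by
        field_simp
      rw [h3]

end PFU
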