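import Pool.Agent.LibPFU75.T03

/-! Let `P j`: there is `R ⊆ G` with `|R| = j` whose elements are in pairwise different classes
of `ReflTransGen (EE χ B)`.  `P 0` holds.  `P r` fails: otherwise (`r ≥ 1`) let `v1 ∈ R`,
`J = {χ v1 v : v ∈ R, v ≠ v1}`, `D` = the union of the classes of the `v ∈ R`; `D` is linked by
`B ∪ J`, `|B ∪ J| ≤ s`; `HH` gives `w`, a cover also for `B`, so `∑_D w ≥ r y > X`
(the classes are disjoint), contradiction.  Take `j < r` with `P j` and not `P (j+1)`: every
`v ∈ G` is in the class of an element of `R`.  If `R = ∅` then `G = ∅`.  Otherwise take `J` as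
before. -/
namespace PFU
open Finset
open scoped Classical

/-- the classes of the elements of `R` are joined by the colours between `v1` and `R` -/
theorem t15_link {V C : Type} (χ : V → V → C) (hχ : ∀ u v, χ u v = χ v u) (B : Finset C)
    (R : Finset V) (v1 : V) (u v : V)
    (hu : ∃ a ∈ R, Relation.ReflTransGen (EE χ B) u a)
    (hv : ∃ a ∈ R, Relation.ReflTransGen (EE χ B) v a) :
    Relation.ReflTransGen (EE χ (B ∪ (R.erase v1).image (χ v1))) u v := by
  have hsy := EE_symm χ hχ (B ∪ (R.erase v1).image (χ v1))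
  have key : ∀ x, (∃ a ∈ R, Relation.ReflTransGen (EE χ B) x a) →
      Relation.ReflTransGen (EE χ (B ∪ (R.erase v1).image (χ v1))) v1 x := by
    rintro x ⟨a, ha, hxa⟩
    have h1 : Relation.ReflTransGen (EE χ (B ∪ (R.erase v1).image (χ v1))) x a :=
      Relation.ReflTransGen.mono (fun p q h => EE_mono χ Finset.subset_union_left p q h) _ _ hxa
    have h2 : Relation.ReflTransGen (EE χ (B ∪ (R.erase v1).image (χ v1))) v1 a := by
      by_cases hav : a = v1
      · rw [hav]
      · apply Relation.ReflTransGen.single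
        refine ⟨Ne.symm hav, Finset.mem_union_right _ (Finset.mem_image_of_mem _ ?_)⟩
        exact Finset.mem_erase.2 ⟨hav, ha⟩
    exact h2.trans (rtg_symm hsy h1)
  exact (rtg_symm hsy (key u hu)).trans (key v hv)

theorem join_comps {V C : Type} [Fintype V] (χ : V → V → C) (hχ : ∀ u v, χ u v = χ v u)
    (s : ℕ) (X y : ℝ) (hy : 0 < y) (h : HH χ s X) (B : Finset C) (G : Finset V) (r : ℕ)
    (hX : 0 ≤ X) (hr : X < r * y) (hBr : B.card + r ≤ s)
    (hG : ∀ v ∈ G, ∀ w : V → ℕ, Cov (EE χ B) w →
      y ≤ ∑ u ∈ univ.filter (fun u => Relation.ReflTransGen (EE χ B) v u), (w u : ℝ)) :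
    ∃ J : Finset C, J.card ≤ r ∧ Lkd (EE χ (B ∪ J)) G := by
  have hsyB := EE_symm χ hχ B
  have hr1 : 1 ≤ r := by
    rcases Nat.eq_zero_or_pos r with rfl | h1
    · simp at hr
      linarith
    · exact h1
  obtain ⟨R, hR, hmax⟩ := Finset.exists_max_image
    (G.powerset.filter (fun R => ∀ a ∈ R, ∀ b ∈ R, a ≠ b →
      ¬ Relation.ReflTransGen (EE χ B) a b)) Finset.card ⟨∅, by simp⟩
  rw [Finset.mem_filter, Finset.mem_powerset] at hR
  obtain ⟨hRG, hRind⟩ := hR
  have hRr : R.card < r := by
    by_contra hcon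
    push Not at hcon
    obtain ⟨R', hR', hR'c⟩ := Finset.exists_subset_card_eq hcon
    obtain ⟨v1, hv1⟩ := Finset.card_pos.1 (show 0 < R'.card by omega)
    set J := (R'.erase v1).image (χ v1) with hJ
    have hJc : J.card ≤ r - 1 := by
      have h1 : J.card ≤ (R'.erase v1).card := Finset.card_image_le
      rw [Finset.card_erase_of_mem hv1, hR'c] at h1
      exact h1
    have hSc : (B ∪ J).card ≤ s := by
      have := Finset.card_union_le B J
      omega
    obtain ⟨w, hw, hwD⟩ := h (B ∪ J) hSc
    have hwB : Cov (EE χ B) w := fun u v huv =>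
      hw u v (EE_mono χ Finset.subset_union_left u v huv)
    have hle := hwD (R'.biUnion
      (fun a => univ.filter (fun u => Relation.ReflTransGen (EE χ B) a u))) (by
        intro u hu v hv
        rw [Finset.mem_biUnion] at hu hv
        obtain ⟨a, ha, hau⟩ := hu
        obtain ⟨b, hb, hbv⟩ := hv
        rw [Finset.mem_filter] at hau hbv
        exact t15_link χ hχ B R' v1 u v ⟨a, ha, rtg_symm hsyB hau.2⟩
          ⟨b, hb, rtg_symm hsyB hbv.2⟩)
    rw [Finset.sum_biUnion (by
      intro a ha b hb hab
      refine Finset.disjoint_left.2 ?_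
      intro u hua hub
      have hua' := (Finset.mem_filter.1 hua).2
      have hub' := (Finset.mem_filter.1 hub).2
      exact hRind a (hR' ha) b (hR' hb) hab (hua'.trans (rtg_symm hsyB hub')))] at hle
    have hge : ∑ a ∈ R', y ≤ ∑ a ∈ R',
        ∑ u ∈ univ.filter (fun u => Relation.ReflTransGen (EE χ B) a u), (w u : ℝ) :=
      Finset.sum_le_sum (fun a ha => hG a (hRG (hR' ha)) w hwB)
    rw [Finset.sum_const, hR'c, nsmul_eq_mul] at hge
    linarith
  have hdom : ∀ v ∈ G, ∃ a ∈ R, Relation.ReflTransGen (EE χ B) v a := by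
    intro v hv
    by_contra hcon
    push Not at hcon
    have hvR : v ∉ R := fun hvR => hcon v hvR Relation.ReflTransGen.refl
    have h1 := hmax (insert v R) (by
      rw [Finset.mem_filter, Finset.mem_powerset]
      refine ⟨Finset.insert_subset hv hRG, ?_⟩
      intro a ha b hb hab
      rw [Finset.mem_insert] at ha hb
      rcases ha with rfl | ha <;> rcases hb with rfl | hb
      · exact absurd rfl hab
      · exact hcon b hb
      · exact fun h => hcon a ha (rtg_symm hsyB h)
      · exact hRind a ha b hb hab)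
    rw [Finset.card_insert_of_notMem hvR] at h1
    omega
  rcases R.eq_empty_or_nonempty with rfl | ⟨v1, hv1⟩
  · refine ⟨∅, by simp, ?_⟩
    intro u hu
    obtain ⟨a, ha, -⟩ := hdom u hu
    simp at ha
  · refine ⟨(R.erase v1).image (χ v1), ?_, ?_⟩
    · have h1 : ((R.erase v1).image (χ v1)).card ≤ (R.erase v1).card := Finset.card_image_le
      rw [Finset.card_erase_of_mem hv1] at h1
      omega
    · intro u hu v hv
      exact t15_link χ hχ B R v1 u v (hdom u hu) (hdom v hv)

end PFU
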