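import Pool.Agent.LibPFU75.T06
import Pool.Agent.LibPFU75.T07
import Pool.Agent.LibPFU75.T09
import Pool.Agent.LibPFU75.T10
import Pool.Agent.LibPFU75.T14
import Pool.Agent.LibPFU75.T15

/-! Core theorem.  Write `N = |V|`, `p = s/t ≤ ε/80`, `x = p N`, `X = 2(1-ε) x`; assume `HH χ s X`.
Parameters: `e = ε/20`, `a = ε/64`, `b = a/16`, `γ' = a/4`, `γ = ε/16`, `lam = 4 b^2`,
`L = 64/(e a b) + 512/(ε e a)`, `h = x/L`, `κ = lam h`, `M = ⌈1/(e p)⌉` (so `1/(e p) ≤ M ≤ 2/(e p)`).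
1. `removal` with `r = ⌈2L/lam⌉`: `V1`, `|V1| ≥ N - 2X ≥ (1-4p) N`.
2. `clumped_total` (divide by `h`): `≤ lam N^2`; `few_clumpy` for `a` and for `b` (`1 ≤ b N`).
3. `two_rounds` (`8hM/(bN) ≤ 16/(L e b) ≤ γ'`, `8hM/((a/2)N) ≤ 32/(L e a) ≤ γ`,
   `2M ≤ 4t/(e s) < t` for `s > 4/e`): `|B| ≤ 4t/M ≤ 4 e s`, `|G| ≥ (1 - 4p - 4a - γ) N`,
   `y = b N/M ≥ b e x/2`.
4. `join_comps` with `r' = ⌈4/(b e)⌉`: `|J| ≤ r' ≤ e s`; `Lkd (EE χ (B ∪ J)) G`.
5. `greedy` with `U = G`, `Y = 2x`, `k = ⌊(1-5e) s⌋`: `S1`, `F`.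
   `S = B ∪ J ∪ S1` has at most `s` colours, `G` is linked, `HH_arcs`: `|F| ≤ X < 2x`, so
   `k (2|G| - 8x - 3 - X)/t ≤ 2(1-ε)x`; but `2|G| - 8x - 3 - X ≥ 2N(1 - 10p - 4a - γ)`
   (`3 ≤ 2pN`) and `k ≥ (1 - 5e - 1/s) s`, so
   `2x (1 - 5e - 1/s)(1 - 10p - 4a - γ) ≤ 2(1-ε)x`, contradiction as
   `5e + 1/s + 10p + 4a + γ ≤ ε/4 + ε/16 + ε/8 + ε/16 + ε/16 < ε` (`s ≥ 16/ε`).
`N0 ≥ 1/b + 3t/(2s) + 1`. -/
namespace PFU
open Finset
open scoped Classical

/-- final numerical contradiction -/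
theorem t16_final (ε e a γ p s k : ℝ) (hε : 0 < ε) (hε1 : ε ≤ 1) (he : e = ε / 20)
    (ha : a = ε / 64) (hγ : γ = ε / 16) (hp : p ≤ ε / 80) (hs : 16 ≤ ε * s) (hs0 : 0 < s)
    (hk : (1 - 5 * e) * s - 1 ≤ k)
    (h : k * (1 - 10 * p - 4 * a - γ) ≤ (1 - ε) * s) : False := by
  have hv : 1 - 10 * p - 4 * a - γ ≥ 1 - ε / 4 := by
    rw [ha, hγ]; linarith
  have hv0 : 0 ≤ 1 - ε / 4 := by linarith
  have hk1 : (1 - ε / 4) * s - ε * s / 16 ≤ k := by
    rw [he] at hk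
    have : (1 - 5 * (ε / 20)) * s = (1 - ε / 4) * s := by ring
    linarith
  have hk0 : 0 ≤ k := by
    have : 0 ≤ (1 - ε / 4) * s - ε * s / 16 := by
      have : (1 - ε / 4) * s - ε * s / 16 = (1 - 5 * ε / 16) * s := by ring
      rw [this]
      apply mul_nonneg _ hs0.le
      linarith
    linarith
  have h1 : k * (1 - ε / 4) ≤ k * (1 - 10 * p - 4 * a - γ) := mul_le_mul_of_nonneg_left hv hk0
  have h2 : ((1 - ε / 4) * s - ε * s / 16) * (1 - ε / 4) ≤ k * (1 - ε / 4) :=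
    mul_le_mul_of_nonneg_right hk1 hv0
  have h3 : ((1 - ε / 4) * s - ε * s / 16) * (1 - ε / 4) ≤ (1 - ε) * s := by linarith
  have h4 : ((1 - ε / 4) * s - ε * s / 16) * (1 - ε / 4)
      = ((1 - 5 * ε / 16) * (1 - ε / 4)) * s := by ring
  rw [h4] at h3
  have h5 : (1 - 5 * ε / 16) * (1 - ε / 4) ≤ 1 - ε := le_of_mul_le_mul_right h3 hs0
  nlinarith [mul_pos hε hε]

theorem core (ε : ℝ) (hε : 0 < ε) (hε1 : ε ≤ 1) :
    ∃ s0 : ℕ, ∀ s t : ℕ, s0 ≤ s → 80 * (s : ℝ) ≤ ε * t →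
      ∃ N0 : ℕ, ∀ (V C : Type) [Fintype V] [Fintype C] (χ : V → V → C),
        (∀ u v, χ u v = χ v u) → Fintype.card C = t → N0 ≤ Fintype.card V →
          ¬ HH χ s (2 * (1 - ε) * ((s : ℝ) / t) * (Fintype.card V : ℝ)) := by
  obtain ⟨e, he⟩ : ∃ e : ℝ, e = ε / 20 := ⟨_, rfl⟩
  obtain ⟨a, ha⟩ : ∃ a : ℝ, a = ε / 64 := ⟨_, rfl⟩
  obtain ⟨b, hb⟩ : ∃ b : ℝ, b = a / 16 := ⟨_, rfl⟩
  obtain ⟨γ', hγ'⟩ : ∃ γ' : ℝ, γ' = a / 4 := ⟨_, rfl⟩
  obtain ⟨γ, hγ⟩ : ∃ γ : ℝ, γ = ε / 16 := ⟨_, rfl⟩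
  obtain ⟨lam, hlam⟩ : ∃ lam : ℝ, lam = 4 * b ^ 2 := ⟨_, rfl⟩
  obtain ⟨L, hL⟩ : ∃ L : ℝ, L = 64 / (e * a * b) + 512 / (ε * e * a) := ⟨_, rfl⟩
  have he0 : 0 < e := by rw [he]; positivity
  have ha0 : 0 < a := by rw [ha]; positivity
  have hb0 : 0 < b := by rw [hb]; positivity
  have hγ'0 : 0 < γ' := by rw [hγ']; positivity
  have hγ0 : 0 < γ := by rw [hγ]; positivity
  have hlam0 : 0 < lam := by rw [hlam]; positivity
  have hL0 : 0 < L := by rw [hL]; positivity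
  have hL1 : 64 ≤ L * (e * a * b) := by
    have h1 : 64 / (e * a * b) ≤ L := by
      rw [hL]; have : 0 < 512 / (ε * e * a) := by positivity
      linarith
    rwa [div_le_iff₀ (by positivity)] at h1
  have hL2 : 512 ≤ L * (ε * e * a) := by
    have h1 : 512 / (ε * e * a) ≤ L := by
      rw [hL]; have : 0 < 64 / (e * a * b) := by positivity
      linarith
    rwa [div_le_iff₀ (by positivity)] at h1
  obtain ⟨r, hr⟩ : ∃ r : ℕ, 2 * L / lam ≤ (r : ℝ) := exists_nat_ge _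
  obtain ⟨r', hr'⟩ : ∃ r' : ℕ, 4 / (b * e) ≤ (r' : ℝ) := exists_nat_ge _
  obtain ⟨s1, hs1⟩ : ∃ s1 : ℕ, 4 / e < (s1 : ℝ) := exists_nat_gt _
  obtain ⟨s2, hs2⟩ : ∃ s2 : ℕ, (r' : ℝ) / e ≤ (s2 : ℝ) := exists_nat_ge _
  obtain ⟨s3, hs3⟩ : ∃ s3 : ℕ, 16 / ε ≤ (s3 : ℝ) := exists_nat_ge _
  refine ⟨2 * r + s1 + s2 + s3 + 1, ?_⟩
  intro s t hs hst
  have hs1' : 1 ≤ s := by omega
  have hsr : 2 * r ≤ s := by omega
  have hsR : (0 : ℝ) < s := by exact_mod_cast hs1'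
  have hse4 : 4 < e * s := by
    have h1 : (s1 : ℝ) ≤ s := by exact_mod_cast (by omega : s1 ≤ s)
    have h2 : 4 / e < s := lt_of_lt_of_le hs1 h1
    rw [div_lt_iff₀ he0] at h2
    linarith [mul_comm (s : ℝ) e]
  have hser : (r' : ℝ) ≤ e * s := by
    have h1 : (s2 : ℝ) ≤ s := by exact_mod_cast (by omega : s2 ≤ s)
    have h2 : (r' : ℝ) / e ≤ s := le_trans hs2 h1
    rw [div_le_iff₀ he0] at h2
    linarith [mul_comm (s : ℝ) e]
  have hs16 : 16 ≤ ε * s := by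
    have h1 : (s3 : ℝ) ≤ s := by exact_mod_cast (by omega : s3 ≤ s)
    have h2 : 16 / ε ≤ s := le_trans hs3 h1
    rw [div_le_iff₀ hε] at h2
    linarith [mul_comm (s : ℝ) ε]
  have htR : (0 : ℝ) < t := by
    have h1 : 0 < ε * t := by nlinarith
    by_contra hcon
    push Not at hcon
    have : ε * t ≤ 0 := mul_nonpos_of_nonneg_of_nonpos hε.le hcon
    linarith
  obtain ⟨p, hp⟩ : ∃ p : ℝ, p = (s : ℝ) / t := ⟨_, rfl⟩
  have hp0 : 0 < p := by rw [hp]; positivity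
  have hpt : p * t = s := by rw [hp]; field_simp
  have hp80 : p ≤ ε / 80 := by
    rw [hp, div_le_iff₀ htR]; linarith
  obtain ⟨n1, hn1⟩ : ∃ n1 : ℕ, 1 / b ≤ (n1 : ℝ) := exists_nat_ge _
  obtain ⟨n2, hn2⟩ : ∃ n2 : ℕ, 3 / (2 * p) ≤ (n2 : ℝ) := exists_nat_ge _
  refine ⟨n1 + n2 + 1, ?_⟩
  intro V C _ _ χ hχ hC hN hH
  obtain ⟨N, hNdef⟩ : ∃ N : ℝ, N = (Fintype.card V : ℝ) := ⟨_, rfl⟩
  have hNpos : 0 < Fintype.card V := by omega
  have hN0 : 0 < N := by rw [hNdef]; exact_mod_cast hNpos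
  have hbN : 1 ≤ b * N := by
    have h1 : (n1 : ℝ) ≤ N := by rw [hNdef]; exact_mod_cast (by omega : n1 ≤ Fintype.card V)
    have h2 : 1 / b ≤ N := le_trans hn1 h1
    rw [div_le_iff₀ hb0] at h2
    linarith [mul_comm N b]
  have haN : 1 ≤ a * N := by
    have h1 : b ≤ a := by rw [hb]; linarith
    have h2 : b * N ≤ a * N := mul_le_mul_of_nonneg_right h1 hN0.le
    linarith
  have h3pN : 3 ≤ 2 * p * N := by
    have h1 : (n2 : ℝ) ≤ N := by rw [hNdef]; exact_mod_cast (by omega : n2 ≤ Fintype.card V)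
    have h2 : 3 / (2 * p) ≤ N := le_trans hn2 h1
    rw [div_le_iff₀ (by positivity)] at h2
    linarith [mul_comm N (2 * p)]
  obtain ⟨x, hx⟩ : ∃ x : ℝ, x = p * N := ⟨_, rfl⟩
  have hx0 : 0 < x := by rw [hx]; positivity
  obtain ⟨X, hX⟩ : ∃ X : ℝ, X = 2 * (1 - ε) * x := ⟨_, rfl⟩
  have hX0 : 0 ≤ X := by
    rw [hX]
    apply mul_nonneg _ hx0.le
    linarith
  have hX2 : X < 2 * x := by
    rw [hX]
    have : 0 < ε * x := by positivity
    linarith [show 2 * (1 - ε) * x = 2 * x - 2 * (ε * x) by ring]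
  have hH' : HH χ s X := by
    have : X = 2 * (1 - ε) * ((s : ℝ) / t) * (Fintype.card V : ℝ) := by
      rw [hX, hx, hp, hNdef]; ring
    rw [this]; exact hH
  obtain ⟨h, hh⟩ : ∃ h : ℝ, h = x / L := ⟨_, rfl⟩
  have hh0 : 0 < h := by rw [hh]; positivity
  have hhL : h * L = x := by rw [hh]; field_simp
  obtain ⟨κ, hκ⟩ : ∃ κ : ℝ, κ = lam * h := ⟨_, rfl⟩
  have hκ0 : 0 < κ := by rw [hκ]; positivity
  -- 1. removal
  have hrκ : X < r * κ := by
    have h1 : 2 * L ≤ r * lam := by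
      rw [div_le_iff₀ hlam0] at hr; exact hr
    have h2 : 2 * x ≤ r * κ := by
      have h3 : 2 * L * h ≤ r * lam * h := mul_le_mul_of_nonneg_right h1 hh0.le
      have h4 : 2 * L * h = 2 * x := by rw [← hhL]; ring
      have h5 : (r : ℝ) * κ = r * lam * h := by rw [hκ]; ring
      rw [h5, ← h4]; exact h3
    linarith
  obtain ⟨V1, hV1c, hV1⟩ := removal χ hχ s X κ hX0 hκ0 hH' r hrκ hsr
  -- 2. clumped pairs
  have hb1 : b ≤ 1 / 1024 := by rw [hb, ha]; linarith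
  have hκh : κ ≤ 2 * h := by
    rw [hκ]
    apply mul_le_mul_of_nonneg_right _ hh0.le
    rw [hlam]
    nlinarith
  have hcl0 := clumped_total χ hχ V1 κ h hh0 hκ0.le hV1 hκh
  have hV1N : (V1.card : ℝ) ≤ N := by
    rw [hNdef]; exact_mod_cast Finset.card_le_univ V1
  have hcl : (((V1 ×ˢ V1).filter (fun p : V × V => p.1 ≠ p.2 ∧ ¬ Lt χ V1 h p.1 p.2 ∧
      ¬ Lt χ V1 h p.2 p.1)).card : ℝ) ≤ lam * N ^ 2 := by
    have h1 : κ * (V1.card : ℝ) ^ 2 ≤ (lam * N ^ 2) * h := by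
      have h2 : (V1.card : ℝ) ^ 2 ≤ N ^ 2 := by
        apply pow_le_pow_left₀ (Nat.cast_nonneg _) hV1N
      have h3 : κ * (V1.card : ℝ) ^ 2 ≤ κ * N ^ 2 := mul_le_mul_of_nonneg_left h2 hκ0.le
      have h4 : κ * N ^ 2 = (lam * N ^ 2) * h := by rw [hκ]; ring
      linarith
    exact le_of_mul_le_mul_right (le_trans hcl0 h1) hh0
  have hlamb : lam ≤ 4 * b ^ 2 := by rw [hlam]
  have hlama : lam ≤ 4 * a ^ 2 := by
    rw [hlam]
    have h1 : b ≤ a := by rw [hb]; linarith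
    have h2 : b ^ 2 ≤ a ^ 2 := pow_le_pow_left₀ hb0.le h1 2
    linarith
  have hHa := few_clumpy V1 (fun u v => Lt χ V1 h u v) N a lam ha0 haN hlama hcl
  have hHb := few_clumpy V1 (fun u v => Lt χ V1 h u v) N b lam hb0 hbN hlamb hcl
  -- M
  obtain ⟨M, hM⟩ : ∃ M : ℕ, M = ⌈1 / (e * p)⌉₊ := ⟨_, rfl⟩
  have hep0 : 0 < e * p := mul_pos he0 hp0
  have hep1 : e * p ≤ 1 := by
    have h1 : e ≤ 1 := by rw [he]; linarith
    have h2 : p ≤ 1 := by linarith
    nlinarith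
  have hM1 : 1 / (e * p) ≤ (M : ℝ) := by rw [hM]; exact Nat.le_ceil _
  have hM1' : 1 ≤ (M : ℝ) * (e * p) := by
    rwa [div_le_iff₀ hep0] at hM1
  have hMR : (0 : ℝ) < M := lt_of_lt_of_le (by positivity) hM1
  have hM0 : 0 < M := by exact_mod_cast hMR
  have hM2 : (M : ℝ) * (e * p) ≤ 2 := by
    have h1 : (M : ℝ) < 1 / (e * p) + 1 := by
      rw [hM]; exact Nat.ceil_lt_add_one (by positivity)
    have h2 : (M : ℝ) * (e * p) ≤ (1 / (e * p) + 1) * (e * p) :=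
      mul_le_mul_of_nonneg_right h1.le hep0.le
    have h3 : (1 / (e * p) + 1) * (e * p) = 1 + e * p := by field_simp
    linarith
  have hMt : 2 * M < Fintype.card C := by
    rw [hC]
    have h1 : (2 * M : ℝ) < t := by
      have h2 : (M : ℝ) * (e * s) ≤ 2 * t := by
        have h3 : (M : ℝ) * (e * p) * t ≤ 2 * t := mul_le_mul_of_nonneg_right hM2 htR.le
        have h4 : (M : ℝ) * (e * p) * t = M * (e * s) := by rw [← hpt]; ring
        linarith
      have h5 : (M : ℝ) * 4 < M * (e * s) := mul_lt_mul_of_pos_left hse4 hMR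
      linarith
    exact_mod_cast h1
  have hhM : h * M * (L * e) ≤ 2 * N := by
    have h1 : h * M * (L * e) = (M * (e * p)) * N := by
      have : h * M * (L * e) = (h * L) * M * e := by ring
      rw [this, hhL, hx]; ring
    rw [h1]
    exact mul_le_mul_of_nonneg_right hM2 hN0.le
  have hγ'1 : 8 * h * M / (b * N) ≤ γ' := by
    rw [div_le_iff₀ (by positivity)]
    -- 8 h M ≤ γ' b N, multiply by L e > 0
    have h1 : (8 * h * M) * (L * e) ≤ (γ' * (b * N)) * (L * e) := by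
      have h2 : (8 * h * M) * (L * e) ≤ 16 * N := by
        have : (8 * h * M) * (L * e) = 8 * (h * M * (L * e)) := by ring
        rw [this]; linarith
      have h3 : (γ' * (b * N)) * (L * e) = (L * (e * a * b)) / 4 * N := by rw [hγ']; ring
      rw [h3]
      have h4 : 16 * N ≤ (L * (e * a * b)) / 4 * N := by
        apply mul_le_mul_of_nonneg_right _ hN0.le
        linarith
      linarith
    exact le_of_mul_le_mul_right h1 (by positivity)
  have hγ1 : 8 * h * M / (a / 2 * N) ≤ γ := by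
    rw [div_le_iff₀ (by positivity)]
    have h1 : (8 * h * M) * (L * e) ≤ (γ * (a / 2 * N)) * (L * e) := by
      have h2 : (8 * h * M) * (L * e) ≤ 16 * N := by
        have : (8 * h * M) * (L * e) = 8 * (h * M * (L * e)) := by ring
        rw [this]; linarith
      have h3 : (γ * (a / 2 * N)) * (L * e) = (L * (ε * e * a)) / 32 * N := by rw [hγ]; ring
      rw [h3]
      have h4 : 16 * N ≤ (L * (ε * e * a)) / 32 * N := by
        apply mul_le_mul_of_nonneg_right _ hN0.le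
        linarith
      linarith
    exact le_of_mul_le_mul_right h1 (by positivity)
  have hab : 4 * b + γ' ≤ a / 2 := by rw [hγ', hb]; linarith
  rw [hNdef] at hHa hHb hγ'1 hγ1
  obtain ⟨B, G, hBc, hGV1, hGc, hGy⟩ := two_rounds χ hχ V1 h a b γ γ' M hM0 hh0 ha0 hb0 hγ0 hγ'0
    hab hMt hNpos hHa hHb hγ'1 hγ1
  rw [← hNdef] at hGc hGy
  have hBe : (B.card : ℝ) ≤ 4 * (e * s) := by
    rw [hC] at hBc
    refine le_trans hBc ?_
    rw [div_le_iff₀ hMR]
    have h1 : 4 * (e * s) * M = 4 * t * (M * (e * p)) := by rw [← hpt]; ring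
    rw [h1]
    have : 4 * (t : ℝ) * 1 ≤ 4 * t * (M * (e * p)) :=
      mul_le_mul_of_nonneg_left hM1' (by positivity)
    linarith
  -- 4. join_comps
  have hy0 : 0 < b * N / M := by positivity
  have hry : X < r' * (b * N / M) := by
    have h1 : 4 ≤ r' * (b * e) := by
      rwa [div_le_iff₀ (by positivity)] at hr'
    have h2 : 2 * x ≤ r' * (b * N / M) := by
      have h3 : (r' : ℝ) * (b * N / M) = (r' * b * N) / M := by ring
      rw [h3, le_div_iff₀ hMR]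
      have h4 : 2 * x * M * e = 2 * N * (M * (e * p)) := by rw [hx]; ring
      have h5 : 2 * x * M * e ≤ 4 * N := by
        rw [h4]
        have : 2 * N * (M * (e * p)) ≤ 2 * N * 2 :=
          mul_le_mul_of_nonneg_left hM2 (by positivity)
        linarith
      have h6 : 4 * N ≤ (r' * b * N) * e := by
        have h7 : (r' * b * N) * e = (r' * (b * e)) * N := by ring
        rw [h7]
        exact mul_le_mul_of_nonneg_right h1 hN0.le
      exact le_of_mul_le_mul_right (le_trans h5 h6) he0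
    linarith
  have h5e : 5 * e ≤ 1 := by rw [he]; linarith
  have hBr : B.card + r' ≤ s := by
    have h1 : (B.card : ℝ) + r' ≤ s := by
      have : 5 * e * s ≤ 1 * s := mul_le_mul_of_nonneg_right h5e hsR.le
      linarith
    exact_mod_cast h1
  obtain ⟨J, hJc, hJL⟩ := join_comps χ hχ s X (b * N / M) hy0 hH' B G r' hX0 hry hBr hGy
  -- 5. greedy
  have hCpos : 0 < Fintype.card C := by omega
  obtain ⟨k, hk⟩ : ∃ k : ℕ, k = ⌊(1 - 5 * e) * s⌋₊ := ⟨_, rfl⟩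
  have h5es : 0 ≤ (1 - 5 * e) * s := mul_nonneg (by linarith) hsR.le
  have hk1 : (k : ℝ) ≤ (1 - 5 * e) * s := by rw [hk]; exact Nat.floor_le h5es
  have hk2 : (1 - 5 * e) * s - 1 ≤ k := by
    rw [hk]
    have := Nat.lt_floor_add_one ((1 - 5 * e) * s)
    linarith
  obtain ⟨S1, F, hS1, hF, hmin⟩ := greedy χ hχ s hs1' X hX0 hH' hCpos G (2 * x) (by positivity) k
  have hScard : (B ∪ J ∪ S1).card ≤ s := by
    have h1 : (B ∪ J ∪ S1).card ≤ B.card + J.card + S1.card :=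
      le_trans (Finset.card_union_le _ _) (by
        have := Finset.card_union_le B J
        omega)
    have h2 : (B.card : ℝ) + J.card + S1.card ≤ s := by
      have h3 : (J.card : ℝ) ≤ r' := by exact_mod_cast hJc
      have h4 : (S1.card : ℝ) ≤ k := by exact_mod_cast hS1
      linarith [show (1 - 5 * e) * (s : ℝ) = s - 5 * (e * s) by ring]
    have h3 : B.card + J.card + S1.card ≤ s := by exact_mod_cast h2
    omega
  have hLS : Lkd (EE χ (B ∪ J ∪ S1)) G :=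
    lkd_mono (EE_mono χ Finset.subset_union_left) (Finset.Subset.refl G) hJL
  have hFS : ArcsR (EE χ (B ∪ J ∪ S1)) G F :=
    arcs_mono (EE_mono χ Finset.subset_union_right) (Finset.Subset.refl G) hF
  have hFX : (F.card : ℝ) ≤ X := HH_arcs χ s X hH' _ hScard G hLS F hFS
  have hkey : (k : ℝ) * ((2 * (G.card : ℝ) - 4 * (2 * x) - 3 - X) / Fintype.card C) ≤ X := by
    rcases min_le_iff.mp (le_trans hmin hFX) with h1 | h1
    · linarith
    · exact h1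
  rw [hC] at hkey
  -- numerical contradiction
  have hG2 : 2 * N * (1 - 10 * p - 4 * a - γ) ≤ 2 * (G.card : ℝ) - 4 * (2 * x) - 3 - X := by
    rw [← hNdef] at hV1c
    have hxp : x = p * N := hx
    have h1 : N - 2 * X - (4 * a + γ) * N ≤ (G.card : ℝ) := by linarith
    have h2 : X ≤ 2 * x := hX2.le
    have h3 : 2 * N * (1 - 10 * p - 4 * a - γ)
        = 2 * (N - (4 * a + γ) * N) - 20 * (p * N) := by ring
    rw [h3, ← hxp]
    have h4 : 3 ≤ 2 * x := by rw [hxp]; linarith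
    linarith
  have hfin : (k : ℝ) * (1 - 10 * p - 4 * a - γ) ≤ (1 - ε) * s := by
    have h1 : (k : ℝ) * ((2 * N * (1 - 10 * p - 4 * a - γ)) / t) ≤ X := by
      refine le_trans ?_ hkey
      apply mul_le_mul_of_nonneg_left _ (Nat.cast_nonneg k)
      exact div_le_div_of_nonneg_right hG2 htR.le
    have h2 : (k : ℝ) * ((2 * N * (1 - 10 * p - 4 * a - γ)) / t)
        = (k * (1 - 10 * p - 4 * a - γ)) * (2 * N / t) := by ring
    have h3 : X = ((1 - ε) * s) * (2 * N / t) := by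
      rw [hX, hx, hp]; ring
    rw [h2, h3] at h1
    exact le_of_mul_le_mul_right h1 (by positivity)
  exact t16_final ε e a γ p s k hε hε1 he ha hγ hp80 hs16 hsR hk2 hfin

end PFU
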