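import Pool.Agent.LibPFU75.Defs

/-! Greedy embedding of a walk `l` of clusters.  Prove by induction on `l` the stronger
`aux`: for all `k l U Cand` with `(k :: l).IsChain R`, `U` (used vertices),
`∀ k' ∈ k :: l, (A k' ∩ U).card + (k :: l).count k' + θ ≤ (A k').card`, `Cand ⊆ A k \ U`,
`b < Cand.card`, there are vertices `v :: vs`, `v ∈ Cand`, nodup, all outside `U`, chain of
`G.Adj`, `vs.length = l.length`.  Step `l = k' :: l'`: `T = A k' \ U` has `≥ θ` elements;
by `hR` some `v ∈ Cand` has at least `τ > b` neighbours in `T`; use `U ∪ {v}` and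
`Cand' = ` these neighbours (`v ∉ A k'`, as `R k k'` implies `k ≠ k'`, disjointness). -/
namespace PFU
open Finset
open scoped Classical

theorem t17_aux {V ι : Type} (G : SimpleGraph V) (A : ι → Finset V) (R : ι → ι → Prop)
    (θ τ b : ℕ) (hτ : b < τ) (hne : ∀ k k', R k k' → k ≠ k')
    (hR : ∀ k k', R k k' → ∀ T ⊆ A k', θ ≤ T.card →
      ((A k).filter (fun u => (T.filter (fun v => G.Adj u v)).card < τ)).card ≤ b)
    (l : List ι) : ∀ (k : ι) (U Cand : Finset V),
    (∀ i ∈ k :: l, ∀ j ∈ k :: l, i ≠ j → Disjoint (A i) (A j)) →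
    (k :: l).IsChain R →
    (∀ i ∈ k :: l, (A i ∩ U).card + (k :: l).count i + θ ≤ (A i).card) →
    Cand ⊆ A k \ U → b < Cand.card →
    ∃ (v : V) (vs : List V), v ∈ Cand ∧ (v :: vs).Nodup ∧ (∀ x ∈ v :: vs, x ∉ U) ∧
      (v :: vs).IsChain G.Adj ∧ vs.length = l.length := by
  induction l with
  | nil =>
    intro k U Cand _ _ _ hCand hb
    obtain ⟨v, hv⟩ := Finset.card_pos.1 (show 0 < Cand.card by omega)
    refine ⟨v, [], hv, by simp, ?_, by simp, rfl⟩
    intro x hx
    rw [List.mem_singleton] at hx
    rw [hx]
    exact (Finset.mem_sdiff.1 (hCand hv)).2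
  | cons k' l ih =>
    intro k U Cand hdisj hchain hcount hCand hb
    rw [List.isChain_cons_cons] at hchain
    obtain ⟨hkk', hchain'⟩ := hchain
    have hk'mem : k' ∈ k :: k' :: l := by simp
    have hkmem : k ∈ k :: k' :: l := by simp
    have hT : θ ≤ (A k' \ U).card := by
      have h1 := hcount k' hk'mem
      have h2 := Finset.card_sdiff_add_card_inter (A k') U
      omega
    have hbad := hR k k' hkk' (A k' \ U) Finset.sdiff_subset hT
    -- a good vertex of `Cand`
    have hv : ∃ v ∈ Cand, τ ≤ ((A k' \ U).filter (fun w => G.Adj v w)).card := by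
      by_contra hcon
      push Not at hcon
      have : Cand ⊆ (A k).filter
          (fun u => ((A k' \ U).filter (fun v => G.Adj u v)).card < τ) := by
        intro v hv
        rw [Finset.mem_filter]
        exact ⟨(Finset.mem_sdiff.1 (hCand hv)).1, hcon v hv⟩
      have := Finset.card_le_card this
      omega
    obtain ⟨v, hvC, hvτ⟩ := hv
    have hvk : v ∈ A k := (Finset.mem_sdiff.1 (hCand hvC)).1
    have hvU : v ∉ U := (Finset.mem_sdiff.1 (hCand hvC)).2
    have hvk' : v ∉ A k' := Finset.disjoint_left.1 (hdisj k hkmem k' hk'mem (hne k k' hkk')) hvk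
    obtain ⟨v', vs, hv'C, hnd, hout, hch, hlen⟩ := ih k' (insert v U)
      ((A k' \ U).filter (fun w => G.Adj v w))
      (fun i hi j hj hij => hdisj i (List.mem_cons_of_mem _ hi) j (List.mem_cons_of_mem _ hj) hij)
      hchain' (by
        intro i hi
        have h1 := hcount i (List.mem_cons_of_mem _ hi)
        by_cases hik : i = k
        · subst hik
          rw [List.count_cons_self] at h1
          have h2 : (A i ∩ insert v U).card ≤ (A i ∩ U).card + 1 := by
            have : A i ∩ insert v U ⊆ insert v (A i ∩ U) := by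
              intro x hx
              simp only [Finset.mem_inter, Finset.mem_insert] at hx ⊢
              tauto
            exact (Finset.card_le_card this).trans (Finset.card_insert_le _ _)
          omega
        · rw [List.count_cons_of_ne (Ne.symm hik)] at h1
          have h2 : A i ∩ insert v U = A i ∩ U := by
            ext x
            simp only [Finset.mem_inter, Finset.mem_insert]
            constructor
            · rintro ⟨hx, rfl | hxU⟩
              · exact absurd hx (Finset.disjoint_left.1
                  (hdisj k hkmem i (List.mem_cons_of_mem _ hi) (Ne.symm hik)) hvk)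
              · exact ⟨hx, hxU⟩
            · rintro ⟨hx, hxU⟩
              exact ⟨hx, Or.inr hxU⟩
          rw [h2]
          omega)
      (by
        intro w hw
        obtain ⟨hw1, hw2⟩ := Finset.mem_filter.1 hw
        obtain ⟨hw3, hw4⟩ := Finset.mem_sdiff.1 hw1
        rw [Finset.mem_sdiff, Finset.mem_insert]
        refine ⟨hw3, ?_⟩
        rintro (rfl | h)
        · exact hvk' hw3
        · exact hw4 h)
      (by omega)
    have hadj : G.Adj v v' := (Finset.mem_filter.1 hv'C).2
    refine ⟨v, v' :: vs, hvC, ?_, ?_, ?_, ?_⟩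
    · rw [List.nodup_cons]
      refine ⟨fun h => ?_, hnd⟩
      exact hout v h (Finset.mem_insert_self _ _)
    · intro x hx
      rw [List.mem_cons] at hx
      rcases hx with rfl | hx
      · exact hvU
      · exact fun h => hout x hx (Finset.mem_insert_of_mem h)
    · rw [List.isChain_cons_cons]
      exact ⟨hadj, hch⟩
    · simp [hlen]

theorem embed {V ι : Type} (G : SimpleGraph V) (A : ι → Finset V) (R : ι → ι → Prop)
    (θ τ b : ℕ) (hτ : b < τ) (hθ : b ≤ θ) (hne : ∀ k k', R k k' → k ≠ k')
    (hR : ∀ k k', R k k' → ∀ T ⊆ A k', θ ≤ T.card →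
      ((A k).filter (fun u => (T.filter (fun v => G.Adj u v)).card < τ)).card ≤ b)
    (l : List ι) (hdisj : ∀ k ∈ l, ∀ k' ∈ l, k ≠ k' → Disjoint (A k) (A k'))
    (hl : l.IsChain R) (hcount : ∀ k ∈ l, l.count k + θ ≤ (A k).card) :
    ∃ vs : List V, vs.Nodup ∧ vs.IsChain G.Adj ∧ vs.length = l.length := by
  cases l with
  | nil => exact ⟨[], by simp, by simp, rfl⟩
  | cons k l =>
    have h1 := hcount k (by simp)
    rw [List.count_cons_self] at h1
    obtain ⟨v, vs, -, hnd, -, hch, hlen⟩ := t17_aux G A R θ τ b hτ hne hR l k ∅ (A k) hdisj hl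
      (by
        intro i hi
        have := hcount i hi
        simpa using this)
      (by simp) (by omega)
    exact ⟨v :: vs, hnd, hch, by simp [hlen]⟩

end PFU
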