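import Pool.Agent.LibPFU75.T01

/-! A walk running `T` times back and forth along each arc.  Induction on `F` (as a finset or
list): the walk for `F` ends in some `e ∈ D`; go from its end to `x = e'.1` along a chain without
repetition (each element counted at most once; `ReflTransGen` gives a list chain, shorten it to a
nodup one), then `x, y, x, y, …` (`T` times each, `y = e'.2`).  An element `k` is counted at most
`1` time per connection, `T` times if `k` is the tail of an arc and `T` times if it is the head of
an arc: `≤ |F| + 2T`. -/
namespace PFU
open Finset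
open scoped Classical

/-- `T` times `a, b` -/
def t18_alt {ι : Type} (a b : ι) : ℕ → List ι
  | 0 => []
  | T + 1 => a :: b :: t18_alt a b T

theorem t18_len {ι : Type} (a b : ι) (T : ℕ) : (t18_alt a b T).length = 2 * T := by
  induction T with
  | zero => rfl
  | succ T ih =>
    rw [t18_alt, List.length_cons, List.length_cons, ih]
    ring

theorem t18_mem {ι : Type} (a b : ι) (T : ℕ) : ∀ k ∈ t18_alt a b T, k = a ∨ k = b := by
  induction T with
  | zero => intro k hk; simp [t18_alt] at hk
  | succ T ih =>
    intro k hk
    rw [t18_alt, List.mem_cons, List.mem_cons] at hk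
    rcases hk with h | h | h
    · exact Or.inl h
    · exact Or.inr h
    · exact ih k h

theorem t18_count {ι : Type} (a b k : ι) (T : ℕ) :
    (t18_alt a b T).count k ≤ (if k = a then T else 0) + (if k = b then T else 0) := by
  induction T with
  | zero => simp [t18_alt]
  | succ T ih =>
    rw [t18_alt, List.count_cons, List.count_cons]
    have h1 : (if (b == k) = true then 1 else 0) = (if k = b then 1 else 0) := by
      by_cases h : k = b
      · simp [h]
      · have h' : ¬ (b == k) = true := by simpa using fun h2 : b = k => h h2.symm
        rw [if_neg h, if_neg h']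
    have h2 : (if (a == k) = true then 1 else 0) = (if k = a then 1 else 0) := by
      by_cases h : k = a
      · simp [h]
      · have h' : ¬ (a == k) = true := by simpa using fun h2 : a = k => h h2.symm
        rw [if_neg h, if_neg h']
    rw [h1, h2]
    split_ifs at ih ⊢ <;> omega

theorem t18_chain {ι : Type} (E : ι → ι → Prop) (a b : ι) (hab : E a b) (hba : E b a) (T : ℕ)
    (r : List ι) (hr : (b :: r).IsChain E) : (b :: (t18_alt a b T ++ r)).IsChain E := by
  induction T with
  | zero => exact hr
  | succ T ih =>
    rw [t18_alt, List.cons_append, List.cons_append]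
    exact List.IsChain.cons_cons hba (List.IsChain.cons_cons hab ih)

theorem t18_path {ι : Type} (E : ι → ι → Prop) (x h : ι)
    (hxh : Relation.ReflTransGen E x h) :
    ∃ p : List ι, (x :: p).IsChain E ∧ (x :: p).Nodup ∧ (x :: p).getLast? = some h := by
  induction hxh using Relation.ReflTransGen.head_induction_on with
  | refl => exact ⟨[], by simp, by simp, by simp⟩
  | @head a c hac _ ih =>
    obtain ⟨p, hp1, hp2, hp3⟩ := ih
    by_cases ha : a ∈ c :: p
    · -- shorten
      obtain ⟨s, t, hst⟩ := List.append_of_mem ha
      refine ⟨t, ?_, ?_, ?_⟩
      · rw [hst] at hp1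
        exact (List.isChain_append.1 hp1).2.1
      · rw [hst] at hp2
        exact (List.nodup_append.1 hp2).2.1
      · rw [hst, List.getLast?_append] at hp3
        rw [List.getLast?_cons] at hp3 ⊢
        simpa using hp3
    · refine ⟨c :: p, List.IsChain.cons_cons hac hp1, ?_, ?_⟩
      · rw [List.nodup_cons]
        exact ⟨ha, hp2⟩
      · rw [List.getLast?_cons_cons]
        exact hp3

theorem t18_reach {ι : Type} (E : ι → ι → Prop) (p : List ι) :
    ∀ x : ι, (x :: p).IsChain E → ∀ k ∈ x :: p, Relation.ReflTransGen E x k := by
  induction p with
  | nil =>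
    intro x _ k hk
    rw [List.mem_singleton] at hk
    rw [hk]
  | cons a p ih =>
    intro x hx k hk
    rw [List.isChain_cons_cons] at hx
    rw [List.mem_cons] at hk
    rcases hk with hk | hk
    · rw [hk]
    · exact Relation.ReflTransGen.head hx.1 (ih a hx.2 k hk)

theorem t18_main {ι : Type} (E : ι → ι → Prop) (hE : ∀ a b, E a b → E b a) (D : Finset ι)
    (hD : Lkd E D) (T : ℕ) (hT : 1 ≤ T) (F : Finset (ι × ι)) :
    ArcsR E D F → ∃ l : List ι, l.IsChain E ∧ 2 * T * F.card ≤ l.length ∧
      (∀ k, l.count k ≤ F.card + (if k ∈ F.image Prod.fst then T else 0) +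
        (if k ∈ F.image Prod.snd then T else 0)) ∧
      (∀ k ∈ l, ∃ e ∈ F, Relation.ReflTransGen E e.1 k) ∧
      (∀ h t, l = h :: t → h ∈ D) := by
  induction F using Finset.induction_on with
  | empty =>
    intro _
    refine ⟨[], by simp, by simp, by simp, by simp, by simp⟩
  | @insert e F' he ih =>
    intro hF
    have hF' : ArcsR E D F' :=
      ⟨fun f hf => hF.fst f (Finset.mem_insert_of_mem hf),
        fun f hf => hF.snd f (Finset.mem_insert_of_mem hf),
        fun f hf => hF.rel f (Finset.mem_insert_of_mem hf),
        fun f hf g hg => hF.inj1 f (Finset.mem_insert_of_mem hf) g (Finset.mem_insert_of_mem hg),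
        fun f hf g hg => hF.inj2 f (Finset.mem_insert_of_mem hf) g (Finset.mem_insert_of_mem hg)⟩
    obtain ⟨l', hl1, hl2, hl3, hl4, hl5⟩ := ih hF'
    obtain ⟨x, y⟩ := e
    have heF : (x, y) ∈ insert (x, y) F' := Finset.mem_insert_self _ _
    have hxD : x ∈ D := hF.fst _ heF
    have hyD : y ∈ D := hF.snd _ heF
    have hxy : E x y := hF.rel _ heF
    have hyx : E y x := hE _ _ hxy
    have hx1 : x ∉ F'.image Prod.fst := by
      intro hx
      rw [Finset.mem_image] at hx
      obtain ⟨f, hf, hfx⟩ := hx
      have := hF.inj1 _ heF f (Finset.mem_insert_of_mem hf) hfx.symm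
      rw [this] at he
      exact he hf
    have hy1 : y ∉ F'.image Prod.snd := by
      intro hy
      rw [Finset.mem_image] at hy
      obtain ⟨f, hf, hfy⟩ := hy
      have := hF.inj2 _ heF f (Finset.mem_insert_of_mem hf) hfy.symm
      rw [this] at he
      exact he hf
    have hcount : ∀ (l : List ι), (∀ k, l.count k ≤ (if k = x then T else 0) +
        (if k = y then T else 0) + 1 + l'.count k) → ∀ k, l.count k ≤ (insert (x, y) F').card +
        (if k ∈ (insert (x, y) F').image Prod.fst then T else 0) +
        (if k ∈ (insert (x, y) F').image Prod.snd then T else 0) := by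
      intro l hl k
      have h1 := hl k
      have h2 := hl3 k
      have hm1 : k ∈ (insert (x, y) F').image Prod.fst ↔ k = x ∨ k ∈ F'.image Prod.fst := by
        rw [Finset.image_insert, Finset.mem_insert]
      have hm2 : k ∈ (insert (x, y) F').image Prod.snd ↔ k = y ∨ k ∈ F'.image Prod.snd := by
        rw [Finset.image_insert, Finset.mem_insert]
      have e1 : (if k ∈ (insert (x, y) F').image Prod.fst then T else 0) =
          (if k = x then T else 0) + (if k ∈ F'.image Prod.fst then T else 0) := by
        by_cases hkx : k = x
        · have h3 : k ∉ F'.image Prod.fst := by rw [hkx]; exact hx1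
          rw [if_pos (hm1.2 (Or.inl hkx)), if_pos hkx, if_neg h3, add_zero]
        · by_cases h4 : k ∈ F'.image Prod.fst
          · rw [if_pos (hm1.2 (Or.inr h4)), if_neg hkx, if_pos h4, zero_add]
          · rw [if_neg (fun h => (hm1.1 h).elim hkx h4), if_neg hkx, if_neg h4]
      have e2 : (if k ∈ (insert (x, y) F').image Prod.snd then T else 0) =
          (if k = y then T else 0) + (if k ∈ F'.image Prod.snd then T else 0) := by
        by_cases hky : k = y
        · have h3 : k ∉ F'.image Prod.snd := by rw [hky]; exact hy1
          rw [if_pos (hm2.2 (Or.inl hky)), if_pos hky, if_neg h3, add_zero]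
        · by_cases h4 : k ∈ F'.image Prod.snd
          · rw [if_pos (hm2.2 (Or.inr h4)), if_neg hky, if_pos h4, zero_add]
          · rw [if_neg (fun h => (hm2.1 h).elim hky h4), if_neg hky, if_neg h4]
      rw [Finset.card_insert_of_notMem he, e1, e2]
      omega
    have hcard : (insert (x, y) F').card = F'.card + 1 := Finset.card_insert_of_notMem he
    have hhead : ∀ (a b : ι), a ∈ D → ∀ r : List ι, ∀ h t, t18_alt a b T ++ r = h :: t → h ∈ D := by
      intro a b ha r h t hht
      obtain ⟨T', rfl⟩ : ∃ T', T = T' + 1 := ⟨T - 1, by omega⟩
      rw [t18_alt, List.cons_append] at hht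
      injection hht with h1 _
      rw [← h1]
      exact ha
    cases l' with
    | nil =>
      refine ⟨t18_alt x y T ++ [], ?_, ?_, ?_, ?_, hhead x y hxD []⟩
      · exact (t18_chain E x y hxy hyx T [] (by simp)).tail
      · rw [hcard, List.length_append, t18_len]
        have h1 : 2 * T * F'.card ≤ 0 := by simpa using hl2
        rw [Nat.mul_add, mul_one]
        omega
      · apply hcount
        intro k
        rw [List.count_append]
        have := t18_count x y k T
        simp only [List.count_nil, add_zero]
        omega
      · intro k hk
        rw [List.append_nil] at hk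
        refine ⟨(x, y), heF, ?_⟩
        rcases t18_mem x y T k hk with h | h
        · rw [h]
        · rw [h]
          exact Relation.ReflTransGen.single hxy
    | cons h t =>
      by_cases hxh : x = h
      · refine ⟨t18_alt x y T ++ (h :: t), ?_, ?_, ?_, ?_, hhead x y hxD _⟩
        · refine (t18_chain E x y hxy hyx T (h :: t) ?_).tail
          rw [← hxh] at hl1 ⊢
          exact List.IsChain.cons_cons hyx hl1
        · rw [hcard, List.length_append, t18_len, Nat.mul_add, mul_one]
          omega
        · apply hcount
          intro k
          rw [List.count_append]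
          have := t18_count x y k T
          omega
        · intro k hk
          rw [List.mem_append] at hk
          rcases hk with hk | hk
          · refine ⟨(x, y), heF, ?_⟩
            rcases t18_mem x y T k hk with h | h
            · rw [h]
            · rw [h]
              exact Relation.ReflTransGen.single hxy
          · obtain ⟨f, hf, hfk⟩ := hl4 k hk
            exact ⟨f, Finset.mem_insert_of_mem hf, hfk⟩
      · have hhD : h ∈ D := hl5 h t rfl
        obtain ⟨p, hp1, hp2, hp3⟩ := t18_path E x h (hD x hxD h hhD)
        have hpne : 1 ≤ p.length := by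
          cases p with
          | nil =>
            rw [List.getLast?_singleton, Option.some_inj] at hp3
            exact absurd hp3 hxh
          | cons a q =>
            rw [List.length_cons]
            omega
        have hch : (x :: (p ++ t)).IsChain E := by
          rw [← List.cons_append, List.isChain_append]
          refine ⟨hp1, ?_, ?_⟩
          · exact hl1.tail
          · intro a ha b hb
            rw [hp3, Option.mem_some_iff] at ha
            subst ha
            cases t with
            | nil => simp at hb
            | cons c q =>
              rw [List.head?_cons, Option.mem_some_iff] at hb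
              subst hb
              rw [List.isChain_cons_cons] at hl1
              exact hl1.1
        refine ⟨t18_alt y x T ++ (p ++ t), ?_, ?_, ?_, ?_, hhead y x hyD _⟩
        · exact (t18_chain E y x hyx hxy T (p ++ t) hch).tail
        · rw [hcard, List.length_append, t18_len, List.length_append, Nat.mul_add, mul_one]
          rw [List.length_cons] at hl2
          omega
        · apply hcount
          intro k
          rw [List.count_append, List.count_append]
          have h1 := t18_count y x k T
          have h2 : p.count k ≤ 1 := List.nodup_iff_count_le_one.1 (List.nodup_cons.1 hp2).2 k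
          have h3 : t.count k ≤ (h :: t).count k := by
            rw [List.count_cons]
            omega
          omega
        · intro k hk
          rw [List.mem_append, List.mem_append] at hk
          rcases hk with hk | hk | hk
          · refine ⟨(x, y), heF, ?_⟩
            rcases t18_mem y x T k hk with h | h
            · rw [h]
              exact Relation.ReflTransGen.single hxy
            · rw [h]
          · exact ⟨(x, y), heF, t18_reach E p x hp1 k (List.mem_cons_of_mem _ hk)⟩
          · obtain ⟨f, hf, hfk⟩ := hl4 k (List.mem_cons_of_mem _ hk)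
            exact ⟨f, Finset.mem_insert_of_mem hf, hfk⟩

theorem walk_arcs {ι : Type} (E : ι → ι → Prop) (hE : ∀ a b, E a b → E b a) (D : Finset ι)
    (hD : Lkd E D) (F : Finset (ι × ι)) (hF : ArcsR E D F) (T : ℕ) :
    ∃ l : List ι, l.IsChain E ∧ 2 * T * F.card ≤ l.length ∧
      (∀ k, l.count k ≤ F.card + 2 * T) ∧
      (∀ k ∈ l, ∃ e ∈ F, Relation.ReflTransGen E e.1 k) := by
  rcases Nat.eq_zero_or_pos T with hT | hT
  · refine ⟨[], by simp, by simp [hT], by simp, by simp⟩
  · obtain ⟨l, h1, h2, h3, h4, _⟩ := t18_main E hE D hD T hT F hF
    refine ⟨l, h1, h2, ?_, h4⟩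
    intro k
    have h5 := h3 k
    have h6 : (if k ∈ F.image Prod.fst then T else 0) ≤ T := by split_ifs <;> omega
    have h7 : (if k ∈ F.image Prod.snd then T else 0) ≤ T := by split_ifs <;> omega
    omega

end PFU
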