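import Pool.Agent.LibPFU75.Defs

/-! If the set `X` on the left had more than `ε |A|` elements, `IsUniform` for `X ⊆ A`, `T ⊆ B`
gives `edgeDensity X T > edgeDensity A B - ε ≥ d - ε`, but counting the edges from `X` to `T` gives
`edgeDensity X T < d - ε` (or `≤`). -/
namespace PFU
open Finset
open scoped Classical

private theorem t19_card {V : Type} (G : SimpleGraph V) (X T : Finset V) :
    ((G.interedges X T).card : ℝ) = ∑ u ∈ X, ((T.filter (fun v => G.Adj u v)).card : ℝ) := by
  have h : (G.interedges X T).card = ∑ u ∈ X, (T.filter (fun v => G.Adj u v)).card := by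
    unfold SimpleGraph.interedges Rel.interedges
    rw [card_filter, sum_product]
    exact sum_congr rfl fun u _ => (card_filter _ _).symm
  rw [h]
  push_cast
  rfl

theorem uniform_expand {V : Type} [Fintype V] (G : SimpleGraph V) (A B : Finset V) (ε d : ℝ)
    (hε : 0 < ε) (hu : G.IsUniform ε A B) (hd : d ≤ (G.edgeDensity A B : ℝ)) (T : Finset V)
    (hT : T ⊆ B) (hTB : ε * B.card ≤ (T.card : ℝ)) (hT0 : 0 < T.card) :
    ((A.filter (fun u => ((T.filter (fun v => G.Adj u v)).card : ℝ) <
      (d - ε) * T.card)).card : ℝ) ≤ ε * A.card := by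
  by_contra hcon
  rw [not_le] at hcon
  set X := A.filter (fun u => ((T.filter (fun v => G.Adj u v)).card : ℝ) <
    (d - ε) * T.card) with hX
  have hX0 : (0 : ℝ) < X.card := lt_of_le_of_lt (by positivity) hcon
  have hXn : X.Nonempty := by
    rw [← card_pos]
    exact_mod_cast hX0
  have hT0' : (0 : ℝ) < T.card := by exact_mod_cast hT0
  have h1 := hu (filter_subset _ _ : X ⊆ A) hT (by rw [mul_comm]; exact hcon.le)
    (by rw [mul_comm]; exact hTB)
  have h2 := (abs_lt.1 h1).1
  have h3 : (G.edgeDensity X T : ℝ) = ((G.interedges X T).card : ℝ) / (X.card * T.card) := by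
    rw [SimpleGraph.edgeDensity_def]
    push_cast
    rfl
  have h4 : ((G.interedges X T).card : ℝ) < X.card * ((d - ε) * T.card) := by
    rw [t19_card]
    have h5 : ∑ u ∈ X, ((T.filter (fun v => G.Adj u v)).card : ℝ) <
        ∑ _u ∈ X, (d - ε) * T.card :=
      sum_lt_sum_of_nonempty hXn fun u hu' => (mem_filter.1 hu').2
    rw [sum_const, nsmul_eq_mul] at h5
    exact h5
  have h6 : (G.edgeDensity X T : ℝ) < d - ε := by
    rw [h3, div_lt_iff₀ (mul_pos hX0 hT0')]
    calc ((G.interedges X T).card : ℝ) < X.card * ((d - ε) * T.card) := h4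
      _ = (d - ε) * (X.card * T.card) := by ring
  linarith

end PFU
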