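import Pool.Agent.LibPFU75.Defs

/-! The set is contained in the union of: pairs in the same part
(`Finpartition.IsEquipartition.card_biUnion_offDiag_le`, `≤ δ/2 n^2`), pairs in non-uniform pairs of
parts (`Finpartition.IsEquipartition.sum_nonUniforms_lt`, `< 4 ε n^2`) and edges in pairs of parts
of density `< d` (`Finpartition.IsEquipartition.card_interedges_sparsePairs_le`, `≤ 4 d n^2`).
Compare `SimpleGraph.unreduced_edges_subset` and `SimpleGraph.regularityReduced_edges_card_aux`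
in Mathlib. -/
namespace PFU
open Finset
open scoped Classical

theorem bad_count {V : Type} [Fintype V] [Nonempty V] (G : SimpleGraph V)
    (P : Finpartition (univ : Finset V)) (hP : P.IsEquipartition) (ε d δ : ℝ) (hε : 0 < ε)
    (hd : 0 ≤ d) (hδ : 0 < δ) (hu : P.IsUniform G ε) (hl : 4 / δ ≤ (P.parts.card : ℝ))
    (hsum : 4 * ε + δ / 2 + 4 * d ≤ δ) :
    (((univ : Finset (V × V)).filter (fun p => G.Adj p.1 p.2 ∧
      ¬ ∃ A B, p.1 ∈ A ∧ p.2 ∈ B ∧ RR G P ε d A B)).card : ℝ) ≤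
        δ * (Fintype.card V : ℝ) ^ 2 := by
  have hsub : ((univ : Finset (V × V)).filter (fun p => G.Adj p.1 p.2 ∧
      ¬ ∃ A B, p.1 ∈ A ∧ p.2 ∈ B ∧ RR G P ε d A B)) ⊆
      ((P.nonUniforms G ε).biUnion (fun q => q.1 ×ˢ q.2) ∪ P.parts.biUnion offDiag) ∪
        (P.sparsePairs G d).biUnion (fun q => G.interedges q.1 q.2) := by
    rintro ⟨x, y⟩ hxy
    rw [mem_filter] at hxy
    obtain ⟨-, h, hn⟩ := hxy
    simp only at h hn
    obtain ⟨A, hA, hx⟩ := P.exists_mem (mem_univ x)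
    obtain ⟨B, hB, hy⟩ := P.exists_mem (mem_univ y)
    rw [mem_union, mem_union]
    by_cases hAB : A = B
    · subst hAB
      refine Or.inl (Or.inr (mem_biUnion.2 ⟨A, hA, ?_⟩))
      rw [mem_offDiag]
      exact ⟨hx, hy, G.ne_of_adj h⟩
    by_cases hU : G.IsUniform ε A B
    · refine Or.inr (mem_biUnion.2 ⟨(A, B), ?_, ?_⟩)
      · rw [Finpartition.mk_mem_sparsePairs]
        refine ⟨hA, hB, hAB, ?_⟩
        by_contra hd'
        exact hn ⟨A, B, hx, hy, hA, hB, hAB, hU, not_lt.1 hd'⟩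
      · rw [SimpleGraph.mem_interedges_iff]
        exact ⟨hx, hy, h⟩
    · refine Or.inl (Or.inl (mem_biUnion.2 ⟨(A, B), ?_, ?_⟩))
      · rw [P.mk_mem_nonUniforms]
        exact ⟨hA, hB, hAB, hU⟩
      · exact mem_product.2 ⟨hx, hy⟩
  have h1 := hP.sum_nonUniforms_lt (univ_nonempty (α := V)) hε hu
  have h2 := hP.card_biUnion_offDiag_le hδ hl
  have h3 := hP.card_interedges_sparsePairs_le (G := G) (ε := d) hd
  have hc := card_le_card hsub
  have hc2 := card_union_le ((P.nonUniforms G ε).biUnion (fun q => q.1 ×ˢ q.2) ∪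
    P.parts.biUnion offDiag) ((P.sparsePairs G d).biUnion (fun q => G.interedges q.1 q.2))
  have hc3 := card_union_le ((P.nonUniforms G ε).biUnion (fun q => q.1 ×ˢ q.2))
    (P.parts.biUnion offDiag)
  have hc' : (((univ : Finset (V × V)).filter (fun p => G.Adj p.1 p.2 ∧
      ¬ ∃ A B, p.1 ∈ A ∧ p.2 ∈ B ∧ RR G P ε d A B)).card : ℝ) ≤
      (((P.nonUniforms G ε).biUnion (fun q => q.1 ×ˢ q.2)).card : ℝ) +
        ((P.parts.biUnion offDiag).card : ℝ) +
        (((P.sparsePairs G d).biUnion (fun q => G.interedges q.1 q.2)).card : ℝ) := by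
    exact_mod_cast hc.trans (hc2.trans (Nat.add_le_add_right hc3 _))
  rw [card_univ] at h1 h2 h3
  have hn2 : (0 : ℝ) ≤ (Fintype.card V : ℝ) ^ 2 := by positivity
  nlinarith [h1, h2, h3, hc', mul_le_mul_of_nonneg_right hsum hn2]

end PFU
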