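import Pool.Agent.LibPFU75.T17
import Pool.Agent.LibPFU75.T18
import Pool.Agent.LibPFU75.T19

/-! Let `ε2 = d η/8`, `n = |V|`, `K = |P.parts| ≤ K0`, `c = ⌊n/K⌋`; every part has `c` or `c+1`
elements.  If `F = ∅` take `l = []`.  Otherwise: `T = ⌊(1 - 3η/4) c/2⌋`, `θ = ⌊(η/2) c⌋`,
`b = ⌊ε2 (c+1)⌋`, `τ = ⌊(d - ε2) θ⌋`.  For `n ≥ n0(η, d, K0)` (so `c` large): `b < τ`
(`(d - ε2) θ ≥ (7/8) d ((η/2) c - 1)`, `ε2 (c+1) = d η (c+1)/8`), `b ≤ θ`, `θ ≥ ε2 (c+1)`,
`K0 + 2T + θ ≤ c`.  `walk_arcs` (relation `RR G P ε2 d`, symmetric, `|F| ≤ |D| ≤ K`) gives a walk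
of parts; every element of it is in `P.parts` (it is linked to `e.1 ∈ D ⊆ P.parts` by `RR`).
`embed` with `A = id`, `ι = Finset V`, `R = RR G P ε2 d`; `hR` from `uniform_expand`.
Length `≥ 2 T |F| ≥ ((1 - 3η/4) c - 2)|F|`, `c ≥ n/K - 1`, so `≥ (1-η)(n/K)|F|` if
`3 ≤ (η/4)(n/K)`. -/
namespace PFU
open Finset
open scoped Classical

theorem t21_symm {V : Type} [Fintype V] (G : SimpleGraph V) (P : Finpartition (univ : Finset V))
    (ε d : ℝ) (A B : Finset V) (h : RR G P ε d A B) : RR G P ε d B A := by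
  obtain ⟨h1, h2, h3, h4, h5⟩ := h
  exact ⟨h2, h1, h3.symm, h4.symm, by rwa [G.edgeDensity_comm]⟩

theorem reduced_path (η d : ℝ) (hη : 0 < η) (hη1 : η ≤ 1) (hd : 0 < d) (hd1 : d ≤ 1) (K0 : ℕ) :
    ∃ n0 : ℕ, ∀ (V : Type) [Fintype V] (G : SimpleGraph V) (P : Finpartition (univ : Finset V)),
      n0 ≤ Fintype.card V → P.IsEquipartition → P.parts.card ≤ K0 →
      ∀ D : Finset (Finset V), D ⊆ P.parts → Lkd (RR G P (d * η / 8) d) D →
      ∀ F : Finset (Finset V × Finset V), ArcsR (RR G P (d * η / 8) d) D F →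
        ∃ l : List V, l.Nodup ∧ l.IsChain G.Adj ∧
          (1 - η) * F.card * ((Fintype.card V : ℝ) / P.parts.card) ≤ (l.length : ℝ) := by
  set Cn : ℕ := ⌈12 / η⌉₊ + ⌈7 / (d * η)⌉₊ + ⌈4 * K0 / η⌉₊ with hCn
  refine ⟨Cn * K0, ?_⟩
  intro V _ G P hn hP hK D hD hL F hF
  rcases F.eq_empty_or_nonempty with rfl | hFne
  · exact ⟨[], by simp, by simp, by simp⟩
  obtain ⟨e0, he0⟩ := hFne
  have hKpos : 0 < P.parts.card := Finset.card_pos.mpr ⟨e0.1, hD (hF.fst e0 he0)⟩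
  set K := P.parts.card with hKdef
  set n := Fintype.card V with hndef
  set c : ℕ := n / K with hc
  have hKR : (0 : ℝ) < K := by exact_mod_cast hKpos
  have hcC : Cn ≤ c := by
    rw [hc, Nat.le_div_iff_mul_le hKpos]
    exact (Nat.mul_le_mul_left _ hK).trans hn
  have hcR : (Cn : ℝ) ≤ c := by exact_mod_cast hcC
  have hCnR : (Cn : ℝ) = (⌈12 / η⌉₊ : ℝ) + (⌈7 / (d * η)⌉₊ : ℝ) + (⌈4 * K0 / η⌉₊ : ℝ) := by
    rw [hCn]; push_cast; ring
  have h12 : 12 / η ≤ (⌈12 / η⌉₊ : ℝ) := Nat.le_ceil _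
  have h7 : 7 / (d * η) ≤ (⌈7 / (d * η)⌉₊ : ℝ) := Nat.le_ceil _
  have h4 : 4 * K0 / η ≤ (⌈4 * K0 / η⌉₊ : ℝ) := Nat.le_ceil _
  have hdη : 0 < d * η := mul_pos hd hη
  have p12 : 0 ≤ 12 / η := by positivity
  have p7 : 0 ≤ 7 / (d * η) := by positivity
  have p4 : 0 ≤ 4 * (K0 : ℝ) / η := by positivity
  have c12 : 12 ≤ η * c := by
    have : 12 / η ≤ c := by linarith
    rw [div_le_iff₀ hη] at this
    linarith
  have c7 : 7 ≤ d * η * c := by
    have : 7 / (d * η) ≤ c := by linarith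
    rw [div_le_iff₀ hdη] at this
    linarith
  have c4 : 4 * (K0 : ℝ) ≤ η * c := by
    have : 4 * (K0 : ℝ) / η ≤ c := by linarith
    rw [div_le_iff₀ hη] at this
    linarith
  have hc0 : (0 : ℝ) ≤ c := Nat.cast_nonneg c
  set ε2 : ℝ := d * η / 8 with hε2
  have hε2pos : 0 < ε2 := by positivity
  have hdη1 : d * η ≤ 1 := by nlinarith
  have hdηη : d * η ≤ η := by nlinarith
  have hdηd : d * η ≤ d := by nlinarith
  have hd2 : 7 / 8 * d ≤ d - ε2 := by rw [hε2]; linarith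
  set T : ℕ := ⌊(1 - 3 * η / 4) * c / 2⌋₊ with hT
  set θ : ℕ := ⌊η / 2 * c⌋₊ with hθ
  set b : ℕ := ⌊ε2 * (c + 1)⌋₊ with hb
  set τ : ℕ := ⌊(d - ε2) * θ⌋₊ with hτ
  have hTle : (T : ℝ) ≤ (1 - 3 * η / 4) * c / 2 := Nat.floor_le (by
    have : 0 ≤ 1 - 3 * η / 4 := by linarith
    positivity)
  have hTlt : (1 - 3 * η / 4) * c / 2 < T + 1 := Nat.lt_floor_add_one _
  have hθle : (θ : ℝ) ≤ η / 2 * c := Nat.floor_le (by positivity)
  have hθlt : η / 2 * c < θ + 1 := Nat.lt_floor_add_one _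
  have hble : (b : ℝ) ≤ ε2 * (c + 1) := Nat.floor_le (by positivity)
  have hθ0 : (0 : ℝ) ≤ θ := Nat.cast_nonneg θ
  have hτlt : (d - ε2) * θ < τ + 1 := Nat.lt_floor_add_one _
  have hτle : (τ : ℝ) ≤ (d - ε2) * θ := Nat.floor_le (by
    have : 0 ≤ d - ε2 := by linarith
    positivity)
  have hθε : ε2 * (c + 1) ≤ θ := by
    have h1 : d * η * c ≤ η * c := mul_le_mul_of_nonneg_right hdηη hc0
    rw [hε2]
    linarith
  have hbθ : b ≤ θ := by
    have : (b : ℝ) ≤ θ := hble.trans hθε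
    exact_mod_cast this
  have hbτ : b < τ := by
    have h1 : 7 / 8 * d * (η / 2 * c - 1) ≤ (d - ε2) * θ := by
      have ha : η / 2 * c - 1 ≤ θ := by linarith
      have hb' : 0 ≤ η / 2 * c - 1 := by linarith
      calc 7 / 8 * d * (η / 2 * c - 1) ≤ (d - ε2) * (η / 2 * c - 1) :=
            mul_le_mul_of_nonneg_right hd2 hb'
        _ ≤ (d - ε2) * θ := mul_le_mul_of_nonneg_left ha (by linarith)
    have h2 : (b : ℝ) < τ := by
      have h3 : ε2 * (c + 1) = d * η * c / 8 + d * η / 8 := by rw [hε2]; ring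
      have h4 : 7 / 8 * d * (η / 2 * c - 1) = 7 / 16 * (d * η * c) - 7 / 8 * d := by ring
      rw [h4] at h1
      rw [h3] at hble
      linarith
    exact_mod_cast h2
  have hθ1 : 0 < θ := by
    have h1 : (0 : ℝ) < θ := by linarith
    exact_mod_cast h1
  have hpart : ∀ A ∈ P.parts, c ≤ A.card ∧ A.card ≤ c + 1 := by
    intro A hA
    have h1 := hP.average_le_card_part hA
    have h2 := hP.card_part_le_average_add_one hA
    rw [Finset.card_univ] at h1 h2
    exact ⟨h1, h2⟩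
  have hFD : F.card ≤ D.card := by
    refine Finset.card_le_card_of_injOn Prod.fst (fun e he => hF.fst e he) ?_
    intro e he f hf h
    exact hF.inj1 e he f hf h
  have hDK : D.card ≤ K := Finset.card_le_card hD
  obtain ⟨l, hl1, hl2, hl3, hl4⟩ := walk_arcs (RR G P ε2 d) (t21_symm G P ε2 d) D hL F hF T
  have hlP : ∀ k ∈ l, k ∈ P.parts := by
    intro k hk
    obtain ⟨e, he, hek⟩ := hl4 k hk
    rcases Relation.ReflTransGen.cases_tail hek with h | ⟨m, -, hm⟩
    · rw [h]; exact hD (hF.fst e he)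
    · exact hm.2.1
  have hsize : K0 + 2 * T + θ ≤ c := by
    have : ((K0 + 2 * T + θ : ℕ) : ℝ) ≤ c := by
      push_cast
      linarith
    exact_mod_cast this
  obtain ⟨vs, hv1, hv2, hv3⟩ := embed G (fun A : Finset V => A) (RR G P ε2 d) θ τ b hbτ hbθ
    (fun k k' h => h.2.2.1) (by
      intro A B hAB S hS hSθ
      have hSθR : (θ : ℝ) ≤ S.card := by exact_mod_cast hSθ
      have hBc : (B.card : ℝ) ≤ c + 1 := by exact_mod_cast (hpart B hAB.2.1).2
      have hAc : (A.card : ℝ) ≤ c + 1 := by exact_mod_cast (hpart A hAB.1).2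
      have h1 := uniform_expand G A B ε2 d hε2pos hAB.2.2.2.1 hAB.2.2.2.2 S hS (by
        calc ε2 * B.card ≤ ε2 * (c + 1) := mul_le_mul_of_nonneg_left hBc hε2pos.le
          _ ≤ θ := hθε
          _ ≤ S.card := hSθR) (by omega)
      have h2 : ((A.filter (fun u => (S.filter (fun v => G.Adj u v)).card < τ)).card : ℝ) ≤
          ε2 * (c + 1) := by
        refine le_trans ?_ (h1.trans (mul_le_mul_of_nonneg_left hAc hε2pos.le))
        have hsub : A.filter (fun u => (S.filter (fun v => G.Adj u v)).card < τ) ⊆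
            A.filter (fun u => ((S.filter (fun v => G.Adj u v)).card : ℝ) <
              (d - ε2) * S.card) := by
          intro u hu
          rw [Finset.mem_filter] at hu ⊢
          refine ⟨hu.1, ?_⟩
          have h3 : ((S.filter (fun v => G.Adj u v)).card : ℝ) < τ := by exact_mod_cast hu.2
          refine h3.trans_le (hτle.trans ?_)
          exact mul_le_mul_of_nonneg_left hSθR (by linarith)
        exact_mod_cast Finset.card_le_card hsub
      exact Nat.le_floor h2)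
    l (fun k hk k' hk' hne => P.disjoint (hlP k hk) (hlP k' hk') hne) hl1 (by
      intro k hk
      have h1 := hl3 k
      have h2 := (hpart k (hlP k hk)).1
      refine (Nat.add_le_add_right h1 θ).trans ?_
      have h3 : F.card ≤ K0 := hFD.trans (hDK.trans hK)
      omega)
  refine ⟨vs, hv1, hv2, ?_⟩
  rw [hv3]
  have hlen : (2 * T * F.card : ℝ) ≤ l.length := by exact_mod_cast hl2
  refine le_trans ?_ hlen
  have hnK : (n : ℝ) / K < c + 1 := by
    rw [div_lt_iff₀ hKR]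
    have h1 : n < (c + 1) * K := by
      rw [hc]
      have := Nat.lt_mul_div_succ n hKpos
      rw [mul_comm] at this
      exact this
    exact_mod_cast h1
  have hkey : (1 - η) * ((n : ℝ) / K) ≤ 2 * T := by
    have h1 : (1 - η) * ((n : ℝ) / K) ≤ (1 - η) * (c + 1) :=
      mul_le_mul_of_nonneg_left hnK.le (by linarith)
    linarith
  have hF0 : (0 : ℝ) ≤ F.card := Nat.cast_nonneg _
  have := mul_le_mul_of_nonneg_right hkey hF0
  calc (1 - η) * F.card * ((n : ℝ) / K) = (1 - η) * ((n : ℝ) / K) * F.card := by ring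
    _ ≤ 2 * T * F.card := this

end PFU
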