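import Pool.Agent.LibPFU75.T02
import Pool.Agent.LibPFU75.T20
import Pool.Agent.LibPFU75.T21

/-! Path duality.  `η = δ/8`, `d = δ/16`, `ε2 = d η/8`, `l0 = ⌈4/δ⌉`, `K0 = bound ε2 l0`
(`szemeredi_regularity`, `n ≥ l0`).  For each part `A` let `D_A` be the set of the parts linked to `A`
by `RR`; choose for every class one system of arcs `F` and weight `w` by `koenig` (relation
`RR G P ε2 d`, set `D_A`; e.g. choose for each class a representative part).  By `reduced_path` and
the hypothesis `(1-η)|F| n/K ≤ β n`.  Put `w u = w_class (part of u)` and `P u = ` representative of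
the class of the part of `u`.  `∑_{P u = k} w u = ∑_{B ∈ D} w B |B| ≤ |F| (n/K + 1) ≤
β (n + K)/(1-η) ≤ (β + δ) n` for large `n` (`|B| ≤ n/K + 1`).
Pairs violating the condition are not in an `RR`-pair: `bad_count`. -/
namespace PFU
open Finset
open scoped Classical

theorem t22_symm {α : Type} {E : α → α → Prop} (hE : ∀ a b, E a b → E b a) {a b : α}
    (h : Relation.ReflTransGen E a b) : Relation.ReflTransGen E b a := by
  induction h with
  | refl => exact Relation.ReflTransGen.refl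
  | tail _ hbc ih => exact Relation.ReflTransGen.head (hE _ _ hbc) ih

theorem t22_core {V : Type} [Fintype V] (P : Finpartition (univ : Finset V))
    (hP : P.IsEquipartition) (E : Finset V → Finset V → Prop) (hE : ∀ A B, E A B → E B A)
    (hEP : ∀ A B, E A B → A ∈ P.parts ∧ B ∈ P.parts) (X : ℝ) (hX : 0 ≤ X)
    (hF : ∀ D ⊆ P.parts, Lkd E D → ∀ F : Finset (Finset V × Finset V), ArcsR E D F →
      (F.card : ℝ) * ((Fintype.card V : ℝ) / P.parts.card + 1) ≤ X) :
    ∃ (w : V → ℕ) (Q : V → Finset V), (∀ u, w u ≤ 2) ∧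
      (∀ u v, (∃ A B, u ∈ A ∧ v ∈ B ∧ E A B) → Q u = Q v ∧ 2 ≤ w u + w v) ∧
      ∀ k, (∑ u ∈ univ.filter (fun u => Q u = k), (w u : ℝ)) ≤ X := by
  let D : Finset V → Finset (Finset V) := fun A =>
    P.parts.filter (fun B => Relation.ReflTransGen E A B)
  have hDmem : ∀ A B, B ∈ D A ↔ B ∈ P.parts ∧ Relation.ReflTransGen E A B := by
    intro A B
    exact mem_filter
  have hDeq : ∀ A B, Relation.ReflTransGen E A B → D A = D B := by
    intro A B h
    ext C
    rw [hDmem, hDmem]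
    constructor
    · rintro ⟨h1, h2⟩
      exact ⟨h1, (t22_symm hE h).trans h2⟩
    · rintro ⟨h1, h2⟩
      exact ⟨h1, h.trans h2⟩
  have hpm : ∀ u, P.part u ∈ P.parts := fun u => P.part_mem.mpr (mem_univ u)
  have hup : ∀ u, u ∈ P.part u := fun u => P.mem_part (mem_univ u)
  have hself : ∀ u, P.part u ∈ D (P.part u) := fun u =>
    (hDmem _ _).mpr ⟨hpm u, Relation.ReflTransGen.refl⟩
  have hLkd : ∀ A, Lkd E (D A) := by
    intro A B hB C hC
    exact (t22_symm hE ((hDmem _ _).mp hB).2).trans ((hDmem _ _).mp hC).2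
  choose F W hFa hcov hW2 hsum using fun D' : Finset (Finset V) => koenig E hE D'
  have hQ : ∀ u v, (D (P.part u)).biUnion id = (D (P.part v)).biUnion id →
      D (P.part u) = D (P.part v) := by
    intro u v h
    have h1 : u ∈ (D (P.part v)).biUnion id := by
      rw [← h, mem_biUnion]
      exact ⟨P.part u, hself u, hup u⟩
    rw [mem_biUnion] at h1
    obtain ⟨B, hB, huB⟩ := h1
    have h2 : P.part u = B := P.part_eq_of_mem ((hDmem _ _).mp hB).1 huB
    rw [← h2] at hB
    exact (hDeq _ _ ((hDmem _ _).mp hB).2).symm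
  refine ⟨fun u => W (D (P.part u)) (P.part u), fun u => (D (P.part u)).biUnion id,
    fun u => hW2 _ _, ?_, ?_⟩
  · rintro u v ⟨A, B, hu, hv, hAB⟩
    have h1 : P.part u = A := P.part_eq_of_mem (hEP A B hAB).1 hu
    have h2 : P.part v = B := P.part_eq_of_mem (hEP A B hAB).2 hv
    have h3 : D A = D B := hDeq A B (Relation.ReflTransGen.single hAB)
    have hA : A ∈ D A := (hDmem _ _).mpr ⟨(hEP A B hAB).1, Relation.ReflTransGen.refl⟩
    have hB : B ∈ D A := (hDmem _ _).mpr ⟨(hEP A B hAB).2, Relation.ReflTransGen.single hAB⟩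
    show (D (P.part u)).biUnion id = (D (P.part v)).biUnion id ∧
      2 ≤ W (D (P.part u)) (P.part u) + W (D (P.part v)) (P.part v)
    rw [h1, h2, ← h3]
    exact ⟨rfl, hcov (D A) A hA B hB hAB⟩
  · intro k
    by_cases hk : ∃ u0, (D (P.part u0)).biUnion id = k
    · obtain ⟨u0, hu0⟩ := hk
      set D0 := D (P.part u0) with hD0
      have hD0P : D0 ⊆ P.parts := filter_subset _ _
      have hcl : ∀ u, (D (P.part u)).biUnion id = k → D (P.part u) = D0 := by
        intro u hu
        exact hQ u u0 (by rw [hu, ← hu0])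
      have h1 : (∑ u ∈ univ.filter (fun u => (D (P.part u)).biUnion id = k),
          (W (D (P.part u)) (P.part u) : ℝ)) ≤
          ∑ B ∈ D0, ∑ u ∈ B, (W D0 B : ℝ) := by
        have hdis : (D0 : Set (Finset V)).PairwiseDisjoint id := by
          intro A hA B hB hAB
          exact P.disjoint (hD0P hA) (hD0P hB) hAB
        have h2 : ∑ B ∈ D0, ∑ u ∈ B, (W D0 B : ℝ) =
            ∑ u ∈ D0.biUnion id, (W D0 (P.part u) : ℝ) := by
          rw [sum_biUnion hdis]
          refine sum_congr rfl fun B hB => ?_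
          refine sum_congr rfl fun u hu => ?_
          have h3 : P.part u = B := P.part_eq_of_mem (hD0P hB) hu
          rw [h3]
        rw [h2]
        have h3 : ∑ u ∈ univ.filter (fun u => (D (P.part u)).biUnion id = k),
            (W (D (P.part u)) (P.part u) : ℝ) =
            ∑ u ∈ univ.filter (fun u => (D (P.part u)).biUnion id = k),
            (W D0 (P.part u) : ℝ) := by
          refine sum_congr rfl fun u hu => ?_
          rw [hcl u (mem_filter.mp hu).2]
        rw [h3]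
        refine sum_le_sum_of_subset_of_nonneg ?_ (fun u _ _ => Nat.cast_nonneg _)
        intro u hu
        have hu' := (mem_filter.mp hu).2
        rw [mem_biUnion]
        refine ⟨P.part u, ?_, hup u⟩
        rw [← hcl u hu']
        exact hself u
      refine h1.trans ?_
      have h2 : ∀ B ∈ D0, ∑ u ∈ B, (W D0 B : ℝ) ≤
          ((Fintype.card V : ℝ) / P.parts.card + 1) * (W D0 B : ℝ) := by
        intro B hB
        rw [sum_const, nsmul_eq_mul]
        refine mul_le_mul_of_nonneg_right ?_ (Nat.cast_nonneg _)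
        have h3 := hP.card_part_le_average_add_one (hD0P hB)
        rw [card_univ] at h3
        have h4 : (B.card : ℝ) ≤ ((Fintype.card V / P.parts.card : ℕ) : ℝ) + 1 := by
          exact_mod_cast h3
        have h5 : ((Fintype.card V / P.parts.card : ℕ) : ℝ) ≤
            (Fintype.card V : ℝ) / P.parts.card := Nat.cast_div_le
        linarith
      refine (sum_le_sum h2).trans ?_
      rw [← mul_sum]
      have h3 : (∑ B ∈ D0, (W D0 B : ℝ)) = ((F D0).card : ℝ) := by
        rw [← hsum D0]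
        push_cast
        rfl
      rw [h3, mul_comm]
      exact hF D0 hD0P (hLkd _) (F D0) (hFa D0)
    · have h1 : univ.filter (fun u => (D (P.part u)).biUnion id = k) = ∅ := by
        rw [filter_eq_empty_iff]
        intro u _ hu
        exact hk ⟨u, hu⟩
      rw [h1, sum_empty]
      exact hX

theorem t22_num {β δ n f K K0 : ℝ} (hβ : 0 ≤ β) (hβ1 : β ≤ 1) (hδ : 0 < δ) (hδ1 : δ ≤ 1)
    (hn : 0 < n) (hf : 0 ≤ f) (hK : 0 < K) (hKK : K ≤ K0) (hnK : 4 * K0 / δ ≤ n)
    (h : (1 - δ / 8) * f * (n / K) ≤ β * n) : f * (n / K + 1) ≤ (β + δ) * n := by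
  have h1 : 4 * K0 ≤ δ * n := by
    rw [div_le_iff₀ hδ] at hnK
    linarith
  have h2 : (1 - δ / 8) * f ≤ β * K := by
    have h3 : (1 - δ / 8) * f * (n / K) = ((1 - δ / 8) * f) * n / K := by ring
    rw [h3, div_le_iff₀ hK] at h
    have h4 : ((1 - δ / 8) * f) * n ≤ (β * K) * n := by linarith
    exact le_of_mul_le_mul_right h4 hn
  have h3 : f ≤ 8 / 7 * K := by
    have h4 : (7 : ℝ) / 8 * f ≤ (1 - δ / 8) * f := mul_le_mul_of_nonneg_right (by linarith) hf
    have h5 : β * K ≤ 1 * K := mul_le_mul_of_nonneg_right hβ1 hK.le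
    linarith
  have h4 : f * (n / K) ≤ β * n + δ / 7 * n := by
    have h5 : f * (n / K) = (1 - δ / 8) * f * (n / K) + δ / 8 * (f * n / K) := by ring
    have h6 : f * n / K ≤ 8 / 7 * n := by
      rw [div_le_iff₀ hK]
      have h7 := mul_le_mul_of_nonneg_right h3 hn.le
      linarith
    have h7 : δ / 8 * (f * n / K) ≤ δ / 8 * (8 / 7 * n) :=
      mul_le_mul_of_nonneg_left h6 (by positivity)
    rw [h5]
    linarith
  have h5 : f ≤ 2 / 7 * (δ * n) := by linarith
  have h6 : 0 ≤ δ * n := by positivity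
  linarith

theorem path_duality (β δ : ℝ) (hβ : 0 ≤ β) (hβ1 : β ≤ 1) (hδ : 0 < δ) (hδ1 : δ ≤ 1) :
    ∃ n0 : ℕ, ∀ (V : Type) [Fintype V] (G : SimpleGraph V), n0 ≤ Fintype.card V →
      (∀ l : List V, l.Nodup → l.IsChain G.Adj → (l.length : ℝ) ≤ β * Fintype.card V) →
      ∃ (w : V → ℕ) (P : V → Finset V), (∀ u, w u ≤ 2) ∧
        (((univ : Finset (V × V)).filter (fun p => G.Adj p.1 p.2 ∧
          ¬ (P p.1 = P p.2 ∧ 2 ≤ w p.1 + w p.2))).card : ℝ) ≤ δ * (Fintype.card V : ℝ) ^ 2 ∧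
        ∀ k, (∑ u ∈ univ.filter (fun u => P u = k), (w u : ℝ)) ≤ (β + δ) * Fintype.card V := by
  have hε : 0 < δ / 16 * (δ / 8) / 8 := by positivity
  set K0 := SzemerediRegularity.bound (δ / 16 * (δ / 8) / 8) (⌈4 / δ⌉₊) with hK0
  obtain ⟨n1, hn1⟩ := reduced_path (δ / 8) (δ / 16) (by positivity) (by linarith) (by positivity)
    (by linarith) K0
  refine ⟨max n1 (max ⌈4 / δ⌉₊ ⌈4 * (K0 : ℝ) / δ⌉₊), ?_⟩
  intro V _ G hn hpath
  have g1 : n1 ≤ Fintype.card V := (le_max_left _ _).trans hn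
  have g2 : ⌈4 / δ⌉₊ ≤ Fintype.card V := ((le_max_left _ _).trans (le_max_right _ _)).trans hn
  have g3 : ⌈4 * (K0 : ℝ) / δ⌉₊ ≤ Fintype.card V :=
    ((le_max_right _ _).trans (le_max_right _ _)).trans hn
  have g3' : 4 * (K0 : ℝ) / δ ≤ (Fintype.card V : ℝ) := Nat.ceil_le.mp g3
  have hl0 : 0 < ⌈4 / δ⌉₊ := Nat.ceil_pos.mpr (by positivity)
  have hnpos : 0 < Fintype.card V := lt_of_lt_of_le hl0 g2
  have hne : Nonempty V := Fintype.card_pos_iff.mp hnpos
  have hn' : (0 : ℝ) < (Fintype.card V : ℝ) := by exact_mod_cast hnpos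
  obtain ⟨P, hP, hPl, hPK, hPu⟩ := szemeredi_regularity G hε g2
  have hKpos : 0 < P.parts.card := lt_of_lt_of_le hl0 hPl
  have hE : ∀ A B, RR G P (δ / 16 * (δ / 8) / 8) (δ / 16) A B →
      RR G P (δ / 16 * (δ / 8) / 8) (δ / 16) B A := by
    rintro A B ⟨h1, h2, h3, h4, h5⟩
    refine ⟨h2, h1, Ne.symm h3, h4.symm, ?_⟩
    rw [SimpleGraph.edgeDensity_comm]
    exact h5
  obtain ⟨w, Q, hw2, hgood, hsum⟩ := t22_core P hP (RR G P (δ / 16 * (δ / 8) / 8) (δ / 16)) hE
    (fun A B h => ⟨h.1, h.2.1⟩) ((β + δ) * Fintype.card V) (by positivity) (by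
      intro D hD hL F hF
      obtain ⟨l, hl1, hl2, hl3⟩ := hn1 V G P g1 hP hPK D hD hL F hF
      refine t22_num hβ hβ1 hδ hδ1 hn' (Nat.cast_nonneg _) (by exact_mod_cast hKpos)
        (K0 := (K0 : ℝ)) (by exact_mod_cast hPK) g3' ?_
      exact hl3.trans (hpath l hl1 hl2))
  refine ⟨w, Q, hw2, ?_, hsum⟩
  have hb := bad_count G P hP (δ / 16 * (δ / 8) / 8) (δ / 16) δ hε (by positivity) hδ hPu
    ((Nat.le_ceil _).trans (by exact_mod_cast hPl)) (by nlinarith)
  refine le_trans ?_ hb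
  have h1 : ((univ : Finset (V × V)).filter (fun p => G.Adj p.1 p.2 ∧
      ¬ (Q p.1 = Q p.2 ∧ 2 ≤ w p.1 + w p.2))).card ≤
      ((univ : Finset (V × V)).filter (fun p => G.Adj p.1 p.2 ∧
      ¬ ∃ A B, p.1 ∈ A ∧ p.2 ∈ B ∧ RR G P (δ / 16 * (δ / 8) / 8) (δ / 16) A B)).card := by
    refine card_le_card ?_
    intro p hp
    rw [mem_filter] at hp ⊢
    exact ⟨hp.1, hp.2.1, fun h => hp.2.2 (hgood p.1 p.2 h)⟩
  exact_mod_cast h1

end PFU
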