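import Pool.Agent.LibPFU75.Defs

/-! Chebyshev for `m` independent uniform points `φ : Fin m → V`: the variance of
`∑ i, f (φ i)` is `m (E f^2 - (E f)^2) ≤ m E f^2`. -/
namespace PFU
open Finset
open scoped Classical

theorem t23_split {ι V : Type} [Fintype ι] [DecidableEq ι] [Fintype V] (i : ι) (F : V → ℝ)
    (G : ({j : ι // j ≠ i} → V) → ℝ) :
    ∑ φ : ι → V, F (φ i) * G (fun j => φ j) = (∑ x, F x) * ∑ ρ, G ρ := by
  rw [Finset.sum_mul_sum, ← Fintype.sum_prod_type']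
  exact Fintype.sum_equiv (Equiv.funSplitAt i V) _ (fun p => F p.1 * G p.2)
    (fun ω => rfl)

theorem t23_pow {ι V : Type} [Fintype ι] [DecidableEq ι] [Fintype V] (i : ι) :
    (Fintype.card V : ℝ) ^ Fintype.card ι =
      Fintype.card V * (Fintype.card V : ℝ) ^ Fintype.card {j : ι // j ≠ i} := by
  have h6 := t23_split (V := V) i (fun _ => 1) (fun _ => 1)
  simp only [mul_one, Finset.sum_const, Finset.card_univ, Fintype.card_fun, nsmul_eq_mul,
    Nat.cast_pow] at h6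
  exact h6

theorem t23_one {ι V : Type} [Fintype ι] [DecidableEq ι] [Fintype V] (i : ι) (F : V → ℝ) :
    (∑ φ : ι → V, F (φ i)) * Fintype.card V =
      (Fintype.card V : ℝ) ^ Fintype.card ι * ∑ x, F x := by
  have h1 := t23_split (V := V) i F (fun _ => 1)
  simp only [mul_one, Finset.sum_const, Finset.card_univ, Fintype.card_fun, nsmul_eq_mul,
    Nat.cast_pow] at h1
  rw [h1, t23_pow (V := V) i]
  ring

theorem t23_two {ι V : Type} [Fintype ι] [DecidableEq ι] [Fintype V] (i j : ι) (hij : i ≠ j)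
    (F H : V → ℝ) (hF : ∑ x, F x = 0) :
    (∑ φ : ι → V, F (φ i) * H (φ j)) = 0 := by
  have hji : j ≠ i := fun h => hij h.symm
  have h1 := t23_split (V := V) i F (fun ρ => H (ρ ⟨j, hji⟩))
  have h3 : (∑ φ : ι → V, F (φ i) * H (φ j)) =
      (∑ x, F x) * ∑ ρ : {j : ι // j ≠ i} → V, H (ρ ⟨j, hji⟩) := h1
  rw [h3, hF, zero_mul]

theorem t23_var {V : Type} [Fintype V] (m : ℕ) (ξ : V → ℝ) (hξ : ∑ v, ξ v = 0) :
    (∑ φ : Fin m → V, (∑ i, ξ (φ i)) ^ 2) * Fintype.card V =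
      (Fintype.card V : ℝ) ^ m * (m * ∑ v, ξ v ^ 2) := by
  have h1 : ∀ φ : Fin m → V, (∑ i, ξ (φ i)) ^ 2 = ∑ i, ∑ j, ξ (φ i) * ξ (φ j) := by
    intro φ
    rw [sq, Finset.sum_mul_sum]
  rw [Finset.sum_congr rfl (fun φ _ => h1 φ), Finset.sum_comm]
  have h2 : ∀ i : Fin m, ∑ φ : Fin m → V, ∑ j, ξ (φ i) * ξ (φ j) =
      ∑ φ : Fin m → V, ξ (φ i) ^ 2 := by
    intro i
    rw [Finset.sum_comm, Finset.sum_eq_single i]
    · apply Finset.sum_congr rfl
      intro φ _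
      rw [sq]
    · intro j _ hj
      exact t23_two (V := V) i j (fun h => hj h.symm) ξ ξ hξ
    · intro h
      exact absurd (Finset.mem_univ _) h
  rw [Finset.sum_congr rfl (fun i _ => h2 i), Finset.sum_mul]
  have h3 : ∀ i : Fin m, (∑ φ : Fin m → V, ξ (φ i) ^ 2) * Fintype.card V =
      (Fintype.card V : ℝ) ^ m * ∑ v, ξ v ^ 2 := by
    intro i
    have h4 := t23_one (V := V) i (fun x => ξ x ^ 2)
    rw [Fintype.card_fin] at h4
    exact h4
  rw [Finset.sum_congr rfl (fun i _ => h3 i), Finset.sum_const, Finset.card_univ,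
    Fintype.card_fin, nsmul_eq_mul]
  ring

theorem sample_cheb {V : Type} [Fintype V] (m : ℕ) (f : V → ℝ) (τ : ℝ) (hτ : 0 < τ)
    (hn : 0 < Fintype.card V) :
    (((univ : Finset (Fin m → V)).filter (fun φ =>
      m * ((∑ v, f v) / Fintype.card V) + τ ≤ ∑ i, f (φ i))).card : ℝ) * τ ^ 2
        * (Fintype.card V : ℝ) ≤ (Fintype.card V : ℝ) ^ m * (m * ∑ v, (f v) ^ 2) := by
  have hn0 : (0 : ℝ) < (Fintype.card V : ℝ) := by exact_mod_cast hn
  obtain ⟨μ, hμ⟩ : ∃ μ : ℝ, μ = (∑ v, f v) / Fintype.card V := ⟨_, rfl⟩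
  have hμ' : (Fintype.card V : ℝ) * μ = ∑ v, f v := by
    rw [hμ]
    field_simp
  rw [← hμ]
  obtain ⟨ξ, hξ⟩ : ∃ ξ : V → ℝ, ξ = fun v => f v - μ := ⟨_, rfl⟩
  have h0 : ∑ v, ξ v = 0 := by
    rw [hξ, Finset.sum_sub_distrib, Finset.sum_const, Finset.card_univ, nsmul_eq_mul, hμ',
      sub_self]
  have h1 : ∑ v, ξ v ^ 2 ≤ ∑ v, f v ^ 2 := by
    have h2 : ∑ v, f v ^ 2 = ∑ v, (ξ v ^ 2 + (2 * μ) * ξ v + μ ^ 2) := by
      apply Finset.sum_congr rfl
      intro v _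
      rw [hξ]
      ring
    rw [h2, Finset.sum_add_distrib, Finset.sum_add_distrib, ← Finset.mul_sum, h0, mul_zero,
      add_zero]
    have h3 : (0 : ℝ) ≤ ∑ _v : V, μ ^ 2 := Finset.sum_nonneg (fun _ _ => sq_nonneg _)
    linarith
  have hvar := t23_var m ξ h0
  have h4 : (((univ : Finset (Fin m → V)).filter (fun φ =>
      m * μ + τ ≤ ∑ i, f (φ i))).card : ℝ) * τ ^ 2 ≤ ∑ φ : Fin m → V, (∑ i, ξ (φ i)) ^ 2 := by
    rw [← nsmul_eq_mul, ← Finset.sum_const]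
    calc ∑ _φ ∈ (univ : Finset (Fin m → V)).filter (fun φ => m * μ + τ ≤ ∑ i, f (φ i)), τ ^ 2
        ≤ ∑ φ ∈ (univ : Finset (Fin m → V)).filter (fun φ => m * μ + τ ≤ ∑ i, f (φ i)),
          (∑ i, ξ (φ i)) ^ 2 := by
          apply Finset.sum_le_sum
          intro φ hφ
          rw [Finset.mem_filter] at hφ
          have h5 : ∑ i, ξ (φ i) = (∑ i, f (φ i)) - m * μ := by
            rw [hξ, Finset.sum_sub_distrib, Finset.sum_const, Finset.card_univ, Fintype.card_fin,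
              nsmul_eq_mul]
          rw [h5]
          exact pow_le_pow_left₀ hτ.le (by linarith [hφ.2]) 2
      _ ≤ ∑ φ : Fin m → V, (∑ i, ξ (φ i)) ^ 2 :=
          Finset.sum_le_sum_of_subset_of_nonneg (Finset.filter_subset _ _)
            (fun _ _ _ => sq_nonneg _)
  calc _ ≤ (∑ φ : Fin m → V, (∑ i, ξ (φ i)) ^ 2) * Fintype.card V :=
        mul_le_mul_of_nonneg_right h4 hn0.le
    _ = (Fintype.card V : ℝ) ^ m * (m * ∑ v, ξ v ^ 2) := hvar
    _ ≤ _ := by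
        apply mul_le_mul_of_nonneg_left _ (by positivity)
        exact mul_le_mul_of_nonneg_left h1 (Nat.cast_nonneg _)

end PFU
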