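import Pool.Agent.LibPFU75.Defs

/-! Union bound over the pairs `i ≠ j`; for fixed `i ≠ j` the number of `φ` with
`(φ i, φ j) ∈ Q` times `|V|^2` is `|Q| |V|^m`. -/
namespace PFU
open Finset
open scoped Classical

theorem t24_split {ι V : Type} [Fintype ι] [DecidableEq ι] [Fintype V] (i : ι) (F : V → ℝ)
    (G : ({j : ι // j ≠ i} → V) → ℝ) :
    ∑ φ : ι → V, F (φ i) * G (fun j => φ j) = (∑ x, F x) * ∑ ρ, G ρ := by
  rw [Finset.sum_mul_sum, ← Fintype.sum_prod_type']
  exact Fintype.sum_equiv (Equiv.funSplitAt i V) _ (fun p => F p.1 * G p.2)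
    (fun ω => rfl)

theorem t24_pow {ι V : Type} [Fintype ι] [DecidableEq ι] [Fintype V] (i : ι) :
    (Fintype.card V : ℝ) ^ Fintype.card ι =
      Fintype.card V * (Fintype.card V : ℝ) ^ Fintype.card {j : ι // j ≠ i} := by
  have h6 := t24_split (V := V) i (fun _ => 1) (fun _ => 1)
  simp only [mul_one, Finset.sum_const, Finset.card_univ, Fintype.card_fun, nsmul_eq_mul,
    Nat.cast_pow] at h6
  exact h6

theorem t24_one {ι V : Type} [Fintype ι] [DecidableEq ι] [Fintype V] (i : ι) (F : V → ℝ) :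
    (∑ φ : ι → V, F (φ i)) * Fintype.card V =
      (Fintype.card V : ℝ) ^ Fintype.card ι * ∑ x, F x := by
  have h1 := t24_split (V := V) i F (fun _ => 1)
  simp only [mul_one, Finset.sum_const, Finset.card_univ, Fintype.card_fun, nsmul_eq_mul,
    Nat.cast_pow] at h1
  rw [h1, t24_pow (V := V) i]
  ring

theorem t24_two {ι V : Type} [Fintype ι] [DecidableEq ι] [Fintype V] (i j : ι) (hij : i ≠ j) (F H : V → ℝ) :
    (∑ φ : ι → V, F (φ i) * H (φ j)) * (Fintype.card V : ℝ) ^ 2 =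
      (Fintype.card V : ℝ) ^ Fintype.card ι * ((∑ x, F x) * ∑ x, H x) := by
  have hji : j ≠ i := fun h => hij h.symm
  have h1 := t24_split (V := V) i F (fun ρ => H (ρ ⟨j, hji⟩))
  have h2 := t24_one (V := V) (⟨j, hji⟩ : {j : ι // j ≠ i}) H
  have h3 : (∑ φ : ι → V, F (φ i) * H (φ j)) =
      (∑ x, F x) * ∑ ρ : {j : ι // j ≠ i} → V, H (ρ ⟨j, hji⟩) := h1
  rw [h3, t24_pow (V := V) i]
  calc (∑ x, F x) * (∑ ρ : {j : ι // j ≠ i} → V, H (ρ ⟨j, hji⟩)) * (Fintype.card V : ℝ) ^ 2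
      = (∑ x, F x) * ((∑ ρ : {j : ι // j ≠ i} → V, H (ρ ⟨j, hji⟩)) * Fintype.card V) *
        Fintype.card V := by ring
    _ = _ := by rw [h2]; ring

theorem t24_pair {V : Type} [Fintype V] (m : ℕ) (Q : Finset (V × V)) (i j : Fin m)
    (hij : i ≠ j) :
    (((univ : Finset (Fin m → V)).filter (fun φ => (φ i, φ j) ∈ Q)).card : ℝ)
      * (Fintype.card V : ℝ) ^ 2 = (Fintype.card V : ℝ) ^ m * Q.card := by
  have h1 : (((univ : Finset (Fin m → V)).filter (fun φ => (φ i, φ j) ∈ Q)).card : ℝ) =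
      ∑ q ∈ Q, ∑ φ : Fin m → V, (if φ i = q.1 then (1 : ℝ) else 0) *
        (if φ j = q.2 then (1 : ℝ) else 0) := by
    rw [Finset.card_filter, Finset.sum_comm]
    push_cast
    apply Finset.sum_congr rfl
    intro φ _
    by_cases h : (φ i, φ j) ∈ Q
    · rw [if_pos h, Finset.sum_eq_single (φ i, φ j)]
      · simp
      · intro q _ hq
        by_cases h1 : φ i = q.1
        · by_cases h2 : φ j = q.2
          · exact absurd (Prod.ext h1.symm h2.symm) hq
          · rw [if_neg h2, mul_zero]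
        · rw [if_neg h1, zero_mul]
      · intro h'
        exact absurd h h'
    · rw [if_neg h]
      symm
      apply Finset.sum_eq_zero
      intro q hq
      by_cases h1 : φ i = q.1
      · by_cases h2 : φ j = q.2
        · exfalso
          apply h
          rw [h1, h2]
          exact hq
        · rw [if_neg h2, mul_zero]
      · rw [if_neg h1, zero_mul]
  rw [h1, Finset.sum_mul]
  have h2 : ∀ q ∈ Q, (∑ φ : Fin m → V, (if φ i = q.1 then (1 : ℝ) else 0) *
        (if φ j = q.2 then (1 : ℝ) else 0)) * (Fintype.card V : ℝ) ^ 2 =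
      (Fintype.card V : ℝ) ^ m := by
    intro q _
    have h3 := t24_two (V := V) i j hij (fun x => if x = q.1 then (1 : ℝ) else 0)
      (fun x => if x = q.2 then (1 : ℝ) else 0)
    rw [Finset.sum_ite_eq' univ q.1 (fun _ => (1 : ℝ)),
      Finset.sum_ite_eq' univ q.2 (fun _ => (1 : ℝ)), if_pos (Finset.mem_univ _),
      if_pos (Finset.mem_univ _), Fintype.card_fin, mul_one, mul_one] at h3
    exact h3
  rw [Finset.sum_congr rfl h2, Finset.sum_const, nsmul_eq_mul, mul_comm]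

theorem sample_pairs {V : Type} [Fintype V] (m : ℕ) (Q : Finset (V × V)) :
    (((univ : Finset (Fin m → V)).filter (fun φ => ∃ i j, i ≠ j ∧ (φ i, φ j) ∈ Q)).card : ℝ)
      * (Fintype.card V : ℝ) ^ 2 ≤ (Fintype.card V : ℝ) ^ m * ((m : ℝ) ^ 2 * Q.card) := by
  have h1 : ((univ : Finset (Fin m → V)).filter (fun φ => ∃ i j, i ≠ j ∧ (φ i, φ j) ∈ Q)) ⊆
      (univ : Finset (Fin m)).offDiag.biUnion (fun p =>
        (univ : Finset (Fin m → V)).filter (fun φ => (φ p.1, φ p.2) ∈ Q)) := by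
    intro φ hφ
    rw [Finset.mem_filter] at hφ
    obtain ⟨i, j, hij, hq⟩ := hφ.2
    rw [Finset.mem_biUnion]
    refine ⟨(i, j), ?_, ?_⟩
    · rw [Finset.mem_offDiag]
      exact ⟨Finset.mem_univ _, Finset.mem_univ _, hij⟩
    · rw [Finset.mem_filter]
      exact ⟨Finset.mem_univ _, hq⟩
  have h2 : (((univ : Finset (Fin m → V)).filter
      (fun φ => ∃ i j, i ≠ j ∧ (φ i, φ j) ∈ Q)).card : ℝ) ≤
      ∑ p ∈ (univ : Finset (Fin m)).offDiag,
        (((univ : Finset (Fin m → V)).filter (fun φ => (φ p.1, φ p.2) ∈ Q)).card : ℝ) := by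
    exact_mod_cast (Finset.card_le_card h1).trans Finset.card_biUnion_le
  have h3 := mul_le_mul_of_nonneg_right h2 (sq_nonneg (Fintype.card V : ℝ))
  refine h3.trans ?_
  rw [Finset.sum_mul]
  have h4 : ∀ p ∈ (univ : Finset (Fin m)).offDiag,
      (((univ : Finset (Fin m → V)).filter (fun φ => (φ p.1, φ p.2) ∈ Q)).card : ℝ) *
        (Fintype.card V : ℝ) ^ 2 = (Fintype.card V : ℝ) ^ m * Q.card := by
    intro p hp
    rw [Finset.mem_offDiag] at hp
    exact t24_pair m Q p.1 p.2 hp.2.2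
  rw [Finset.sum_congr rfl h4, Finset.sum_const, nsmul_eq_mul]
  have h5 : (((univ : Finset (Fin m)).offDiag.card : ℕ) : ℝ) ≤ (m : ℝ) ^ 2 := by
    rw [Finset.offDiag_card, Finset.card_univ, Fintype.card_fin]
    have : m * m - m ≤ m ^ 2 := by
      rw [sq]
      exact Nat.sub_le _ _
    exact_mod_cast this
  have h6 : (0 : ℝ) ≤ (Fintype.card V : ℝ) ^ m * Q.card := by positivity
  calc _ ≤ (m : ℝ) ^ 2 * ((Fintype.card V : ℝ) ^ m * Q.card) := mul_le_mul_of_nonneg_right h5 h6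
    _ = _ := by ring

end PFU
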