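import Pool.Agent.LibPFU75.T23
import Pool.Agent.LibPFU75.T24

/-! Union bound, with `n = |V|`.  `sample_pairs` for `Q = {(u,v) : u = v ∨ ∃ q, Bad q u v}`,
`|Q| ≤ n + |I| δ n^2`: the fraction of `φ` with a bad pair or a collision is
`≤ m^2 (1/n + |I| δ) ≤ 1/4`.  `sample_cheb` for each `q` and each `k` in the image of `P q`,
`f u = w q u` if `P q u = k`, `0` otherwise, `τ = δ' m`: the fraction is
`≤ m ∑ f^2/(n τ^2) ≤ 4 |{u : P q u = k}|/(n δ'^2 m)`; summed over `k` and `q`: `≤ 4|I|/(δ'^2 m) ≤ 1/4`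
(other `k` are trivial: empty sum, `0 ≤ β + δ'`). -/
namespace PFU
open Finset
open scoped Classical

theorem t25_pairs {I V : Type} [Fintype I] [Fintype V] (m : ℕ) (δ : ℝ) (Bad : I → V → V → Prop)
    (hBad : ∀ q, (((univ : Finset (V × V)).filter (fun p => Bad q p.1 p.2)).card : ℝ) ≤
      δ * (Fintype.card V : ℝ) ^ 2)
    (hV : 0 < Fintype.card V)
    (h1 : (m : ℝ) ^ 2 * (Fintype.card I * δ + 1 / Fintype.card V) ≤ 1 / 4) :
    (((univ : Finset (Fin m → V)).filter (fun φ => ∃ i j, i ≠ j ∧ (φ i, φ j) ∈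
      (univ : Finset (V × V)).filter (fun p => p.1 = p.2 ∨ ∃ q, Bad q p.1 p.2))).card : ℝ) ≤
      (Fintype.card V : ℝ) ^ m / 4 := by
  set Q : Finset (V × V) := (univ : Finset (V × V)).filter
    (fun p => p.1 = p.2 ∨ ∃ q, Bad q p.1 p.2) with hQ
  set n : ℝ := (Fintype.card V : ℝ) with hn
  have hn0 : 0 < n := by rw [hn]; exact_mod_cast hV
  have hQc : (Q.card : ℝ) ≤ n + Fintype.card I * (δ * n ^ 2) := by
    have hsub : Q ⊆ (univ : Finset V).image (fun v => (v, v)) ∪
        (univ : Finset I).biUnion (fun q => (univ : Finset (V × V)).filter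
          (fun p => Bad q p.1 p.2)) := by
      intro p hp
      rw [hQ, Finset.mem_filter] at hp
      rw [Finset.mem_union]
      rcases hp.2 with h | ⟨q, hq⟩
      · left
        rw [Finset.mem_image]
        exact ⟨p.1, Finset.mem_univ _, Prod.ext rfl h⟩
      · right
        rw [Finset.mem_biUnion]
        exact ⟨q, Finset.mem_univ _, Finset.mem_filter.2 ⟨Finset.mem_univ _, hq⟩⟩
    have hc1 : Q.card ≤ Fintype.card V + ∑ q : I, ((univ : Finset (V × V)).filter
          (fun p => Bad q p.1 p.2)).card := by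
      refine (Finset.card_le_card hsub).trans ((Finset.card_union_le _ _).trans ?_)
      exact Nat.add_le_add (Finset.card_image_le) Finset.card_biUnion_le
    have hc2 : (Q.card : ℝ) ≤ (Fintype.card V : ℝ) + ∑ q : I, (((univ : Finset (V × V)).filter
          (fun p => Bad q p.1 p.2)).card : ℝ) := by
      exact_mod_cast hc1
    refine hc2.trans ?_
    have hc3 : ∑ q : I, (((univ : Finset (V × V)).filter
          (fun p => Bad q p.1 p.2)).card : ℝ) ≤ ∑ _q : I, δ * n ^ 2 :=
      Finset.sum_le_sum fun q _ => hBad q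
    rw [Finset.sum_const, nsmul_eq_mul, Finset.card_univ] at hc3
    linarith
  have hs := sample_pairs m Q
  set B : ℝ := (((univ : Finset (Fin m → V)).filter
    (fun φ => ∃ i j, i ≠ j ∧ (φ i, φ j) ∈ Q)).card : ℝ) with hB
  have hnm : 0 < n ^ m := by positivity
  have h2 : B * n ^ 2 ≤ n ^ m / 4 * n ^ 2 := by
    calc B * n ^ 2 ≤ n ^ m * ((m : ℝ) ^ 2 * Q.card) := hs
      _ ≤ n ^ m * ((m : ℝ) ^ 2 * (n + Fintype.card I * (δ * n ^ 2))) := by gcongr
      _ = n ^ m * ((m : ℝ) ^ 2 * (Fintype.card I * δ + 1 / n)) * n ^ 2 := by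
        field_simp
        ring
      _ ≤ n ^ m * (1 / 4) * n ^ 2 := by gcongr
      _ = n ^ m / 4 * n ^ 2 := by ring
  exact le_of_mul_le_mul_right h2 (by positivity)

theorem t25_cheb {I K V : Type} [Fintype I] [Fintype V] (m : ℕ) (δ' : ℝ)
    (hδ' : 0 < δ') (hm : 0 < m) (w : I → V → ℕ) (P : I → V → K)
    (hw : ∀ q u, w q u ≤ 2) (hV : 0 < Fintype.card V)
    (h2 : 16 * (Fintype.card I : ℝ) ≤ δ' ^ 2 * m) :
    (((univ : Finset I).biUnion (fun q => ((univ : Finset V).image (P q)).biUnion (fun k =>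
      (univ : Finset (Fin m → V)).filter (fun φ =>
        m * ((∑ v, (if P q v = k then (w q v : ℝ) else 0)) / Fintype.card V) + δ' * m ≤
          ∑ i, (if P q (φ i) = k then (w q (φ i) : ℝ) else 0))))).card : ℝ) ≤
      (Fintype.card V : ℝ) ^ m / 4 := by
  set n : ℝ := (Fintype.card V : ℝ) with hn
  have hn0 : 0 < n := by rw [hn]; exact_mod_cast hV
  have hm0 : (0 : ℝ) < m := by exact_mod_cast hm
  have hnm : 0 < n ^ m := by positivity
  set Bq : I → K → Finset (Fin m → V) := fun q k => (univ : Finset (Fin m → V)).filter (fun φ =>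
        m * ((∑ v, (if P q v = k then (w q v : ℝ) else 0)) / n) + δ' * m ≤
          ∑ i, (if P q (φ i) = k then (w q (φ i) : ℝ) else 0)) with hBq
  have hone : ∀ q k, ((Bq q k).card : ℝ) ≤
      n ^ m * (4 / (δ' ^ 2 * m * n)) * ((univ : Finset V).filter (fun v => P q v = k)).card := by
    intro q k
    have hc := sample_cheb m (fun v => if P q v = k then (w q v : ℝ) else 0) (δ' * m)
      (by positivity) hV
    have hf : ∑ v, ((if P q v = k then (w q v : ℝ) else 0)) ^ 2 ≤
        4 * ((univ : Finset V).filter (fun v => P q v = k)).card := by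
      rw [Finset.card_filter, Nat.cast_sum, Finset.mul_sum]
      refine Finset.sum_le_sum fun v _ => ?_
      split_ifs with hk
      · have h3 : (w q v : ℝ) ≤ 2 := by exact_mod_cast hw q v
        have h4 : (0 : ℝ) ≤ w q v := Nat.cast_nonneg _
        push_cast
        nlinarith
      · simp
    have h5 : ((Bq q k).card : ℝ) * (δ' ^ 2 * m * n) ≤
        (n ^ m * (4 / (δ' ^ 2 * m * n)) * ((univ : Finset V).filter
          (fun v => P q v = k)).card) * (δ' ^ 2 * m * n) := by
      have h6 : ((Bq q k).card : ℝ) * (δ' * m) ^ 2 * n ≤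
          n ^ m * (m * (4 * ((univ : Finset V).filter (fun v => P q v = k)).card)) := by
        refine le_trans hc ?_
        gcongr
      have h7 : (((Bq q k).card : ℝ) * (δ' ^ 2 * m * n)) * m ≤
          ((n ^ m * (4 / (δ' ^ 2 * m * n)) * ((univ : Finset V).filter
          (fun v => P q v = k)).card) * (δ' ^ 2 * m * n)) * m := by
        calc (((Bq q k).card : ℝ) * (δ' ^ 2 * m * n)) * m
            = ((Bq q k).card : ℝ) * (δ' * m) ^ 2 * n := by ring
          _ ≤ n ^ m * (m * (4 * ((univ : Finset V).filter (fun v => P q v = k)).card)) := h6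
          _ = _ := by
            field_simp
      exact le_of_mul_le_mul_right h7 hm0
    exact le_of_mul_le_mul_right h5 (by positivity)
  have hq : ∀ q, ((((univ : Finset V).image (P q)).biUnion (Bq q)).card : ℝ) ≤
      n ^ m * (4 / (δ' ^ 2 * m)) := by
    intro q
    have h3 : ((((univ : Finset V).image (P q)).biUnion (Bq q)).card : ℝ) ≤
        ∑ k ∈ (univ : Finset V).image (P q), ((Bq q k).card : ℝ) := by
      exact_mod_cast Finset.card_biUnion_le
    have h4 : ∑ k ∈ (univ : Finset V).image (P q),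
        (((univ : Finset V).filter (fun v => P q v = k)).card : ℝ) = n := by
      have h5 := Finset.card_eq_sum_card_image (P q) (univ : Finset V)
      rw [Finset.card_univ] at h5
      rw [hn, h5, Nat.cast_sum]
    calc ((((univ : Finset V).image (P q)).biUnion (Bq q)).card : ℝ)
        ≤ ∑ k ∈ (univ : Finset V).image (P q), ((Bq q k).card : ℝ) := h3
      _ ≤ ∑ k ∈ (univ : Finset V).image (P q), n ^ m * (4 / (δ' ^ 2 * m * n)) *
          ((univ : Finset V).filter (fun v => P q v = k)).card :=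
          Finset.sum_le_sum fun k _ => hone q k
      _ = n ^ m * (4 / (δ' ^ 2 * m * n)) * n := by rw [← Finset.mul_sum, h4]
      _ = n ^ m * (4 / (δ' ^ 2 * m)) := by
        field_simp
  calc (((univ : Finset I).biUnion (fun q => ((univ : Finset V).image (P q)).biUnion
        (Bq q))).card : ℝ)
      ≤ ∑ q : I, ((((univ : Finset V).image (P q)).biUnion (Bq q)).card : ℝ) := by
        exact_mod_cast Finset.card_biUnion_le
    _ ≤ ∑ _q : I, n ^ m * (4 / (δ' ^ 2 * m)) := Finset.sum_le_sum fun q _ => hq q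
    _ = n ^ m * (4 * Fintype.card I / (δ' ^ 2 * m)) := by
        rw [Finset.sum_const, nsmul_eq_mul, Finset.card_univ]
        ring
    _ ≤ n ^ m * (1 / 4) := by
        have h5 : 4 * (Fintype.card I : ℝ) / (δ' ^ 2 * m) ≤ 1 / 4 := by
          rw [div_le_iff₀ (by positivity)]
          linarith
        gcongr
    _ = n ^ m / 4 := by ring

theorem sample {I K V : Type} [Fintype I] [Fintype V] (m : ℕ) (β δ δ' : ℝ) (hβ : 0 ≤ β)
    (hδ' : 0 < δ') (hm : 0 < m) (w : I → V → ℕ) (P : I → V → K) (Bad : I → V → V → Prop)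
    (hw : ∀ q u, w q u ≤ 2)
    (hBad : ∀ q, (((univ : Finset (V × V)).filter (fun p => Bad q p.1 p.2)).card : ℝ) ≤
      δ * (Fintype.card V : ℝ) ^ 2)
    (hP : ∀ q k, (∑ u ∈ univ.filter (fun u => P q u = k), (w q u : ℝ)) ≤ β * Fintype.card V)
    (hV : 0 < Fintype.card V)
    (h1 : (m : ℝ) ^ 2 * (Fintype.card I * δ + 1 / Fintype.card V) ≤ 1 / 4)
    (h2 : 16 * (Fintype.card I : ℝ) ≤ δ' ^ 2 * m) :
    ∃ φ : Fin m → V, Function.Injective φ ∧ (∀ q i j, i ≠ j → ¬ Bad q (φ i) (φ j)) ∧
      ∀ q k, (∑ i ∈ univ.filter (fun i => P q (φ i) = k), (w q (φ i) : ℝ)) ≤ (β + δ') * m := by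
  have hp := t25_pairs (I := I) m δ Bad hBad hV h1
  have hc := t25_cheb m δ' hδ' hm w P hw hV h2
  set B1 := (univ : Finset (Fin m → V)).filter (fun φ => ∃ i j, i ≠ j ∧ (φ i, φ j) ∈
      (univ : Finset (V × V)).filter (fun p => p.1 = p.2 ∨ ∃ q, Bad q p.1 p.2)) with hB1
  set B2 := (univ : Finset I).biUnion (fun q => ((univ : Finset V).image (P q)).biUnion (fun k =>
      (univ : Finset (Fin m → V)).filter (fun φ =>
        m * ((∑ v, (if P q v = k then (w q v : ℝ) else 0)) / Fintype.card V) + δ' * m ≤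
          ∑ i, (if P q (φ i) = k then (w q (φ i) : ℝ) else 0)))) with hB2
  have hn0 : (0 : ℝ) < Fintype.card V := by exact_mod_cast hV
  have hm0 : (0 : ℝ) < m := by exact_mod_cast hm
  obtain ⟨φ, hφ1, hφ2⟩ : ∃ φ : Fin m → V, φ ∉ B1 ∧ φ ∉ B2 := by
    by_contra hno
    push Not at hno
    have hsub : (univ : Finset (Fin m → V)) ⊆ B1 ∪ B2 := by
      intro φ _
      rw [Finset.mem_union]
      by_cases h : φ ∈ B1
      · exact Or.inl h
      · exact Or.inr (hno φ h)
    have h3 : Fintype.card (Fin m → V) ≤ B1.card + B2.card := by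
      rw [← Finset.card_univ]
      exact (Finset.card_le_card hsub).trans (Finset.card_union_le _ _)
    rw [Fintype.card_fun, Fintype.card_fin] at h3
    have h4 : (Fintype.card V : ℝ) ^ m ≤ (B1.card : ℝ) + B2.card := by exact_mod_cast h3
    have h5 : (0 : ℝ) < (Fintype.card V : ℝ) ^ m := by positivity
    linarith
  have hQ : ∀ i j, i ≠ j → ¬ (φ i = φ j ∨ ∃ q, Bad q (φ i) (φ j)) := by
    intro i j hij hcon
    apply hφ1
    rw [hB1, Finset.mem_filter]
    exact ⟨Finset.mem_univ _, i, j, hij, Finset.mem_filter.2 ⟨Finset.mem_univ _, hcon⟩⟩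
  refine ⟨φ, ?_, ?_, ?_⟩
  · intro i j hij
    by_contra hne
    exact hQ i j hne (Or.inl hij)
  · intro q i j hij hb
    exact hQ i j hij (Or.inr ⟨q, hb⟩)
  · intro q k
    rw [Finset.sum_filter]
    by_cases hk : k ∈ (univ : Finset V).image (P q)
    · have h3 : ¬ (m * ((∑ v, (if P q v = k then (w q v : ℝ) else 0)) / Fintype.card V) +
          δ' * m ≤ ∑ i, (if P q (φ i) = k then (w q (φ i) : ℝ) else 0)) := by
        intro hcon
        apply hφ2
        rw [hB2, Finset.mem_biUnion]
        refine ⟨q, Finset.mem_univ _, ?_⟩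
        rw [Finset.mem_biUnion]
        exact ⟨k, hk, Finset.mem_filter.2 ⟨Finset.mem_univ _, hcon⟩⟩
      rw [not_le] at h3
      refine h3.le.trans ?_
      have h4 : (∑ v, (if P q v = k then (w q v : ℝ) else 0)) ≤ β * Fintype.card V := by
        rw [← Finset.sum_filter]
        exact hP q k
      have h5 : (∑ v, (if P q v = k then (w q v : ℝ) else 0)) / Fintype.card V ≤ β := by
        rw [div_le_iff₀ hn0]
        exact h4
      calc m * ((∑ v, (if P q v = k then (w q v : ℝ) else 0)) / Fintype.card V) + δ' * m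
          ≤ m * β + δ' * m := by gcongr
        _ = (β + δ') * m := by ring
    · have h3 : ∑ i, (if P q (φ i) = k then (w q (φ i) : ℝ) else 0) = 0 := by
        refine Finset.sum_eq_zero fun i _ => ?_
        rw [if_neg]
        intro hcon
        exact hk (Finset.mem_image.2 ⟨φ i, Finset.mem_univ _, hcon⟩)
      rw [h3]
      positivity

end PFU
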