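import Pool.Agent.LibPFU75.T22
import Pool.Agent.LibPFU75.T25

/-! `I = Finset (Fin t)`-like index set of the sets `S` of at most `s` colours, `|I| ≤ 2^t`.
Choose `m ≥ N0`, `m ≥ 1`, `16 · 2^t ≤ (δ'/2)^2 m`; then `δ ≤ min 1 (δ'/2)` with
`m^2 (2^t δ + 1/n) ≤ 1/4` for `n ≥ n0`; `path_duality β δ` for the graph
`G_S = {uv : u ≠ v, χ u v ∈ S}` for each `S`, with `Bad S u v :=
G_S.Adj u v ∧ ¬ (P u = P v ∧ 2 ≤ w u + w v)`; `sample` with `β + δ`, `δ'/2`.
`χ' i j = χ (φ i) (φ j)`; for `S` the weight is `i ↦ w_S (φ i)`: an `S`-linked set `D` has constant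
`P_S (φ i)`, so its weight is at most `(β + δ + δ'/2) m ≤ (β + δ') m`. -/
namespace PFU
open Finset
open scoped Classical

/-- the graph of the colours of `S` -/
def t26_graph {V C : Type} (χ : V → V → C) (hχ : ∀ u v, χ u v = χ v u) (S : Finset C) :
    SimpleGraph V where
  Adj u v := u ≠ v ∧ χ u v ∈ S
  symm := ⟨fun u v h => ⟨h.1.symm, by rw [hχ]; exact h.2⟩⟩
  loopless := ⟨fun _ h => h.1 rfl⟩

theorem exists_HH (s t : ℕ) (β δ' : ℝ) (hβ : 0 ≤ β) (hβ1 : β ≤ 1) (hδ' : 0 < δ') (N0 : ℕ) :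
    ∃ m n0 : ℕ, N0 ≤ m ∧ ∀ (V C : Type) [Fintype V] [Fintype C] (χ : V → V → C),
      (∀ u v, χ u v = χ v u) → Fintype.card C = t → n0 ≤ Fintype.card V →
      (∀ S : Finset C, S.card ≤ s → ∀ l : List V, l.Nodup →
        l.IsChain (fun u v => χ u v ∈ S) → (l.length : ℝ) ≤ β * Fintype.card V) →
      ∃ χ' : Fin m → Fin m → C, (∀ i j, χ' i j = χ' j i) ∧ HH χ' s ((β + δ') * m) := by
  obtain ⟨m1, hm1⟩ := exists_nat_ge (16 * (2 : ℝ) ^ t / (δ' / 2) ^ 2)
  set m : ℕ := N0 + m1 + 1 with hm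
  have hmpos : 0 < m := by omega
  have hmR : (0 : ℝ) < m := by exact_mod_cast hmpos
  have hm16 : 16 * (2 : ℝ) ^ t ≤ (δ' / 2) ^ 2 * m := by
    rw [div_le_iff₀ (by positivity)] at hm1
    have h1 : (m1 : ℝ) ≤ m := by exact_mod_cast (by omega : m1 ≤ m)
    have h2 : (m1 : ℝ) * (δ' / 2) ^ 2 ≤ m * (δ' / 2) ^ 2 := by gcongr
    linarith
  set δ : ℝ := min 1 (min (δ' / 2) (1 / (8 * (m : ℝ) ^ 2 * 2 ^ t))) with hδ
  have hδ0 : 0 < δ := lt_min one_pos (lt_min (by positivity) (by positivity))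
  have hδ1 : δ ≤ 1 := min_le_left _ _
  have hδ2 : δ ≤ δ' / 2 := (min_le_right _ _).trans (min_le_left _ _)
  have hδ3 : δ ≤ 1 / (8 * (m : ℝ) ^ 2 * 2 ^ t) := (min_le_right _ _).trans (min_le_right _ _)
  obtain ⟨n1, hn1⟩ := path_duality β δ hβ hβ1 hδ0 hδ1
  refine ⟨m, n1 + 8 * m ^ 2 + 1, by omega, ?_⟩
  intro V C _ _ χ hχ hC hV hpath
  have hVpos : 0 < Fintype.card V := by omega
  have hVR : (8 * (m : ℝ) ^ 2) ≤ Fintype.card V := by
    exact_mod_cast (by omega : 8 * m ^ 2 ≤ Fintype.card V)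
  have hVR0 : (0 : ℝ) < Fintype.card V := by exact_mod_cast hVpos
  -- path duality for all sets
  have hS : ∀ S : {S : Finset C // S.card ≤ s}, ∃ (w : V → ℕ) (P : V → Finset V),
      (∀ u, w u ≤ 2) ∧
        (((univ : Finset (V × V)).filter (fun p => (t26_graph χ hχ S.1).Adj p.1 p.2 ∧
          ¬ (P p.1 = P p.2 ∧ 2 ≤ w p.1 + w p.2))).card : ℝ) ≤ δ * (Fintype.card V : ℝ) ^ 2 ∧
        ∀ k, (∑ u ∈ univ.filter (fun u => P u = k), (w u : ℝ)) ≤ (β + δ) * Fintype.card V := by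
    intro S
    refine hn1 V (t26_graph χ hχ S.1) (by omega) ?_
    intro l hl1 hl2
    refine hpath S.1 S.2 l hl1 ?_
    exact hl2.imp (fun a b h => h.2)
  choose w P hw hbad hP using hS
  have hcardI : (Fintype.card {S : Finset C // S.card ≤ s} : ℝ) ≤ 2 ^ t := by
    have h1 : Fintype.card {S : Finset C // S.card ≤ s} ≤ Fintype.card (Finset C) :=
      Fintype.card_subtype_le _
    rw [Fintype.card_finset, hC] at h1
    exact_mod_cast h1
  have hc1 : (m : ℝ) ^ 2 * (Fintype.card {S : Finset C // S.card ≤ s} * δ + 1 / Fintype.card V)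
      ≤ 1 / 4 := by
    have h1 : (Fintype.card {S : Finset C // S.card ≤ s} : ℝ) * δ ≤ 1 / (8 * (m : ℝ) ^ 2) := by
      calc (Fintype.card {S : Finset C // S.card ≤ s} : ℝ) * δ
          ≤ 2 ^ t * (1 / (8 * (m : ℝ) ^ 2 * 2 ^ t)) := by gcongr
        _ = 1 / (8 * (m : ℝ) ^ 2) := by field_simp
    have h2 : 1 / (Fintype.card V : ℝ) ≤ 1 / (8 * (m : ℝ) ^ 2) := by
      gcongr
    calc (m : ℝ) ^ 2 * (Fintype.card {S : Finset C // S.card ≤ s} * δ + 1 / Fintype.card V)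
        ≤ (m : ℝ) ^ 2 * (1 / (8 * (m : ℝ) ^ 2) + 1 / (8 * (m : ℝ) ^ 2)) := by gcongr
      _ = 1 / 4 := by field_simp; norm_num
  have hc2 : 16 * (Fintype.card {S : Finset C // S.card ≤ s} : ℝ) ≤ (δ' / 2) ^ 2 * m := by
    refine le_trans ?_ hm16
    gcongr
  obtain ⟨Bad, hBad⟩ : ∃ Bad : {S : Finset C // S.card ≤ s} → V → V → Prop,
      ∀ S u v, Bad S u v ↔ ((t26_graph χ hχ S.1).Adj u v ∧
        ¬ (P S u = P S v ∧ 2 ≤ w S u + w S v)) := ⟨_, fun _ _ _ => Iff.rfl⟩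
  have hc3 : ∀ q : {S : Finset C // S.card ≤ s}, (((univ : Finset (V × V)).filter (fun p =>
      Bad q p.1 p.2)).card : ℝ) ≤ δ * (Fintype.card V : ℝ) ^ 2 := by
    intro q
    have h := hbad q
    simp only [hBad]
    convert h
  have hc4 : ∀ (q : {S : Finset C // S.card ≤ s}) (k : Finset V),
      (∑ u ∈ @Finset.filter V (fun u => P q u = k) (fun u => Classical.propDecidable _) univ,
        (w q u : ℝ)) ≤ (β + δ) * Fintype.card V := by
    intro q k
    convert hP q k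
  obtain ⟨φ, hφ1, hφ2, hφ3⟩ := sample (I := {S : Finset C // S.card ≤ s}) (K := Finset V)
    m (β + δ) δ (δ' / 2) (by linarith) (by linarith) hmpos w P Bad
    hw hc3 hc4 hVpos hc1 hc2
  refine ⟨fun i j => χ (φ i) (φ j), fun i j => hχ _ _, ?_⟩
  intro S hScard
  set S' : {S : Finset C // S.card ≤ s} := ⟨S, hScard⟩ with hS'
  have key : ∀ i j, EE (fun i j => χ (φ i) (φ j)) S i j →
      P S' (φ i) = P S' (φ j) ∧ 2 ≤ w S' (φ i) + w S' (φ j) := by
    intro i j hij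
    have h1 := hφ2 S' i j hij.1
    rw [hBad] at h1
    by_contra hcon
    exact h1 ⟨⟨fun h => hij.1 (hφ1 h), hij.2⟩, hcon⟩
  refine ⟨fun i => w S' (φ i), fun i j hij => (key i j hij).2, ?_⟩
  intro D hD
  rcases D.eq_empty_or_nonempty with rfl | ⟨i0, hi0⟩
  · simp only [Finset.sum_empty]
    positivity
  · have hlk : ∀ i, Relation.ReflTransGen (EE (fun i j => χ (φ i) (φ j)) S) i i0 →
        P S' (φ i) = P S' (φ i0) := by
      intro i h1
      induction h1 using Relation.ReflTransGen.head_induction_on with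
      | refl => rfl
      | head hab _ ih => exact (key _ _ hab).1.trans ih
    have h1 : (∑ u ∈ D, ((w S' (φ u) : ℕ) : ℝ)) ≤
        ∑ i ∈ @Finset.filter (Fin m) (fun i => P S' (φ i) = P S' (φ i0))
          (fun i => Classical.propDecidable _) univ, (w S' (φ i) : ℝ) := by
      refine Finset.sum_le_sum_of_subset_of_nonneg ?_ ?_
      · intro i hi
        exact (@Finset.mem_filter (Fin m) (fun i => P S' (φ i) = P S' (φ i0))
          (fun i => Classical.propDecidable _) univ i).2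
          ⟨Finset.mem_univ _, hlk i (hD i hi i0 hi0)⟩
      · intro i _ _
        positivity
    have h3 := hφ3 S' (P S' (φ i0))
    refine h1.trans (h3.trans ?_)
    have : β + δ + δ' / 2 ≤ β + δ' := by linarith
    gcongr

end PFU
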