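import Pool.Agent.LibPFU75.T16
import Pool.Agent.LibPFU75.T26
import Pool.Agent.LibPF61.T31
import Pool.Agent.LibPF61.Problem

/-! `core (ε/4)`: `s0`.  Given `s ≥ max s0 1`, `t`: let `N0` be from `core`, `β = 2 (s/t)/(1+ε)`
(`≤ 1`), `δ' = (s/t) ε/2`; `1/(1+ε) ≤ 1 - ε/2`, so `β + δ' ≤ 2 (s/t)(1 - ε/2) + (s/t) ε/2 =
2 (s/t)(1 - ε/4)`.  `exists_HH s t β δ' N0`: `m`, `n0`; `L = n0 + 2` (`n ≥ (t/2s) ℓ ≥ ℓ ≥ n0`).
If `χ : Sym2 (Fin n) → Fin t` has no path with exactly `ℓ` vertices and at most `s` colours then, by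
`PF61.walk_of_list` (it truncates longer paths), every list `l`, nodup, chain with colours in `S`,
`|S| ≤ s`, has length `< ℓ ≤ β n`.  `exists_HH` gives `χ'` on `Fin m`, `HH χ' s ((β+δ') m)`, hence
(monotone in `X`) a contradiction to `core`. -/
namespace PFU
open Finset
open scoped Classical

theorem t27_HH_mono {V C : Type} {χ : V → V → C} {s : ℕ} {X Y : ℝ} (h : HH χ s X) (hXY : X ≤ Y) :
    HH χ s Y := by
  intro S hS
  obtain ⟨w, hw, hD⟩ := h S hS
  exact ⟨w, hw, fun D hl => (hD D hl).trans hXY⟩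

theorem forces_large (ε : ℝ) (hε : 0 < ε) (hε1 : ε ≤ 1) :
    ∃ s0 : ℕ, ∀ s t : ℕ, s0 ≤ s → 320 * (s : ℝ) ≤ ε * t →
      ∃ L : ℕ, ∀ ℓ n : ℕ, L ≤ ℓ → (1 + ε) * ((t : ℝ) / (2 * s)) * ℓ ≤ n →
        PF61.Forces t s ℓ n := by
  obtain ⟨s0, hs0⟩ := core (ε / 4) (by linarith) (by linarith)
  refine ⟨max s0 1, fun s t hs hst => ?_⟩
  have hs1 : 1 ≤ s := le_trans (le_max_right _ _) hs
  have hs1' : (1 : ℝ) ≤ s := by exact_mod_cast hs1
  have ht0 : (0 : ℝ) < t := by
    by_contra h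
    push Not at h
    have h2 : ε * (t : ℝ) ≤ 0 := mul_nonpos_of_nonneg_of_nonpos hε.le h
    linarith
  have hstt : 320 * (s : ℝ) ≤ t := hst.trans (by nlinarith)
  obtain ⟨N0, hN0⟩ := hs0 s t (le_trans (le_max_left _ _) hs) (by linarith)
  have hp0 : 0 < (s : ℝ) / t := div_pos (by linarith) ht0
  have hp1 : (s : ℝ) / t ≤ 1 / 320 := by
    rw [div_le_div_iff₀ ht0 (by norm_num)]
    linarith
  set β : ℝ := 2 * ((s : ℝ) / t) / (1 + ε) with hβ
  set δ' : ℝ := ((s : ℝ) / t) * ε / 2 with hδ'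
  have hβ0 : 0 ≤ β := by positivity
  have hβ1 : β ≤ 1 := by
    rw [hβ, div_le_one (by linarith)]
    linarith
  have hδ0 : 0 < δ' := by positivity
  have hsum : β + δ' ≤ 2 * (1 - ε / 4) * ((s : ℝ) / t) := by
    have h1 : 2 / (1 + ε) ≤ 2 - ε := by
      rw [div_le_iff₀ (by linarith)]
      nlinarith
    have h2 : β = ((s : ℝ) / t) * (2 / (1 + ε)) := by
      rw [hβ]; ring
    rw [h2, hδ']
    have h3 := mul_le_mul_of_nonneg_left h1 hp0.le
    nlinarith
  obtain ⟨m, n0, hm, hmn⟩ := exists_HH s t β δ' hβ0 hβ1 hδ0 N0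
  refine ⟨n0 + 2, fun ℓ n hℓ hn => ?_⟩
  by_contra hF
  unfold PF61.Forces at hF
  push Not at hF
  obtain ⟨χ, hχ⟩ := hF
  have hℓn : (ℓ : ℝ) ≤ β * n := by
    have h1 := mul_le_mul_of_nonneg_left hn hβ0
    have h2 : β * ((1 + ε) * ((t : ℝ) / (2 * s)) * ℓ) = ℓ := by
      rw [hβ]
      have : (s : ℝ) ≠ 0 := by linarith
      have h3 : (1 + ε) ≠ 0 := by linarith
      field_simp
    rw [h2] at h1
    exact h1
  have hn0 : n0 ≤ n := by
    have h1 : (ℓ : ℝ) ≤ n := by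
      refine hℓn.trans ?_
      have : (0 : ℝ) ≤ n := Nat.cast_nonneg n
      nlinarith
    have h2 : ℓ ≤ n := by exact_mod_cast h1
    omega
  obtain ⟨χ', hsym, hHH⟩ := hmn (Fin n) (Fin t) (fun u v => χ s(u, v))
    (fun u v => by rw [Sym2.eq_swap]) (by simp) (by simpa using hn0) (by
      intro S hS l hnd hch
      have hlt : l.length < ℓ := by
        by_contra hge
        push Not at hge
        obtain ⟨u, v, p, hp1, hp2, hp3⟩ := PF61.walk_of_list χ S l hnd hch ℓ (by omega) hge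
        have h1 := hχ u v p hp1 hp2
        have h2 : (p.edges.map χ).toFinset ⊆ S := by
          intro c hc
          rw [List.mem_toFinset, List.mem_map] at hc
          obtain ⟨e, he, rfl⟩ := hc
          exact hp3 e he
        have h3 := Finset.card_le_card h2
        have h4 : s < (p.edges.map χ).toFinset.card := by
          convert h1
        omega
      rw [Fintype.card_fin]
      have : (l.length : ℝ) ≤ ℓ := by exact_mod_cast hlt.le
      linarith)
  have hc := hN0 (Fin m) (Fin t) χ' hsym (by simp) (by simpa using hm)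
  apply hc
  refine t27_HH_mono hHH ?_
  rw [Fintype.card_fin]
  exact mul_le_mul_of_nonneg_right hsum (Nat.cast_nonneg m)

end PFU
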