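import Pool.Agent.LibPFU75.T27
import Pool.Agent.LibPF61.Final

/-! With `ε1 = min ε 1`: if `320 s > (ε1/2) t` use `PF61.main_theorem ε1 (640/ε1)` (and
`ℓ ≥ N s`); otherwise `forces_large (ε1/2)` for the upper bound (`max 1 (t/2s) = t/2s`,
`n = ⌊(1+ε1)(t/2s) ℓ⌋`, `ℓ` large) and `PF61.forces_lower` for the lower bound, as in the proof of
`PF61.main_theorem` (file `LibPF61/Final.lean`). -/
namespace PFU
open Finset
open scoped Classical

theorem main_uniform (ε : ℝ) (hε : 0 < ε) :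
    ∃ N : ℕ, ∀ s t : ℕ, N ≤ s → s < t → ∃ L : ℕ, ∀ ℓ : ℕ, L ≤ ℓ →
      ∃ R : ℕ, IsLeast {n : ℕ | PF61.Forces t s ℓ n} R ∧
        (1 - ε) * max 1 ((t : ℝ) / (2 * s)) * ℓ ≤ (R : ℝ) ∧
        (R : ℝ) ≤ (1 + ε) * max 1 ((t : ℝ) / (2 * s)) * ℓ := by
  set ε1 : ℝ := min ε 1 with hε1
  have h10 : 0 < ε1 := lt_min hε one_pos
  have h11 : ε1 ≤ 1 := min_le_right _ _
  have h1ε : ε1 ≤ ε := min_le_left _ _
  obtain ⟨N0, hN0⟩ := PF61.main_theorem ε1 (640 / ε1) h10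
  obtain ⟨s0, hs0⟩ := forces_large (ε1 / 2) (by positivity) (by linarith)
  obtain ⟨N1, hN1⟩ := exists_nat_ge (4 / ε1)
  have hN1' : 4 ≤ ε1 * N1 := by
    rw [div_le_iff₀ h10] at hN1
    linarith
  refine ⟨N0 + s0 + 1, ?_⟩
  intro s t hs hst
  have hsR : (1 : ℝ) ≤ s := by
    have : 1 ≤ s := by omega
    exact_mod_cast this
  have htR : (0 : ℝ) < t := by
    have : 0 < t := by omega
    exact_mod_cast this
  set mx : ℝ := max 1 ((t : ℝ) / (2 * s)) with hmx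
  have hmx1 : 1 ≤ mx := le_max_left _ _
  have hmx0 : 0 ≤ mx := by linarith
  rcases le_or_gt ((t : ℝ)) (640 / ε1 * s) with hc | hc
  · -- few colours
    refine ⟨N0 + N0 * s, ?_⟩
    intro ℓ hℓ
    have hℓ0 : (0 : ℝ) ≤ ℓ := by positivity
    obtain ⟨R, hR1, hR2, hR3⟩ := hN0 s t (by omega) hst hc ℓ (by omega)
    refine ⟨R, hR1, ?_, ?_⟩
    · refine le_trans ?_ (hR3 (by omega))
      gcongr
    · refine hR2.trans ?_
      gcongr
  · -- many colours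
    have hc' : 320 * (s : ℝ) ≤ ε1 / 2 * t := by
      rw [div_mul_eq_mul_div, div_lt_iff₀ h10] at hc
      linarith
    have hmxe : mx = (t : ℝ) / (2 * s) := by
      rw [hmx]
      refine max_eq_right ?_
      rw [le_div_iff₀ (by positivity)]
      nlinarith
    obtain ⟨L0, hL0⟩ := hs0 s t (by omega) hc'
    refine ⟨L0 + N1 * s + 1, ?_⟩
    intro ℓ hℓ
    have hℓ0 : (0 : ℝ) ≤ ℓ := by positivity
    have hN1s : (N1 : ℝ) * s ≤ ℓ := by
      have : N1 * s ≤ ℓ := by omega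
      exact_mod_cast this
    have h4 : 4 * (s : ℝ) ≤ ε1 * ℓ := by
      have h1 : ε1 * ((N1 : ℝ) * s) ≤ ε1 * ℓ := by gcongr
      have h2 : 4 * (s : ℝ) ≤ ε1 * N1 * s := by gcongr
      linarith
    set n : ℕ := ⌊(1 + ε1) * mx * ℓ⌋₊ with hn
    have hn1 : (n : ℝ) ≤ (1 + ε1) * mx * ℓ := Nat.floor_le (by positivity)
    have hn2 : (1 + ε1) * mx * ℓ < n + 1 := Nat.lt_floor_add_one _
    have hfn : PF61.Forces t s ℓ n := by
      refine hL0 ℓ n (by omega) ?_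
      rw [← hmxe]
      have h2 : 1 ≤ ε1 / 2 * mx * ℓ := by
        have h3 : ε1 / 2 * 1 * ℓ ≤ ε1 / 2 * mx * ℓ := by gcongr
        linarith
      have : (1 + ε1) * mx * ℓ = (1 + ε1 / 2) * mx * ℓ + ε1 / 2 * mx * ℓ := by ring
      linarith
    have hne : ∃ n, PF61.Forces t s ℓ n := ⟨n, hfn⟩
    refine ⟨Nat.find hne, ⟨Nat.find_spec hne, fun m hm => Nat.find_min' hne hm⟩, ?_, ?_⟩
    · obtain ⟨h1, h2⟩ := PF61.forces_lower t s ℓ (Nat.find hne) (by omega) (by omega)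
        (Nat.find_spec hne)
      have h3 : (1 - ε) * mx * ℓ ≤ (1 - ε1) * mx * ℓ := by gcongr
      refine h3.trans ?_
      rw [hmxe]
      have h4 : 2 * (s : ℝ) + 1 ≤ ε1 * ℓ := by linarith
      have h5 : (t : ℝ) * ((1 - ε1) * ℓ) ≤ t * ((ℓ : ℝ) - 1 - 2 * s) := by
        have : (1 - ε1) * ℓ ≤ (ℓ : ℝ) - 1 - 2 * s := by linarith
        gcongr
      have h6 : (1 - ε1) * ((t : ℝ) / (2 * s)) * ℓ = (t * ((1 - ε1) * ℓ)) / (2 * s) := by ring
      rw [h6, div_le_iff₀ (by positivity)]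
      linarith
    · have h1 : (Nat.find hne : ℝ) ≤ n := by exact_mod_cast Nat.find_min' hne hfn
      refine (h1.trans hn1).trans ?_
      gcongr

end PFU
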